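import Pool.Agent.Helper92.BO.GoalsA

/-!
# Admissibility of the continuation
-/

namespace Pool.Agent.Helper92.BO

open MeasureTheory Filter Topology Function

section adm

open Classical in
theorem adm_chain (hstr : StrStmt) (hprm : PrmStmt) (hpos : PosStmt)
    (G : SimpleGraph ℕ) (l : ℝ) (L : List ℕ) (v : ℕ) (b : ℕ → ℝ) (hl : 0 < l) (hl1 : l ≤ 1)
    (hnd : L.Nodup) (hb : Pos1 L b) (x' x : ℝ) (hx' : 0 ≤ x') (hxx : x' ≤ x) (hx : x < 1) :
    ∀ S : List ℕ, S.Nodup → (∀ u ∈ S, u ∈ L) →
      ZR G l L (cut G v (1 - x') b) * (1 - x) ^ (S.filter fun u => decide (G.Adj v u)).length ≤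
      ZR G l L (fun u => if u ∈ S then cut G v (1 - x) b u else cut G v (1 - x') b u) *
        (1 - x') ^ (S.filter fun u => decide (G.Adj v u)).length := by
  intro S
  induction S with
  | nil =>
    intro _ _
    simp
  | cons a S ih =>
    intro hS hSL
    have ihS := ih (List.nodup_cons.1 hS).2 fun u hu => hSL u (List.mem_cons_of_mem _ hu)
    have haS : a ∉ S := (List.nodup_cons.1 hS).1
    have haL : a ∈ L := hSL a List.mem_cons_self
    by_cases hva : G.Adj v a
    · rw [List.filter_cons_of_pos (by simpa using hva), List.length_cons]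
      set k := (S.filter fun u => decide (G.Adj v u)).length with hk
      set m : ℕ → ℝ := fun u => if u ∈ S then cut G v (1 - x) b u else cut G v (1 - x') b u
        with hm
      set m' : ℕ → ℝ := fun u => if u ∈ a :: S then cut G v (1 - x) b u
        else cut G v (1 - x') b u with hm'
      set B := min (b a) (1 - x) with hB
      set B' := min (b a) (1 - x') with hB'
      have hba := hb a haL
      have hB0 : 0 < B := lt_min hba.1 (by linarith)
      have e1 : update m a B' = m := by
        funext u
        by_cases hu : u = a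
        · subst hu
          rw [update_self, hm, hB']
          simp only [haS, if_false]
          unfold cut
          rw [if_pos hva]
        · rw [update_of_ne hu]
      have e2 : update m a B = m' := by
        funext u
        by_cases hu : u = a
        · subst hu
          rw [update_self, hm', hB]
          simp only [List.mem_cons, true_or, if_true]
          unfold cut
          rw [if_pos hva]
        · rw [update_of_ne hu, hm, hm']
          simp only [List.mem_cons, hu, false_or]
      have hcut : ∀ y : ℝ, 0 ≤ y → y < 1 → Pos1 L (cut G v (1 - y) b) := by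
        intro y hy0 hy1 u hu
        unfold cut
        split_ifs with hadj
        · exact ⟨lt_min (hb u hu).1 (by linarith), (min_le_left _ _).trans (hb u hu).2⟩
        · exact hb u hu
      have hc1 := hcut x (hx'.trans hxx) hx
      have hc2 := hcut x' hx' (by linarith)
      have hmP : Pos1 L m := by
        intro u hu
        by_cases h : u ∈ S
        · have e : m u = cut G v (1 - x) b u := by rw [hm]; simp only [h, if_true]
          rw [e]; exact hc1 u hu
        · have e : m u = cut G v (1 - x') b u := by rw [hm]; simp only [h, if_false]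
          rw [e]; exact hc2 u hu
      have hmP' : Pos1 L m' := by
        intro u hu
        by_cases h : u ∈ a :: S
        · have e : m' u = cut G v (1 - x) b u := by rw [hm']; simp only [h, if_true]
          rw [e]; exact hc1 u hu
        · have e : m' u = cut G v (1 - x') b u := by rw [hm']; simp only [h, if_false]
          rw [e]; exact hc2 u hu
      have h01 : In01 L m := fun u hu => ⟨(hmP u hu).1.le, (hmP u hu).2⟩
      have h01' : In01 L m' := fun u hu => ⟨(hmP' u hu).1.le, (hmP' u hu).2⟩
      have hperm : L.Perm (a :: L.erase a) := List.perm_cons_erase haL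
      have hnot : a ∉ L.erase a := hnd.not_mem_erase
      have hst := hstr G l (L.erase a) a m B B' hl hl1 hnot
        (fun u hu => h01 u (List.mem_of_mem_erase hu)) hB0
        (min_le_min_left _ (by linarith)) ((min_le_left _ _).trans hba.2)
      rw [e1, e2, ← (hprm G 0 l L _ m hperm h01).2, ← (hprm G 0 l L _ m' hperm h01').2] at hst
      have hz : 0 < ZR G l L m := (hpos G l L m hl hl1).2 hmP
      have hz' : 0 < ZR G l L m' := (hpos G l L m' hl hl1).2 hmP'
      have hBB : B' * (1 - x) ≤ B * (1 - x') := by
        rcases le_total (b a) (1 - x) with h | h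
        · rw [hB, hB', min_eq_left h, min_eq_left (h.trans (by linarith))]
          exact mul_le_mul_of_nonneg_left (by linarith) hba.1.le
        · rw [hB, hB', min_eq_right h]
          have : min (b a) (1 - x') ≤ 1 - x' := min_le_right _ _
          nlinarith
      have hstep : ZR G l L m * (1 - x) ≤ ZR G l L m' * (1 - x') := by
        have h1 : ZR G l L m * B * (1 - x) ≤ ZR G l L m' * B' * (1 - x) :=
          mul_le_mul_of_nonneg_right hst (by linarith)
        have h2 : ZR G l L m' * (B' * (1 - x)) ≤ ZR G l L m' * (B * (1 - x')) :=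
          mul_le_mul_of_nonneg_left hBB hz'.le
        have h3 : ZR G l L m * (1 - x) * B ≤ ZR G l L m' * (1 - x') * B := by nlinarith
        exact le_of_mul_le_mul_right h3 hB0
      have hp0 : (0 : ℝ) ≤ (1 - x') ^ k := pow_nonneg (by linarith) _
      calc ZR G l L (cut G v (1 - x') b) * (1 - x) ^ (k + 1) =
            (ZR G l L (cut G v (1 - x') b) * (1 - x) ^ k) * (1 - x) := by ring
        _ ≤ (ZR G l L m * (1 - x') ^ k) * (1 - x) :=
            mul_le_mul_of_nonneg_right ihS (by linarith)
        _ = (ZR G l L m * (1 - x)) * (1 - x') ^ k := by ring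
        _ ≤ (ZR G l L m' * (1 - x')) * (1 - x') ^ k := mul_le_mul_of_nonneg_right hstep hp0
        _ = _ := by ring
    · rw [List.filter_cons_of_neg (by simpa using hva)]
      have e : (fun u => if u ∈ a :: S then cut G v (1 - x) b u else cut G v (1 - x') b u) =
          fun u => if u ∈ S then cut G v (1 - x) b u else cut G v (1 - x') b u := by
        funext u
        by_cases hu : u = a
        · subst hu
          simp only [List.mem_cons, true_or, if_true, haS, if_false]
          unfold cut
          rw [if_neg hva, if_neg hva]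
        · simp only [List.mem_cons, hu, false_or]
      rw [e]
      exact ihS

end adm

theorem adm (hcnt : CntStmt) (hpos : PosStmt) (hmon : MonStmt) (hstr : StrStmt)
    (hprm : PrmStmt) (hloc : LocStmt) : AdmStmt := by
  classical
  intro G Δ l L v b hD hl hl1 hnd hv hb
  have hb01 : In01 L b := fun u hu => ⟨(hb u hu).1.le, (hb u hu).2⟩
  have hcut01 : ∀ y : ℝ, 0 ≤ y → y ≤ 1 → In01 L (cut G v (1 - y) b) := by
    intro y hy0 hy1 u hu
    unfold cut
    split_ifs with hadj
    · exact ⟨le_min (hb u hu).1.le (by linarith), (min_le_left _ _).trans (hb u hu).2⟩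
    · exact ⟨(hb u hu).1.le, (hb u hu).2⟩
  have hcutle : ∀ x' x : ℝ, x' ≤ x → ∀ u ∈ L, cut G v (1 - x) b u ≤ cut G v (1 - x') b u := by
    intro x' x hxx u _
    unfold cut
    split_ifs
    · exact min_le_min_left _ (by linarith)
    · exact le_rfl
  have hanti : ∀ x' x, 0 ≤ x' → x' ≤ x → x ≤ 1 →
      ZR G l L (cut G v (1 - x) b) ≤ ZR G l L (cut G v (1 - x') b) := by
    intro x' x hx' hxx hx
    exact hmon G l L _ _ hl hl1 (hcut01 x (hx'.trans hxx) hx) (hcut01 x' hx' (hxx.trans hx))
      (hcutle x' x hxx)
  refine ⟨(hcnt G 0 l L v b hb01).2.1, ?_, hanti, ?_⟩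
  · intro x hx0 hx1
    refine (hpos G l L _ hl hl1).2 ?_
    intro u hu
    unfold cut
    split_ifs with hadj
    · exact ⟨lt_min (hb u hu).1 (by linarith), (min_le_left _ _).trans (hb u hu).2⟩
    · exact hb u hu
  · intro x' x hx' hxx hx
    show ZR G l L (cut G v (1 - x') b) * (1 - x) ^ Δ ≤
      ZR G l L (cut G v (1 - x) b) * (1 - x') ^ Δ
    set k := (L.filter fun u => decide (G.Adj v u)).length with hk
    have hkΔ : k ≤ Δ := by
      have hsub : ((L.filter fun u => decide (G.Adj v u)).toFinset : Set ℕ) ⊆
          G.neighborSet v := by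
        intro u hu
        rw [Finset.mem_coe, List.mem_toFinset, List.mem_filter] at hu
        simpa using hu.2
      have hle := (Set.encard_le_encard hsub).trans (hD v)
      rw [Set.encard_coe_eq_coe_finsetCard, List.toFinset_card_of_nodup (hnd.filter _)] at hle
      exact_mod_cast hle
    have hW0 : 0 ≤ ZR G l L (cut G v (1 - x) b) :=
      ((hpos G l L _ hl hl1).1 (hcut01 x (hx'.trans hxx) hx)).1
    rcases hx.lt_or_eq with hx1 | hx1
    · have h1 := adm_chain hstr hprm hpos G l L v b hl hl1 hnd hb x' x hx' hxx hx1 L hnd
        fun u hu => hu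
      have h2 : ZR G l L (fun u => if u ∈ L then cut G v (1 - x) b u
          else cut G v (1 - x') b u) = ZR G l L (cut G v (1 - x) b) := by
        refine (hloc G (fun _ => 0) 0 l L _ _ ?_).2.1
        intro u hu
        simp only [hu, if_true]
      rw [h2, ← hk] at h1
      have h3 : (1 - x) ^ (Δ - k) ≤ (1 - x') ^ (Δ - k) :=
        pow_le_pow_left₀ (by linarith) (by linarith) _
      have e1 : (1 - x) ^ Δ = (1 - x) ^ k * (1 - x) ^ (Δ - k) := by
        rw [← pow_add, Nat.add_sub_cancel' hkΔ]
      have e2 : (1 - x') ^ Δ = (1 - x') ^ k * (1 - x') ^ (Δ - k) := by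
        rw [← pow_add, Nat.add_sub_cancel' hkΔ]
      rw [e1, e2, ← mul_assoc, ← mul_assoc]
      exact mul_le_mul h1 h3 (pow_nonneg (by linarith) _)
        (mul_nonneg hW0 (pow_nonneg (by linarith) _))
    · rcases Nat.eq_zero_or_pos Δ with h0 | h0
      · subst h0
        have hk0 : k = 0 := Nat.le_zero.1 hkΔ
        have hno : ∀ u ∈ L, ¬ G.Adj v u := by
          intro u hu hadj
          have : u ∈ L.filter fun u => decide (G.Adj v u) :=
            List.mem_filter.2 ⟨hu, by simpa using hadj⟩
          have h2 : (L.filter fun u => decide (G.Adj v u)) = [] :=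
            List.eq_nil_of_length_eq_zero (hk.symm.trans hk0)
          rw [h2] at this
          exact absurd this List.not_mem_nil
        rw [pow_zero, pow_zero, mul_one, mul_one]
        refine le_of_eq ((hloc G (fun _ => 0) 0 l L _ _ ?_).2.1)
        intro u hu
        unfold cut
        rw [if_neg (hno u hu), if_neg (hno u hu)]
      · have e1 : (1 - x) ^ Δ = 0 := by rw [hx1, sub_self, zero_pow h0.ne']
        rw [e1, mul_zero]
        exact mul_nonneg hW0 (pow_nonneg (by linarith) _)

end Pool.Agent.Helper92.BO
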