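import Pool.Agent.Helper92.FR.Stmt

/-!
# Stable set polytopes of bipartite graphs of bounded degree: the statement

`RQ` (rational numbers in binary), `coef` and `vol` are in `Pool.Agent.Helper92.VP.Defs`; `Sys`,
`sol` (the polyhedron) in `Pool.Agent.Helper92.FR.Stmt`. In `encOf` natural numbers of the type `ℕ`
are coded in unary.
-/

namespace Pool.Agent.Helper92.BO

open Pool.Agent.Helper81.CC Pool.Agent.Bin Pool.Agent.Helper92.VP Pool.Agent.Helper92.FR

/-- The row `r` (of a system with `n` variables) says `x i ≥ 0`. -/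
def IsLow (n : ℕ) (r : List RQ × RQ) (i : ℕ) : Prop :=
  r.2.val = 0 ∧ ∀ k < n, coef r k = if k = i then 1 else 0

/-- The row `r` says `- x i ≥ - 1`. -/
def IsUp (n : ℕ) (r : List RQ × RQ) (i : ℕ) : Prop :=
  r.2.val = -1 ∧ ∀ k < n, coef r k = if k = i then -1 else 0

/-- The row `r` says `- x i - x j ≥ - 1`. -/
def IsEdge (n : ℕ) (r : List RQ × RQ) (i j : ℕ) : Prop :=
  i ≠ j ∧ r.2.val = -1 ∧ ∀ k < n, coef r k = if k = i ∨ k = j then -1 else 0

/-- The variables `i` and `j` are adjacent: the system contains the row `- x i - x j ≥ - 1`. -/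
def Nbr (S : Sys) (i j : ℕ) : Prop := ∃ r ∈ S.2, IsEdge S.1 r i j

/-- The system `S` consists of rows `x i ≥ 0` (for all `i`), `x i ≤ 1` (at least for all `i` which
are not adjacent to any `j`) and `x i + x j ≤ 1` for the edges of a bipartite graph all of whose
degrees are at most `Δ`. -/
def BipStab (Δ : ℕ) (S : Sys) : Prop :=
  (∀ r ∈ S.2, (∃ i < S.1, IsLow S.1 r i) ∨ (∃ i < S.1, IsUp S.1 r i) ∨
    ∃ i < S.1, ∃ j < S.1, IsEdge S.1 r i j) ∧
  (∀ i < S.1, (∃ r ∈ S.2, IsLow S.1 r i) ∧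
    ((∃ r ∈ S.2, IsUp S.1 r i) ∨ ∃ j < S.1, Nbr S i j)) ∧
  (∃ side : ℕ → Bool, ∀ i < S.1, ∀ j < S.1, Nbr S i j → side i ≠ side j) ∧
  ∀ i < S.1, {j | j < S.1 ∧ Nbr S i j}.ncard ≤ Δ

/-- A deterministic polynomial-time machine computes, for each system `S` and each `q ≥ 1` (in
unary), a rational number, which is the volume of the polytope up to a relative error of at most
`1 / q` if `S` describes the stable set polytope of a bipartite graph of maximum degree at most
`Δ`. -/
def BipStabApprox (Δ : ℕ) : Prop :=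
  ∃ f : Sys × ℕ → RQ, PolyTimeComputable (encOf (Sys × ℕ)) (encOf RQ) f ∧
    ∀ (S : Sys) (q : ℕ), BipStab Δ S → 1 ≤ q → |(f (S, q)).val - vol (sol S)| ≤ vol (sol S) / q

end Pool.Agent.Helper92.BO
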