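import Pool.Agent.Helper92.FR.GoalsS
import Pool.Agent.Helper92.BO.Stmt

/-!
# Stable set polytopes: the algorithm

Natural numbers of the type `ℕ` are in unary, `BN` in binary, `Qn` are exact rational numbers. `E` is
a list of edges, the vertices are `0, …, n - 1`.
-/

namespace Pool.Agent.Helper92.BO

open Pool.Agent.Helper81.CC Pool.Agent.Bin Pool.Agent.Helper92.VP Pool.Agent.Helper92.FR

/-! ### The graph -/

/-- Is the rational number negative? -/
def negB (x : RQ) : Bool := x.1 && (decide (x.2.1 ≠ ⟨0⟩) && decide (x.2.2 ≠ ⟨0⟩))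

/-- The variables with a negative coefficient. -/
def negs (n : ℕ) (r : List RQ × RQ) : List ℕ :=
  (List.range n).filter fun j => negB (r.1.getD j (false, ⟨0⟩, ⟨1⟩))

/-- The edges of a system. -/
def edgesS (S : Sys) : List (ℕ × ℕ) :=
  (S.2.filter fun r => decide ((negs S.1 r).length = 2)).map fun r =>
    ((negs S.1 r).getD 0 0, (negs S.1 r).getD 1 0)

/-- Adjacency. -/
def adjB (E : List (ℕ × ℕ)) (u w : ℕ) : Bool :=
  decide (u ≠ w) && E.any fun e =>
    (decide (e.1 = u) && decide (e.2 = w)) || (decide (e.1 = w) && decide (e.2 = u))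

/-- The graph with the edges `E`. -/
def gE (E : List (ℕ × ℕ)) : SimpleGraph ℕ where
  Adj u w := adjB E u w = true
  symm := ⟨fun u w h => by
    simp only [adjB, Bool.and_eq_true, decide_eq_true_eq, List.any_eq_true, Bool.or_eq_true] at h ⊢
    obtain ⟨h1, e, he, h2⟩ := h
    exact ⟨Ne.symm h1, e, he, h2.symm⟩⟩
  loopless := ⟨fun u h => by simp [adjB] at h⟩

/-- The closed neighbourhood of `I`. -/
def cnL (E : List (ℕ × ℕ)) (n : ℕ) (I : List ℕ) : List ℕ :=
  (List.range n).filter fun w => I.contains w || I.any fun v => adjB E v w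

/-- Do the closed neighbourhoods of `u` and `w` intersect? -/
def relB (E : List (ℕ × ℕ)) (n u w : ℕ) : Bool :=
  (List.range n).any fun x => (decide (x = u) || adjB E u x) && (decide (x = w) || adjB E w x)

/-- The vertices related to `u`. -/
def nbR (E : List (ℕ × ℕ)) (n u : ℕ) : List ℕ := (List.range n).filter fun w => relB E n u w

/-! ### The connected sets -/

/-- One step of a walk; the state is the rest of the code and the list of the visited vertices. -/
def wstep (E : List (ℕ × ℕ)) (n B : ℕ) (st : ℕ × List ℕ) : ℕ × List ℕ :=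
  (st.1 / B, (nbR E n (st.2.headD 0)).getD (st.1 % B) (st.2.headD 0) :: st.2)

/-- The vertices visited by the walk of length `T` with the code `e` and the start `v`. -/
def wlk (E : List (ℕ × ℕ)) (n B T e v : ℕ) : List ℕ :=
  ((List.range T).foldl (fun st _ => wstep E n B st) (e, [v])).2

/-- The sorted list of the elements. -/
def canon (n : ℕ) (vs : List ℕ) : List ℕ := (List.range n).filter fun u => vs.contains u

/-- Removes duplicates. -/
def dedupL (l : List (List ℕ)) : List (List ℕ) :=
  l.foldl (fun acc S => if acc.contains S then acc else acc ++ [S]) []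

/-- All sets with at most `m` elements visited by walks of length `2 m` with codes less than `N`. -/
def setsL (E : List (ℕ × ℕ)) (n B m N : ℕ) : List (List ℕ) :=
  dedupL (((List.range n).flatMap fun v => (List.range N).map fun e =>
    canon n (wlk E n B (2 * m) e v)).filter fun S => decide (S.length ≤ m))

/-- All sublists. -/
def subL (S : List ℕ) : List (List ℕ) :=
  S.foldl (fun acc x => acc ++ acc.map fun I => I ++ [x]) [[]]

/-! ### The coefficients -/

/-- Does `I` contain an edge? -/
def hasE (E : List (ℕ × ℕ)) (I : List ℕ) : Bool := I.any fun u => I.any fun w => adjB E u w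

/-- Looks up a table. -/
def lkp (tab : List (List ℕ × BN)) (I : List ℕ) : BN :=
  ((tab.find? fun z => decide (z.1 = I)).map fun z => z.2).getD ⟨0⟩

/-- The entry of `I` of the table, from the previous entries (`Q` times the coefficient). -/
def cval (E : List (ℕ × ℕ)) (n : ℕ) (Q : BN) (tab : List (List ℕ × BN)) (I : List ℕ) : BN :=
  if I.isEmpty then Q else if hasE E I then ⟨0⟩
  else BN.sum (I.map fun i => lkp tab (I.filter fun j => decide (j ≠ i))) /
    BN.ofNat (cnL E n I).length

/-- The table for all sublists of `S`. -/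
def ctab (E : List (ℕ × ℕ)) (n : ℕ) (Q : BN) (S : List ℕ) : List (List ℕ × BN) :=
  (subL S).foldl (fun tab I => tab ++ [(I, cval E n Q tab I)]) []

/-- The coefficient `i` of the polynomial of `T` (times `Q`). -/
def yv (tab : List (List ℕ × BN)) (T : List ℕ) (i : ℕ) : BN :=
  BN.sum ((tab.filter fun z => (z.1.all fun x => T.contains x) && decide (z.1.length = i)).map
    fun z => z.2)

/-- The coefficients `0, …, m` of the polynomial of `T`. -/
def yQ (Q : BN) (tab : List (List ℕ × BN)) (T : List ℕ) (m : ℕ) : List Qn :=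
  (List.range (m + 1)).map fun i => Qn.mul (Qn.ofBN (yv tab T i)) (Qn.inv (Qn.ofBN Q))

/-- The next logarithmic coefficient (number `t + 1`). -/
def nsx (y acc : List Qn) (t : ℕ) : Qn :=
  Qn.sub (Qn.mul (qNat (t + 1)) (y.getD (t + 1) Qn.zero))
    (Qn.sum ((List.range t).map fun k =>
      Qn.mul (y.getD (k + 1) Qn.zero) (acc.getD (t - 1 - k) Qn.zero)))

/-- The logarithmic coefficients `1, …, m`. -/
def nsQ (y : List Qn) (m : ℕ) : List Qn :=
  (List.range m).foldl (fun acc t => acc ++ [nsx y acc t]) []

/-! ### The weights -/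

/-- The coefficients `0, …, m` of the power `i` of the polynomial with the coefficients `fl`. -/
def pw (fl : List ℕ) (m i : ℕ) : List BN :=
  (List.range i).foldl (fun P _ => (List.range (m + 1)).map fun k =>
    BN.sum ((List.range (k + 1)).map fun j => BN.ofNat (fl.getD j 0) * P.getD (k - j) ⟨0⟩))
    ((List.range (m + 1)).map fun k => if k = 0 then ⟨1⟩ else ⟨0⟩)

/-- The weight of the logarithmic coefficient `i ≥ 1`. -/
def wt (fl : List ℕ) (D m i : ℕ) : Qn :=
  Qn.mul (Qn.ofBN (BN.sum (pw fl m i)))
    (Qn.inv (Qn.mul (qNat i) (Qn.ofBN (BN.prod (List.replicate i (BN.ofNat D))))))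

/-- All weights. -/
def wts (fl : List ℕ) (D m : ℕ) : List Qn := (List.range m).map fun i => wt fl D m (i + 1)

/-! ### The sum over all sets -/

/-- The sign. -/
def sgn (S T : List ℕ) : Qn := if (S.length - T.length) % 2 = 0 then Qn.one else Qn.neg Qn.one

/-- The weighted sum of the logarithmic coefficients of `T`. -/
def lval (Q : BN) (ws : List Qn) (m : ℕ) (tab : List (List ℕ × BN)) (T : List ℕ) : Qn :=
  Qn.sum ((List.range m).map fun i =>
    Qn.mul (ws.getD i Qn.zero) ((nsQ (yQ Q tab T m) m).getD i Qn.zero))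

/-- The terms of the set `S`. -/
def terms (E : List (ℕ × ℕ)) (n : ℕ) (Q : BN) (ws : List Qn) (m : ℕ) (S : List ℕ) : List Qn :=
  (subL S).map fun T => Qn.mul (sgn S T) (lval Q ws m (ctab E n Q S) T)

/-- The common denominator `(m (Δ + 1))!`. -/
def qm (Δ m : ℕ) : BN := BN.prod ((List.range (m * (Δ + 1))).map fun i => BN.ofNat (i + 1))

/-- The approximation of the logarithm. -/
def tot (Δ : ℕ) (fl : List ℕ) (D : ℕ) (E : List (ℕ × ℕ)) (n B m N : ℕ) : Qn :=
  Qn.sum ((setsL E n B m N).flatMap fun S => terms E n (qm Δ m) (wts fl D m) m (S.take m))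

/-- The truncated exponential series. -/
def expQ (K : ℕ) (T : Qn) : Qn :=
  Qn.sum ((List.range (K + 1)).map fun k =>
    Qn.prod ((List.range k).map fun i => Qn.mul T (invNat (i + 1))))

/-- The number of the logarithmic coefficients. -/
def mP (C n q : ℕ) : ℕ := C * (Nat.log 2 (n + q + 2) + 1)

/-- The algorithm. -/
def mainB (Δ : ℕ) (fl : List ℕ) (D B C c1 : ℕ) (z : Sys × ℕ) : RQ :=
  toRQ (Qn.mul (Qn.prod (List.replicate z.1.1 (invNat 2)))
    (expQ (8 * (z.1.1 + 1 + z.2)) (tot Δ fl D (edgesS z.1) z.1.1 B (mP C z.1.1 z.2)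
      ((z.1.1 + z.2 + 2) ^ c1))))

end Pool.Agent.Helper92.BO
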