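import Pool.Agent.Helper92.FR.Stmt

/-!
# Order polytopes of height two and stable set polytopes, of bounded degree: the statement

`RQ` (rational numbers in binary), `coef` and `vol` are in `Pool.Agent.Helper92.VP.Defs`; `Sys`,
`sol` (the polyhedron) in `Pool.Agent.Helper92.FR.Stmt`. In `encOf` natural numbers of the type `ℕ`
are coded in unary.
-/

namespace Pool.Agent.Helper92.BO

open Pool.Agent.Helper81.CC Pool.Agent.Bin Pool.Agent.Helper92.VP Pool.Agent.Helper92.FR

/-- The row `r` (of a system with `n` variables) says `x i ≥ 0`. -/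
def LowRow (n : ℕ) (r : List RQ × RQ) (i : ℕ) : Prop :=
  r.2.val = 0 ∧ ∀ k < n, coef r k = if k = i then 1 else 0

/-- The row `r` says `- x i ≥ - 1`. -/
def UpRow (n : ℕ) (r : List RQ × RQ) (i : ℕ) : Prop :=
  r.2.val = -1 ∧ ∀ k < n, coef r k = if k = i then -1 else 0

/-- The row `r` says `s i * x i + s j * x j ≥ (s i + s j) / 2`. For signs `s i = ± 1` this is one of
the inequalities `x i + x j ≤ 1`, `x i + x j ≥ 1`, `x i ≤ x j`, `x j ≤ x i`. -/
def PairRow (n : ℕ) (s : ℕ → ℝ) (r : List RQ × RQ) (i j : ℕ) : Prop :=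
  i ≠ j ∧ r.2.val = (s i + s j) / 2 ∧ ∀ k < n, coef r k = if k = i ∨ k = j then s k else 0

/-- The variables `i` and `j` occur in a common row. -/
def Joined (S : Sys) (s : ℕ → ℝ) (i j : ℕ) : Prop := ∃ r ∈ S.2, PairRow S.1 s r i j

/-- Each variable `i` has a sign `s i = ± 1`; the system `S` consists of rows `x i ≥ 0`, `x i ≤ 1` and
of rows with two variables `x i + x j ≤ 1` (if `s i = s j = -1`), `x i + x j ≥ 1` (if
`s i = s j = 1`), `x i ≤ x j` (if `s i = -1`, `s j = 1`); each variable occurs together with at most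
`Δ` others; the rows `x i ≥ 0` (`x i ≤ 1`) are given for all `i`, except perhaps for some `i` with
`s i = 1` (`s i = -1`) which occur together with another variable (then they follow). -/
def PairSys (Δ : ℕ) (S : Sys) : Prop :=
  ∃ s : ℕ → ℝ, (∀ i, s i = 1 ∨ s i = -1) ∧
  (∀ r ∈ S.2, (∃ i < S.1, LowRow S.1 r i) ∨ (∃ i < S.1, UpRow S.1 r i) ∨
    ∃ i < S.1, ∃ j < S.1, PairRow S.1 s r i j) ∧
  (∀ i < S.1, ((∃ r ∈ S.2, LowRow S.1 r i) ∨ (s i = 1 ∧ ∃ j < S.1, Joined S s i j)) ∧
    ((∃ r ∈ S.2, UpRow S.1 r i) ∨ (s i = -1 ∧ ∃ j < S.1, Joined S s i j))) ∧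
  ∀ i < S.1, {j | j < S.1 ∧ Joined S s i j}.ncard ≤ Δ

/-- A deterministic polynomial-time machine computes, for each system `S` and each `q ≥ 1` (in
unary), a rational number, which is the volume of the polytope up to a relative error of at most
`1 / q` if `PairSys Δ S`. -/
def PairApprox (Δ : ℕ) : Prop :=
  ∃ f : Sys × ℕ → RQ, PolyTimeComputable (encOf (Sys × ℕ)) (encOf RQ) f ∧
    ∀ (S : Sys) (q : ℕ), PairSys Δ S → 1 ≤ q → |(f (S, q)).val - vol (sol S)| ≤ vol (sol S) / q

end Pool.Agent.Helper92.BO
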