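import Pool.Agent.Helper92.BO.Alg
import Pool.Agent.Helper92.BO.StmtP

/-!
# Pair systems: the algorithm
-/

namespace Pool.Agent.Helper92.BO

open Pool.Agent.Helper81.CC Pool.Agent.Bin Pool.Agent.Helper92.VP Pool.Agent.Helper92.FR

/-- Is the rational number nonzero? -/
def nzB (x : RQ) : Bool := decide (x.2.1 ≠ ⟨0⟩) && decide (x.2.2 ≠ ⟨0⟩)

/-- The variables with a nonzero coefficient. -/
def nzs (n : ℕ) (r : List RQ × RQ) : List ℕ :=
  (List.range n).filter fun j => nzB (r.1.getD j (false, ⟨0⟩, ⟨1⟩))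

/-- The pairs of variables which occur together. -/
def edgesT (S : Sys) : List (ℕ × ℕ) :=
  (S.2.filter fun r => decide ((nzs S.1 r).length = 2)).map fun r =>
    ((nzs S.1 r).getD 0 0, (nzs S.1 r).getD 1 0)

/-- The algorithm. -/
def mainP (Δ : ℕ) (fl : List ℕ) (D B C c1 : ℕ) (z : Sys × ℕ) : RQ :=
  toRQ (Qn.mul (Qn.prod (List.replicate z.1.1 (invNat 2)))
    (expQ (8 * (z.1.1 + 1 + z.2)) (tot Δ fl D (edgesT z.1) z.1.1 B (mP C z.1.1 z.2)
      ((z.1.1 + z.2 + 2) ^ c1))))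

end Pool.Agent.Helper92.BO
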