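import Pool.Agent.Helper92.BO.GoalsC

/-!
# Stable set polytopes: goals, part D (interpolation)
-/

namespace Pool.Agent.Helper92.BO

open Finset

/-- The value of the polynomial with the list `fl` of coefficients. -/
noncomputable def evL (fl : List ℕ) (w : ℂ) : ℂ :=
  ∑ i ∈ range fl.length, ((fl.getD i 0 : ℕ) : ℂ) * w ^ i

/-- The polynomial with the list `fl` of coefficients. -/
noncomputable def polyL (fl : List ℕ) : Polynomial ℕ :=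
  ∑ i ∈ range fl.length, Polynomial.monomial i (fl.getD i 0)

/-- The sum of the coefficients `0, …, m` of the power `i`. -/
noncomputable def aL (fl : List ℕ) (m i : ℕ) : ℕ := ∑ k ∈ range (m + 1), (polyL fl ^ i).coeff k

/-- FPH. A polynomial with nonnegative rational coefficients which maps a disc of radius `β > 1` into
a small neighbourhood of `[0, 1]`, with `0 ↦ 0`, `1 ↦ 1` (Barvinok). Proof: let `A` be large,
`α < 1` rational with `- log (1 - α) ≥ A`, `1 < β < 2` such that `α β < 1` and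
`- log (1 - α β) ≤ - log (1 - α) + 1`. For `‖w‖ ≤ β` the number `1 - α w` has positive real part and
`1 - α β ≤ ‖1 - α w‖ ≤ 2`, so `h w = - log (1 - α w)` satisfies `- log 2 ≤ re (h w) ≤ h 1 + 1`,
`|im (h w)| ≤ π / 2`. The partial sums `h_N w = ∑ k in 1..N, (α w)^k / k` converge uniformly on
`‖w‖ ≤ β`; take `N` with `‖h_N w - h w‖ ≤ 1` there, and `φ w = h_N w / h_N 1`. As
`h_N 1 ≥ h 1 - 1 ≥ A - 1`: `re (φ w) ∈ [- 2 / (A - 1), 1 + 4 / (A - 1)]`,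
`|im (φ w)| ≤ 3 / (A - 1)`. The coefficients `α^k / (k h_N 1)` are nonnegative rational numbers with
the sum `1`; multiply by a common denominator `D`. -/
def FphStmt : Prop := ∀ δ > (0 : ℝ), ∃ (fl : List ℕ) (D : ℕ) (β : ℝ), 0 < D ∧ 1 < β ∧
  fl.getD 0 0 = 0 ∧ fl.sum = D ∧ ∀ w : ℂ, ‖w‖ ≤ β → ∃ t : ℝ, 0 ≤ t ∧ t ≤ 1 ∧
    ‖evL fl w / D - t‖ ≤ δ

/-- RTL. Proof: over `ℂ`, `q = ∏ over the roots r of q (counted with multiplicity) of (1 - X / r)`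
(`q.coeff 0 = 1`), all `‖r‖ > β`. The power series `q' / q = - ∑ r, ∑ k, X^k / r^(k+1)`; comparing
coefficients in `X ^ m ∣ q * H' - q'` (by induction, or by dividing power series; `q.coeff 0 = 1`):
`j H.coeff j = - ∑ r, r^(-j)` for `1 ≤ j ≤ m`. And
`q.eval 1 = ∏ (1 - 1/r) = exp (∑ r, log (1 - 1/r))`, `log (1 - 1/r) = - ∑ j ≥ 1, r^(-j) / j`; the
tails `∑ j > m, ‖r‖^(-j) / j` are at most `β^(-m-1) / (1 - 1/β) = β^(-m) / (β - 1)`. -/
def RtlStmt : Prop := ∀ (q H : Polynomial ℂ) (β : ℝ) (m : ℕ), 1 < β → q.coeff 0 = 1 →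
  (∀ w : ℂ, ‖w‖ ≤ β → q.eval w ≠ 0) → H.coeff 0 = 0 →
  (Polynomial.X ^ m ∣ q * H.derivative - q.derivative) →
  ∃ e : ℂ, q.eval 1 = Complex.exp (∑ j ∈ range (m + 1), H.coeff j + e) ∧
    ‖e‖ ≤ q.natDegree * ((1 / β) ^ m / (β - 1))

/-- ITP. The truncated logarithm after the substitution. Proof (may assume RTL): let
`p = ∑ i ≤ n, y i X^i` (in `ℂ[X]`), `φ = polyL fl / D` (in `ℂ[X]`, `φ 0 = 0`, `φ 1 = 1`),
`G = ∑ i in 1..m, s i / i X^i`. `IsNs y s` says that `X^m ∣ p * G' - p'` (the coefficient of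
`X^(j-1)`, `1 ≤ j ≤ m`, of `p * G'` is `∑ i ≤ j, y i s (j - i) = j y j`). Compose with `φ` (divisible
by `X`): `q = p.comp φ`, `H = G.comp φ` satisfy `X^m ∣ q * H' - q'`; `q` has no zeros in
`‖w‖ ≤ β`, `q.natDegree ≤ n * fl.length`, `q.eval 1 = ∑ y i`. RTL. Finally
`∑ j ≤ m, H.coeff j = ∑ i in 1..m, s i / i * ∑ j ≤ m, (φ ^ i).coeff j` is real, and
`(φ ^ i).coeff j = (polyL fl ^ i).coeff j / D^i`; take the logarithm of the absolute values. -/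
def ItpStmt : Prop := ∀ (fl : List ℕ) (D : ℕ) (β δ : ℝ), 0 < D → 1 < β → fl.getD 0 0 = 0 →
  fl.sum = D → (∀ w : ℂ, ‖w‖ ≤ β → ∃ t : ℝ, 0 ≤ t ∧ t ≤ 1 ∧ ‖evL fl w / D - t‖ ≤ δ) →
  ∀ (n m : ℕ) (y s : ℕ → ℝ), y 0 = 1 → (∀ i, n < i → y i = 0) → IsNs y s →
  (∀ (w : ℂ) (t : ℝ), 0 ≤ t → t ≤ 1 → ‖w - t‖ ≤ δ → ∑ i ∈ range (n + 1), (y i : ℂ) * w ^ i ≠ 0) →
  0 < ∑ i ∈ range (n + 1), y i →
    |Real.log (∑ i ∈ range (n + 1), y i) -
      ∑ i ∈ range m, s (i + 1) / (i + 1) * (aL fl m (i + 1) / (D : ℝ) ^ (i + 1))| ≤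
        n * fl.length * ((1 / β) ^ m / (β - 1))

/-- EXB. Proof: `exp T - ∑ k ≤ K, T^k / k! ` is at most `T^(K+1) / (K+1)! * exp T` in absolute value
if `T ≥ 0`, and at most `|T|^(K+1) / (K+1)!` if `T ≤ 0`. `(K+1)! ≥ ((K+1)/e)^(K+1)` and
`K + 1 ≥ 8 N ≥ 2 e |T|`, so the quotient is at most `2^(-(K+1)) ≤ 2^(- 8 q) ≤ 1 / (16 q)`;
for `-1 ≤ T ≤ 0` use `exp T ≥ 1 / 3` and `2^(-(K+1)) ≤ 1 / (24 q)`. -/
def ExbStmt : Prop := ∀ (T : ℝ) (N q K : ℕ), 1 ≤ N → 1 ≤ q → -1 ≤ T → T ≤ N → 8 * (N + q) ≤ K →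
  |∑ k ∈ range (K + 1), T ^ k / (k.factorial : ℝ) - Real.exp T| ≤ Real.exp T / (8 * q)

/-- FAP. Proof: `V = exp T * (1 + θ / (8 q))`, `|θ| ≤ 1`, `exp T = exp X * exp (T - X)`,
`|exp (T - X) - 1| ≤ 2 |T - X| ≤ 1 / (4 q)`; `(1 + 1/(4q)) (1 + 1/(8q)) - 1 ≤ 1 / q`. -/
def FapStmt : Prop := ∀ (T X V : ℝ) (q : ℕ), 1 ≤ q → |X - T| ≤ 1 / (8 * q) →
  |V - Real.exp T| ≤ Real.exp T / (8 * q) → |V - Real.exp X| ≤ Real.exp X / q

/-- WAL. Walks cover connected sets. Proof: by induction on `k ≤ S.card`, `k ≥ 1`, there is a closed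
walk of length `2 (k - 1)` at `v0` (any element of `S`), with steps along `R`, whose set of vertices
is a subset of `S` with exactly `k` elements: if the set is not yet `S`, some `u` in it is related to
some `w` in `S` outside; insert the detour `u → w → u`. Then stay at `v0` up to the length `2 m`
(`R` is reflexive). -/
def WalStmt : Prop := ∀ (R : ℕ → ℕ → Prop) (S : Finset ℕ) (m : ℕ), (∀ u, R u u) →
  (∀ u w, R u w → R w u) → Cnx R S → S.card ≤ m → ∃ f : ℕ → ℕ,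
    (∀ t < 2 * m, R (f t) (f (t + 1))) ∧ (range (2 * m + 1)).image f = S

end Pool.Agent.Helper92.BO
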