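import Pool.Agent.Helper92.BO.Alg
import Pool.Agent.Helper92.BO.GoalsD

/-!
# Stable set polytopes: goals, part E (the algorithm)
-/

namespace Pool.Agent.Helper92.BO

open Pool.Agent.Helper81.CC Pool.Agent.Bin Pool.Agent.Helper92.VP Pool.Agent.Helper92.FR

/-- EDG. Proof: `negB x = true` if and only if `x.val < 0`. So `negs S.1 r` is `[]` for a row
`x i ≥ 0`, `[i]` for a row `x i ≤ 1`, and the sorted list of `i`, `j` for a row `x i + x j ≤ 1`. Hence
`(gE (edgesS S)).Adj u w` if and only if `u, w < S.1`, `u ≠ w` and `Nbr S u w`. The sign is `1` if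
`side v = true` and `u`, and `-1` otherwise. The neighbour sets: `Set.encard` of a finite set.
`sol S = polyG …`: the rows `x i ≥ 0` for all `i`; `x i ≤ 1` is a row or follows from a row
`x i + x j ≤ 1` and `x j ≥ 0`; conversely all rows hold on `polyG`. -/
def EdgStmt : Prop := ∀ (Δ : ℕ) (S : Sys), BipStab Δ S →
  (∃ s : ℕ → ℝ, Sgn (gE (edgesS S)) s) ∧ DegLe (gE (edgesS S)) Δ ∧
  sol S = polyG (gE (edgesS S)) S.1

/-- RLB. Proof: `cnL` and `relB` translate `cn`; `relB E n u w` says that some `x < n` is in both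
closed neighbourhoods; at most `Δ + 1` values `x`, and each `x` is in the closed neighbourhoods of
`x` and its at most `Δ` neighbours: for given `u` the `w` are `u`, its at most `Δ` neighbours, and
at most `Δ (Δ - 1)` others. -/
def RlbStmt : Prop := ∀ (Δ n : ℕ) (E : List (ℕ × ℕ)), DegLe (gE E) Δ →
  (∀ I : List ℕ, (∀ i ∈ I, i < n) → (cnL E n I).toFinset = cn (gE E) n I.toFinset ∧
    (cnL E n I).Nodup ∧ (cnL E n I).length ≤ I.length * (Δ + 1)) ∧
  (∀ u w, u < n → w < n →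
    (relB E n u w = true ↔ ¬ Disjoint (cn (gE E) n {u}) (cn (gE E) n {w}))) ∧
  ∀ u < n, (nbR E n u).length ≤ Δ ^ 2 + 1

/-- SBL. Proof: induction on `S` from the right (`List.reverseRecOn`; `foldl_append`): `subL (S ++ [x])
= subL S ++ (subL S).map (· ++ [x])`. -/
def SblStmt : Prop := ∀ S : List ℕ, S.Nodup → (∀ T ∈ subL S, T.Sublist S) ∧
  (∀ T : List ℕ, T.Sublist S → T ∈ subL S) ∧ (subL S).Nodup ∧ (subL S).length = 2 ^ S.length ∧
  (∀ f : Finset ℕ → ℝ, ((subL S).map fun T => f T.toFinset).sum =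
    ∑ T ∈ S.toFinset.powerset, f T) ∧
  ∀ (l1 l2 : List (List ℕ)) (I : List ℕ), subL S = l1 ++ I :: l2 → ∀ i ∈ I,
    (I.filter fun j => decide (j ≠ i)) ∈ l1

/-- CTB. Proof (may assume SBL, PRC, PIN, RLB): the first components of the table are `subL S`, in this
order; by induction over the prefixes of `subL S` (SBL) each entry `c` of `I` satisfies
`c = Q * pG I.toFinset`: for an independent nonempty `I`, with `k = (cn I).card`, the sum of the
entries of `I.erase i` is `Q * k * pG I` (PRC) and `Q * pG I` is a natural number (PIN, since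
`k ! ∣ Q`), so the division is exact. -/
def CtbStmt : Prop := ∀ (Δ n : ℕ) (E : List (ℕ × ℕ)) (Q : BN) (S : List ℕ), DegLe (gE E) Δ →
  S.Nodup → (∀ i ∈ S, i < n) → (∀ I ⊆ S.toFinset, (cn (gE E) n I).card.factorial ∣ Q.val) →
  ∃ c : List ℕ → BN, ctab E n Q S = (subL S).map (fun I => (I, c I)) ∧
    ∀ I ∈ subL S, ((c I).val : ℝ) = Q.val * pG (gE E) n I.toFinset

/-- YVV. Proof (may assume SBL): the sublists `I` of `S` with all elements in `T` and length `i`
correspond to the subsets of `T.toFinset` with `i` elements (SBL, applied to the function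
`f J = p J` if `J ⊆ T.toFinset` and `J.card = i`, and `0` otherwise). -/
def YvvStmt : Prop := ∀ (S : List ℕ) (c : List ℕ → BN) (Q : ℝ) (p : Finset ℕ → ℝ), S.Nodup →
  (∀ I ∈ subL S, ((c I).val : ℝ) = Q * p I.toFinset) → ∀ T ∈ subL S, ∀ i : ℕ,
    ((yv ((subL S).map fun I => (I, c I)) T i).val : ℝ) = Q * yc p T.toFinset i

/-- NSV. Proof: induction: the list after `t` steps has the length `t` and the entry `i < t` has the
value `s (i + 1)`; `s (t+1) = (t+1) y (t+1) - ∑ k < t, y (k+1) s (t - k)` from `IsNs` (`y 0 = 1`,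
`s 0 = 0`). -/
def NsvStmt : Prop := ∀ (yl : List Qn) (y s : ℕ → ℝ) (m : ℕ), y 0 = 1 → IsNs y s →
  (∀ i ≤ m, (yl.getD i Qn.zero).val = y i) → (nsQ yl m).length = m ∧
    ∀ i < m, ((nsQ yl m).getD i Qn.zero).val = s (i + 1)

/-- WTV. Proof: by induction on `i` the entry `k ≤ m` of `pw fl m i` is `(polyL fl ^ i).coeff k`
(`Polynomial.coeff_mul`, `(polyL fl).coeff j = fl.getD j 0`). -/
def WtvStmt : Prop := ∀ (fl : List ℕ) (D m i : ℕ), 1 ≤ i → 0 < D →
  (wt fl D m i).val = (aL fl m i : ℝ) / ((i : ℝ) * (D : ℝ) ^ i)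

/-- WKV. Proof (may assume WAL): all `canon n vs` are sorted lists without duplicates of numbers
`< n`, so equal sets give equal lists. Let `S ⊆ range n` be connected for `relB E n`, with at most
`m` elements: WAL (for the relation `relB E n` on `{u | u < n}`, extended reflexively) gives a walk
`f` of length `2 m` in `S` (so all `f t < n`); let `d t < B` be the index of `f (t + 1)` in
`nbR E n (f t)` and `e = ∑ t < 2 m, d t * B ^ t < B ^ (2 m) ≤ N`; the walk with this code and the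
start `f 0` visits exactly the `f t`. -/
def WkvStmt : Prop := ∀ (E : List (ℕ × ℕ)) (n B m N : ℕ), 1 ≤ B →
  (∀ u < n, (nbR E n u).length ≤ B) → B ^ (2 * m) ≤ N →
  (∀ S ∈ setsL E n B m N, S.Nodup ∧ (∀ i ∈ S, i < n) ∧ S.length ≤ m) ∧
  ((setsL E n B m N).map List.toFinset).Nodup ∧
  ∀ S : Finset ℕ, S ⊆ Finset.range n → S.card ≤ m →
    Cnx (fun u w => relB E n u w = true) S → ∃ S' ∈ setsL E n B m N, S'.toFinset = S

/-- QMD. Proof: `(qm Δ m).val = (m (Δ + 1))!`. -/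
def QmdStmt : Prop := ∀ (Δ m : ℕ), (qm Δ m).val = (m * (Δ + 1)).factorial

/-- TOT. The approximation of the logarithm. Proof (may assume CTB, YVV, NSV, WTV, WKV, QMD, SBL,
RLB, MOB, PML, PRC, NSE): let `p = pG (gE E) n`, `s T` with `IsNs (yc p T) (s T)` for all `T`, where
`s (Finset.range n) = s0` (NSE). For `S` in `setsL` (so `S.take m = S`) and `T ∈ subL S`: `lval` has the value
`∑ i < m, s T (i + 1) * w i`, `w i = aL fl m (i + 1) / ((i + 1) D^(i + 1))` (CTB with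
`Q = (m (Δ + 1))!`: `(cn I).card ≤ I.card (Δ + 1) ≤ m (Δ + 1)`; YVV; NSV; WTV), so by SBL the terms
of `S` sum up to `∑ i < m, w i ∑ T ⊆ S, (-1)^(S.card - T.card) s T (i + 1)`. Sum over `setsL` (as a
Finset of Finsets, WKV), and MOB with `V = range n`, `R u w = (relB E n u w = true)`: if no `u ∈ I`
is related to a `w ∈ J` then `cn I` and `cn J` are disjoint (RLB), so PML applies. -/
def TotStmt : Prop := ∀ (Δ : ℕ) (fl : List ℕ) (D : ℕ) (E : List (ℕ × ℕ)) (n B m N : ℕ)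
  (s0 : ℕ → ℝ), 0 < D → DegLe (gE E) Δ → Δ ^ 2 + 1 ≤ B → B ^ (2 * m) ≤ N →
  IsNs (yc (pG (gE E) n) (Finset.range n)) s0 →
  (tot Δ fl D E n B m N).val =
    ∑ i ∈ Finset.range m, s0 (i + 1) / (i + 1) * (aL fl m (i + 1) / (D : ℝ) ^ (i + 1))

/-- EXV. Proof: `∏ i < k, T / (i + 1) = T^k / k!`. -/
def ExvStmt : Prop := ∀ (K : ℕ) (T : Qn),
  (expQ K T).val = ∑ k ∈ Finset.range (K + 1), T.val ^ k / (k.factorial : ℝ)

/-- PMT. The parameters. Proof: `x = n + q + 2 ≥ 2` (`≥ 3` if `q ≥ 1`), `j = log₂ x + 1`, `x < 2^j ≤ 2 x`. First choose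
`κ` with `3^(κ - 2) ≥ 8 (A + 1) / (β - 1)`, then `C` with `β^C ≥ 2^κ`, so `β^m = (β^C)^j ≥ x^κ ≥
x^2 * 8 (A + 1) / (β - 1)`, and `n q ≤ x^2`. Then `c0` with `B^(2 C) ≤ 2^c0`, `2^C ≤ 2^c0`,
`c1 = 2 c0`: `B^(2 m) = (B^(2 C))^j ≤ (2^j)^c0 ≤ (2 x)^c0 ≤ x^c1`. -/
def PmtStmt : Prop := ∀ (β : ℝ) (A B : ℕ), 1 < β → 1 ≤ B → ∃ C c1 : ℕ, ∀ n q : ℕ,
  B ^ (2 * mP C n q) ≤ (n + q + 2) ^ c1 ∧ 2 ^ mP C n q ≤ (n + q + 2) ^ c1 ∧
  (1 ≤ q → n * A * ((1 / β) ^ mP C n q / (β - 1)) ≤ 1 / (8 * q))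

end Pool.Agent.Helper92.BO
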