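import Pool.Agent.Helper92.BO.Alg

/-!
# Stable set polytopes: goals, part F (polynomial time)

Tools: `Pool/Agent/Helper81/Comp*.lean` (`PolyTime.list_map`, `PolyTime.flatMap`,
`PolyTime.foldl_bd`, `PolyTime.find?`, `PolyTime.any`, `PolyTime.pow`, …),
`Pool/Agent/Helper59/Bin.lean` (binary numbers), `Pool.Agent.Helper92.FR.Num` (all operations of `Qn`
are `fun_prop` lemmas; `Qn.sum`, `Qn.prod` also), `Pool/Agent/Helper38/FR/PTF.lean` (`invNat`,
`qNat`, as `fun_prop` lemmas), `Pool/Agent/Helper62/FR/PTN.lean` (`toRQ`), `Pool.Agent.Helper3.DT`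
(`pt_log`). A composition of `PolyTime` functions is `PolyTime`, whatever the sizes; bounds are only
needed for `foldl`.
-/

namespace Pool.Agent.Helper92.BO

open Pool.Agent.Helper81.CC Pool.Agent.Bin Pool.Agent.Helper92.VP Pool.Agent.Helper92.FR

/-- PTG. Proof: compositions. -/
def PtgStmt : Prop := PolyTime edgesS ∧ ∀ (α : Type) [ToData α] (E : α → List (ℕ × ℕ))
  (n u w : α → ℕ) (I : α → List ℕ), PolyTime E → PolyTime n → PolyTime u → PolyTime w →
  PolyTime I → PolyTime (fun a => adjB (E a) (u a) (w a)) ∧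
  PolyTime (fun a => cnL (E a) (n a) (I a)) ∧ PolyTime (fun a => relB (E a) (n a) (u a) (w a)) ∧
  PolyTime (fun a => nbR (E a) (n a) (u a)) ∧ PolyTime (fun a => hasE (E a) (I a))

/-- PTK. The walks. Proof (may assume PTG): `foldl_bd`: after `k` steps the code is at most `e`, the
list has `k + 1` entries, each at most `n + v`. -/
def PtkStmt : Prop := ∀ (α : Type) [ToData α] (E : α → List (ℕ × ℕ)) (n B T e v : α → ℕ),
  PolyTime E → PolyTime n → PolyTime B → PolyTime T → PolyTime e → PolyTime v →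
  PolyTime (fun a => wlk (E a) (n a) (B a) (T a) (e a) (v a))

/-- PTD. Proof (may assume PTK): `dedupL`: `foldl_bd`, the state consists of different members of the
list in the same order (size at most that of the list); the rest is a composition. -/
def PtdStmt : Prop := ∀ (α : Type) [ToData α] (E : α → List (ℕ × ℕ)) (n B m N : α → ℕ),
  PolyTime E → PolyTime n → PolyTime B → PolyTime m → PolyTime N →
  PolyTime (fun a => setsL (E a) (n a) (B a) (m a) (N a))

/-- PTL. The sublists. Proof: `foldl_bd`: after `k ≤ m` steps there are `2 ^ k ≤ N` lists, each of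
length at most `k` with entries from `S`. -/
def PtlStmt : Prop := ∀ (α : Type) [ToData α] (S : α → List ℕ) (m N : α → ℕ), PolyTime S →
  PolyTime m → PolyTime N → (∀ a, (S a).length ≤ m a) → (∀ a, 2 ^ m a ≤ N a) →
  PolyTime (fun a => subL (S a))

/-- PTC. The table. Proof (may assume PTG, PTL): `foldl_bd` over `subL (S a)`: the state after the
prefix `l'` consists of the pairs `(I, c)`, `I ∈ l'`, and `c ≤ Q * (m + 1) ^ I.length` (induction
over the prefix: the sum has at most `I.length ≤ m` terms, each the entry of a shorter list, or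
`0`). -/
def PtcStmt : Prop := ∀ (α : Type) [ToData α] (E : α → List (ℕ × ℕ)) (n m N : α → ℕ) (Q : α → BN)
  (S : α → List ℕ), PolyTime E → PolyTime n → PolyTime m → PolyTime N → PolyTime Q →
  PolyTime S → (∀ a, (S a).length ≤ m a) → (∀ a, 2 ^ m a ≤ N a) →
  PolyTime (fun a => ctab (E a) (n a) (Q a) (S a))

/-- PTN. The logarithmic coefficients. Proof: `foldl_bd` over `List.range (m a)`: let
`Y = sz (y a) + 1`, so `Qn.mu (y.getD i Qn.zero) ≤ 2 ^ Y` and put `A = (m + 1) * (Y + 1)`; by
`mu_sub`, `mu_mul`, `mu_foldl`-type bounds the entry number `t` has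
`Qn.mu ≤ 2 ^ (A * 2 ^ t) ≤ 2 ^ (A * N)`, because
`mu (nsx y acc t) ≤ (t + 2) * 2 ^ Y * ∏ k < t, (2 ^ Y * mu (acc (t - 1 - k)))` and
`A + ∑ j < t, A * 2 ^ j = A * 2 ^ t`. -/
def PtnStmt : Prop := ∀ (α : Type) [ToData α] (y : α → List Qn) (m N : α → ℕ), PolyTime y →
  PolyTime m → PolyTime N → (∀ a, 2 ^ m a ≤ N a) → PolyTime (fun a => nsQ (y a) (m a))

/-- PTP. The weights, for fixed `fl`, `D`. Proof: `foldl_bd` for `pw`: after `k` steps there are
`m + 1` entries with the sum at most `fl.sum ^ k` (`(∑ fl) * (∑ P)` bounds the sum of the new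
entries); the rest is a composition. -/
def PtpStmt : Prop := ∀ (fl : List ℕ) (D : ℕ) (α : Type) [ToData α] (m : α → ℕ), PolyTime m →
  PolyTime (fun a => wts fl D (m a))

/-- PTT. The terms. Proof (may assume PTC, PTL, PTN): compositions. -/
def PttStmt : Prop := ∀ (α : Type) [ToData α] (E : α → List (ℕ × ℕ)) (n m N : α → ℕ) (Q : α → BN)
  (ws : α → List Qn) (S : α → List ℕ), PolyTime E → PolyTime n → PolyTime m → PolyTime N →
  PolyTime Q → PolyTime ws → PolyTime S → (∀ a, (S a).length ≤ m a) → (∀ a, 2 ^ m a ≤ N a) →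
  PolyTime (fun a => terms (E a) (n a) (Q a) (ws a) (m a) (S a))

/-- PTM. The algorithm. Proof (may assume PTG, PTD, PTP, PTT): compositions; `mP` by `pt_log`;
`(S.take m).length ≤ m`. -/
def PtmStmt : Prop := ∀ (Δ : ℕ) (fl : List ℕ) (D B C c1 : ℕ),
  (∀ n q : ℕ, 2 ^ mP C n q ≤ (n + q + 2) ^ c1) → PolyTime (mainB Δ fl D B C c1)

end Pool.Agent.Helper92.BO
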