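import Pool.Agent.Helper92.BO.Real

/-!
# Stable set polytopes: goals, part C (the integral as a polynomial)
-/

namespace Pool.Agent.Helper92.BO

open MeasureTheory Finset

/-- The stable set polytope (for bipartite graphs). -/
def polyG (G : SimpleGraph ℕ) (n : ℕ) : Set (Fin n → ℝ) :=
  {x | (∀ i, 0 ≤ x i ∧ x i ≤ 1) ∧ ∀ i j : Fin n, G.Adj i j → x i + x j ≤ 1}

open Classical in
/-- INT. Proof: induction on `L`, for all `b`. `(v :: L)`: the measure on `Fin (k + 1) → ℝ` is the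
product of that on `ℝ` (coordinate `0`) and that on `Fin k → ℝ`
(`MeasureTheory.volume_preserving_piFinSuccAbove`); the integrand at `Fin.cons x0 x` is
`psi z x0` times the integrand of `L` with the bounds `cut G v (1 - x0) b` at `x` if `0 < x0 ≤ b v`,
and `0` otherwise. All functions are bounded with bounded support. -/
def IntStmt : Prop := ∀ (G : SimpleGraph ℕ) (z : ℂ) (L : List ℕ) (b : ℕ → ℝ), In01 L b →
  ZC G z L b = ∫ x : Fin L.length → ℝ,
    if (∀ i, 0 < x i ∧ x i ≤ b (L.get i)) ∧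
      (∀ i j, G.Adj (L.get i) (L.get j) → x i + x j ≤ 1) then ∏ i, psi z (x i) else 0

/-- VLG. The volume. Proof (may assume INT): `z = 1`, `L = List.range n`, all bounds `1`; hyperplanes
`x i = 0` are null sets. -/
def VlgStmt : Prop := ∀ (G : SimpleGraph ℕ) (n : ℕ),
  ZC G 1 (List.range n) (fun _ => 1) = (((volume (polyG G n)).toReal : ℝ) : ℂ)

/-- The part of the polytope where exactly the coordinates in `I` are larger than `1/2`. -/
def BI (G : SimpleGraph ℕ) (n : ℕ) (I : Finset (Fin n)) : Set (Fin n → ℝ) :=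
  {x | (∀ i, 0 < x i ∧ x i ≤ 1) ∧ (∀ i j : Fin n, G.Adj i j → x i + x j ≤ 1) ∧
    ∀ i, 1 / 2 < x i ↔ i ∈ I}

/-- SPL. Proof (may assume INT): on `BI G n I` the product of the weights is `z ^ I.card`. -/
def SplStmt : Prop := ∀ (G : SimpleGraph ℕ) (n : ℕ) (z : ℂ),
  ZC G z (List.range n) (fun _ => 1) =
    ∑ I : Finset (Fin n), z ^ I.card * (((volume (BI G n I)).toReal : ℝ) : ℂ)

/-- The points `U` of the cube such that `U i` is the maximum over the neighbours of `i` and `i`, for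
all `i ∈ I`. -/
def EI (G : SimpleGraph ℕ) (n : ℕ) (I : Finset (Fin n)) : Set (Fin n → ℝ) :=
  {U | (∀ i, 0 ≤ U i ∧ U i ≤ 1) ∧ ∀ i ∈ I, ∀ j : Fin n, G.Adj i j → U j ≤ U i}

/-- Its volume. -/
noncomputable def PV (G : SimpleGraph ℕ) (n : ℕ) (I : Finset (Fin n)) : ℝ :=
  (volume (EI G n I)).toReal

/-- AFF. Proof: if `i`, `j ∈ I` are adjacent then `BI = ∅` and `EI` is contained in the hyperplane
`U i = U j`. Otherwise the affine map `x i = 1 - U i / 2` (`i ∈ I`), `x j = U j / 2` (`j ∉ I`), with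
the determinant `± 2^(-n)`, maps `EI` onto `BI` up to null sets (hyperplanes): the constraint for an
edge `i j` with `i ∈ I`, `j ∉ I` says `U j ≤ U i`, and that for an edge outside `I` is satisfied. -/
def AffStmt : Prop := ∀ (G : SimpleGraph ℕ) (n : ℕ) (I : Finset (Fin n)),
  (volume (BI G n I)).toReal = (1 / 2) ^ n * PV G n I

/-- SCL. Scaling some coordinates. Proof: for `0 < u ≤ 1` the set on the left is the image of
`S ∩ cube` under the linear map which multiplies the coordinates in `K` by `u`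
(determinant `u ^ K.card`; `Real.map_linearMap_volume_pi_eq_smul_volume_pi`,
`MeasureTheory.Measure.addHaar_image_linearMap`). -/
def SclStmt : Prop := ∀ (n : ℕ) (S : Set (Fin n → ℝ)) (K : Finset (Fin n)), MeasurableSet S →
  (∀ (U : Fin n → ℝ) (c : ℝ), 0 < c → (U ∈ S ↔ (fun j => if j ∈ K then c * U j else U j) ∈ S)) →
  ∀ u : ℝ, 0 < u → u ≤ 1 →
    (volume (S ∩ {U | (∀ i, 0 ≤ U i ∧ U i ≤ 1) ∧ ∀ j ∈ K, U j ≤ u})).toReal =
      u ^ K.card * (volume (S ∩ {U | ∀ i, 0 ≤ U i ∧ U i ≤ 1})).toReal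

/-- SMX. Proof (may assume SCL): Fubini for the coordinate `i` (`volume_preserving_piFinSuccAbove`);
by SCL in dimension `n` the section at `U i = u` has the volume `u ^ K.card` times that of
`S ∩ cube`, and `∫ u in 0..1, u ^ K.card = 1 / (K.card + 1)`. -/
def SmxStmt : Prop := ∀ (n : ℕ) (S : Set (Fin (n + 1) → ℝ)) (K : Finset (Fin (n + 1)))
  (i : Fin (n + 1)), i ∉ K → MeasurableSet S →
  (∀ (U : Fin (n + 1) → ℝ) (x : ℝ), U ∈ S ↔ Function.update U i x ∈ S) →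
  (∀ (U : Fin (n + 1) → ℝ) (c : ℝ), 0 < c →
    (U ∈ S ↔ (fun j => if j ∈ K then c * U j else U j) ∈ S)) →
    (volume (S ∩ {U | (∀ i, 0 ≤ U i ∧ U i ≤ 1) ∧ ∀ j ∈ K, U j ≤ U i})).toReal * (K.card + 1) =
      (volume (S ∩ {U | ∀ i, 0 ≤ U i ∧ U i ≤ 1})).toReal

open Classical in
/-- The closed neighbourhood of `I` in `Fin n`. -/
noncomputable def cnF (G : SimpleGraph ℕ) (n : ℕ) (I : Finset (Fin n)) : Finset (Fin n) :=
  univ.filter fun w => w ∈ I ∨ ∃ v ∈ I, G.Adj v w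

/-- PVR. Proof (may assume SMX): for `i ∈ I` put `K = cnF I \ {i}`,
`S_i = {U : ∀ i' ∈ I \ {i}, ∀ j ~ i', U j ≤ U i'}`. All coordinates which occur in `S_i` are in `K`
(`I` is independent), so SMX gives `vol (EI (I \ {i}) ∩ {U_K ≤ U_i}) = PV (I \ {i}) / (cnF I).card`.
Now `EI I` is the union over `i ∈ I` of the sets `EI (I \ {i}) ∩ {U_K ≤ U_i}`: the maximum of `U`
over `cnF I` is attained at some `i ∈ I`; conversely `U_K ≤ U_i` contains the constraints of `i`.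
Two of these sets meet in a subset of the null set `U i = U i'`. -/
def PvrStmt : Prop := ∀ (G : SimpleGraph ℕ) (n : ℕ) (I : Finset (Fin n)), I.Nonempty →
  (∀ i ∈ I, ∀ j ∈ I, ¬ G.Adj i j) →
    ((cnF G n I).card : ℝ) * PV G n I = ∑ i ∈ I, PV G n (I.erase i)

/-- PVZ. Proof: the cube has the volume `1`; the hyperplane `U i = U j` is a null set. -/
def PvzStmt : Prop := ∀ (G : SimpleGraph ℕ) (n : ℕ), PV G n ∅ = 1 ∧
  (∀ I : Finset (Fin n), 0 ≤ PV G n I ∧ PV G n I ≤ 1) ∧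
  ∀ (I : Finset (Fin n)) (i j : Fin n), i ∈ I → j ∈ I → G.Adj i j → PV G n I = 0

/-! ### Sets of natural numbers -/

open Classical in
/-- The coefficients, for sets of natural numbers. -/
noncomputable def pG (G : SimpleGraph ℕ) (n : ℕ) (I : Finset ℕ) : ℝ :=
  PV G n (univ.filter fun i : Fin n => (i : ℕ) ∈ I)

open Classical in
/-- The closed neighbourhood of `I` in `range n`. -/
noncomputable def cn (G : SimpleGraph ℕ) (n : ℕ) (I : Finset ℕ) : Finset ℕ :=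
  (range n).filter fun w => w ∈ I ∨ ∃ v ∈ I, G.Adj v w

/-- PRC. Proof (may assume PVR, PVZ): translation. -/
def PrcStmt : Prop := ∀ (G : SimpleGraph ℕ) (n : ℕ), pG G n ∅ = 1 ∧
  (∀ I : Finset ℕ, 0 ≤ pG G n I ∧ pG G n I ≤ 1) ∧
  (∀ I : Finset ℕ, I ⊆ range n → (∃ i ∈ I, ∃ j ∈ I, G.Adj i j) → pG G n I = 0) ∧
  ∀ I : Finset ℕ, I ⊆ range n → I.Nonempty → (∀ i ∈ I, ∀ j ∈ I, ¬ G.Adj i j) →
    ((cn G n I).card : ℝ) * pG G n I = ∑ i ∈ I, pG G n (I.erase i)

/-- PIN. Proof (may assume PRC): induction on `I.card`. If `I` is independent and nonempty and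
`k = (cn G n I).card` then `k ! * pG I = ∑ i ∈ I, (k - 1) ! * pG (I.erase i)` and
`cn (I.erase i) ⊆ (cn I).erase i` has at most `k - 1` elements. -/
def PinStmt : Prop := ∀ (G : SimpleGraph ℕ) (n : ℕ) (I : Finset ℕ) (k : ℕ), I ⊆ range n →
  (cn G n I).card ≤ k → ∃ c : ℕ, (k.factorial : ℝ) * pG G n I = c

/-- PML. Proof (may assume PRC): if `I` or `J` contains an edge both sides are `0`. Otherwise
`I ∪ J` is independent (an edge between `i ∈ I` and `j ∈ J` would give `j ∈ cn I ∩ cn J`);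
induction on `I.card + J.card`: `(cn (I ∪ J)).card = (cn I).card + (cn J).card`, so
`((cn I).card + (cn J).card) pG (I ∪ J) = ∑ i ∈ I, pG (I.erase i ∪ J) + ∑ j ∈ J, pG (I ∪ J.erase j)
= (cn I).card pG I pG J + (cn J).card pG I pG J`. -/
def PmlStmt : Prop := ∀ (G : SimpleGraph ℕ) (n : ℕ) (I J : Finset ℕ), I ⊆ range n →
  J ⊆ range n → Disjoint (cn G n I) (cn G n J) → pG G n (I ∪ J) = pG G n I * pG G n J

/-- POL. Proof (may assume SPL, AFF): `I ↦ univ.filter (· ∈ I)` is a bijection from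
`(range n).powerset` onto `Finset (Fin n)` and keeps the number of the elements. -/
def PolStmt : Prop := ∀ (G : SimpleGraph ℕ) (n : ℕ) (z : ℂ),
  (2 : ℂ) ^ n * ZC G z (List.range n) (fun _ => 1) =
    ∑ I ∈ (range n).powerset, z ^ I.card * ((pG G n I : ℝ) : ℂ)

/-! ### Logarithmic coefficients -/

/-- The coefficient `i` of the polynomial of the set `T`. -/
noncomputable def yc (p : Finset ℕ → ℝ) (T : Finset ℕ) (i : ℕ) : ℝ :=
  ∑ I ∈ T.powersetCard i, p I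

/-- `s` is the sequence of the coefficients of `X Y' / Y`, where `Y = ∑ y i X ^ i`. -/
def IsNs (y s : ℕ → ℝ) : Prop :=
  s 0 = 0 ∧ ∀ j : ℕ, (j : ℝ) * y j = ∑ i ∈ range (j + 1), y i * s (j - i)

/-- NSE. Proof: `y 0 = 1`: recursion (`s j = j y j - ∑ i ∈ range (j+1) \ {0}, y i s (j - i)`, where
`i = j` gives `0`); existence by strong recursion, uniqueness by strong induction (equality up to
`m` only needs the `y j` with `j ≤ m`). -/
def NseStmt : Prop := (∀ y : ℕ → ℝ, y 0 = 1 → ∃ s, IsNs y s) ∧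
  ∀ (y y' s s' : ℕ → ℝ) (m : ℕ), y 0 = 1 → (∀ j ≤ m, y j = y' j) → s 0 = 0 → s' 0 = 0 →
    (∀ j ≤ m, (j : ℝ) * y j = ∑ i ∈ range (j + 1), y i * s (j - i)) →
    (∀ j ≤ m, (j : ℝ) * y' j = ∑ i ∈ range (j + 1), y' i * s' (j - i)) → ∀ j ≤ m, s j = s' j

/-- MDG. The coefficient `j` has degree at most `j`. Proof: say that `f : Finset ℕ → ℝ` has degree
`≤ j` if `f T = ∑ I ∈ T.powerset with I.card ≤ j, a I` for some `a`. Sums are clear; the product of
functions of degrees `≤ i`, `≤ k` has degree `≤ i + k` (`c K = ∑ over pairs (I, J) with I ∪ J = K of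
a I * b J`). `T ↦ yc p T i` has degree `≤ i`. By strong induction `T ↦ s T j` has degree `≤ j`. And
`∑ T ∈ S.powerset, (-1)^(S.card - T.card) * (∑ I ∈ T.powerset, a I) = a S` (Möbius inversion), which
is `0` if `S.card > j`. -/
def MdgStmt : Prop := ∀ (p : Finset ℕ → ℝ) (s : Finset ℕ → ℕ → ℝ), p ∅ = 1 →
  (∀ T, IsNs (yc p T) (s T)) → ∀ (j : ℕ) (S : Finset ℕ), j < S.card →
    ∑ T ∈ S.powerset, (-1 : ℝ) ^ (S.card - T.card) * s T j = 0

/-- MSP. Separated parts. Proof: for `T ⊆ S1 ∪ S2` and `T1 = T ∩ S1`, `T2 = T ∩ S2`: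
`yc p T i = ∑ k ≤ i, yc p T1 k * yc p T2 (i - k)` (generating polynomials multiply), so `s T = s T1 +
s T2` (`X Y' / Y` is additive; uniqueness NSE). And the sum over `T` of
`(-1)^(S.card - T.card) * s (T ∩ S1) j` is `0` since `S2` is not empty. -/
def MspStmt : Prop := ∀ (p : Finset ℕ → ℝ) (s : Finset ℕ → ℕ → ℝ) (S1 S2 : Finset ℕ), p ∅ = 1 →
  (∀ T, IsNs (yc p T) (s T)) → Disjoint S1 S2 → S1.Nonempty → S2.Nonempty →
  (∀ I J, I ⊆ S1 → J ⊆ S2 → p (I ∪ J) = p I * p J) → ∀ j : ℕ,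
    ∑ T ∈ (S1 ∪ S2).powerset, (-1 : ℝ) ^ ((S1 ∪ S2).card - T.card) * s T j = 0

/-- `S` is nonempty and connected for the relation `R`. -/
def Cnx (R : ℕ → ℕ → Prop) (S : Finset ℕ) : Prop :=
  S.Nonempty ∧ ∀ S1 ⊆ S, S1.Nonempty → S1 ≠ S → ∃ u ∈ S1, ∃ w ∈ S \ S1, R u w

/-- MOB. Proof (may assume MDG, MSP): Möbius inversion `s V j = ∑ S ∈ V.powerset, φ S`,
`φ S = ∑ T ∈ S.powerset, (-1)^(S.card - T.card) * s T j`. `φ ∅ = s ∅ j = 0` (`yc p ∅` is
`1, 0, 0, …`); `φ S = 0` if `S.card > m ≥ j` (MDG), or if `S` is not connected (MSP). -/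
def MobStmt : Prop := ∀ (p : Finset ℕ → ℝ) (s : Finset ℕ → ℕ → ℝ) (R : ℕ → ℕ → Prop)
  (V : Finset ℕ) (F : Finset (Finset ℕ)) (m j : ℕ), p ∅ = 1 → (∀ T, IsNs (yc p T) (s T)) →
  (∀ I J, I ⊆ V → J ⊆ V → Disjoint I J → (∀ u ∈ I, ∀ w ∈ J, ¬ R u w) →
    p (I ∪ J) = p I * p J) →
  F ⊆ V.powerset → (∀ S ⊆ V, S.card ≤ m → Cnx R S → S ∈ F) → j ≤ m →
    s V j = ∑ S ∈ F, ∑ T ∈ S.powerset, (-1 : ℝ) ^ (S.card - T.card) * s T j

end Pool.Agent.Helper92.BO
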