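import Pool.Agent.Helper92.BO.AlgP
import Pool.Agent.Helper92.BO.GoalsC

/-!
# Pair systems: goals
-/

namespace Pool.Agent.Helper92.BO

open Pool.Agent.Helper81.CC Pool.Agent.Bin Pool.Agent.Helper92.VP Pool.Agent.Helper92.FR

/-- EDJ. Proof (similar to EDG, `Pool/Agent/Helper85/BO/EDG.lean`): `nzB x = true` if and only if
`x.val ≠ 0`. So `nzs S.1 r` has the length `1` for the rows `x i ≥ 0`, `x i ≤ 1`, and is the sorted list
of `i`, `j` for `PairRow S.1 s r i j`. Hence `(gE (edgesT S)).Adj u w` if and only if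
`u, w < S.1`, `u ≠ w` and `Joined S s u w`. The map `y i = x i` (if `s i = -1`), `y i = 1 - x i` (if
`s i = 1`) preserves the Lebesgue measure (`MeasureTheory.volume_preserving_pi`, reflections), and
maps `sol S` onto `polyG …`: `s i x i = - y i + (s i + 1) / 2`, so the row of a pair says
`y i + y j ≤ 1`. A missing row `x i ≥ 0` (`s i = 1`) follows: from `x i + x j ≥ 1` and `x j ≤ 1`
(`s j = 1`, so the row `x j ≤ 1` is given), or from `x i ≥ x j` and `x j ≥ 0` (`s j = -1`); similarly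
for a missing row `x i ≤ 1`. -/
def EdjStmt : Prop := ∀ (Δ : ℕ) (S : Sys), PairSys Δ S → DegLe (gE (edgesT S)) Δ ∧
  vol (sol S) = (MeasureTheory.volume (polyG (gE (edgesT S)) S.1)).toReal

/-- PTU. Proof: compositions (as for `edgesS`, `Pool/Agent/Helper31/BO/PTG.lean`). -/
def PtuStmt : Prop := PolyTime edgesT

/-- PTZ. Proof: as for PTM, `Pool/Agent/Helper59/BO/PTM.lean` (`mainP` is `mainB` with `edgesT` in
place of `edgesS`); may assume PTU, and PTG, PTD, PTP, PTT of `Pool.Agent.Helper92.BO.GoalsF`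
(import it). -/
def PtzStmt : Prop := ∀ (Δ : ℕ) (fl : List ℕ) (D B C c1 : ℕ),
  (∀ n q : ℕ, 2 ^ mP C n q ≤ (n + q + 2) ^ c1) → PolyTime (mainP Δ fl D B C c1)

end Pool.Agent.Helper92.BO
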