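import Pool.Agent.Helper92.BO.GoalsG
import Pool.Agent.Helper8.BO.STR

/-!
# Bounds for the weighted logarithmic derivatives
-/

namespace Pool.Agent.Helper92.BO

open MeasureTheory Filter Topology Function

theorem phb (hcnt : CntStmt) (hpos : PosStmt) (hmon : MonStmt) (hprm : PrmStmt) : PhbStmt := by
  intro G l L u b hl hl1 hnd hu hb
  have hbu := hb u hu
  have hb01 : In01 L b := fun w hw => ⟨(hb w hw).1.le, (hb w hw).2⟩
  have hb01' : In01 (L.erase u) b := fun w hw => hb01 w (List.mem_of_mem_erase hw)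
  have hc : ∀ x : ℝ, 0 ≤ x → x ≤ 1 → In01 (L.erase u) (cut G u (1 - x) b) :=
    fun x h0 h1 => Pool.Agent.Helper8.BO.cut_in01 G _ u b hb01' x h0 h1
  have hz := (hpos G l (L.erase u) (cut G u (1 - b u) b) hl hl1).1 (hc _ hbu.1.le hbu.2)
  have hp0 : 0 ≤ psiR l (b u) := Pool.Agent.Helper8.BO.psiR_nonneg hl _
  have hp1 : psiR l (b u) ≤ 1 := by
    unfold psiR
    split_ifs
    · exact le_rfl
    · exact hl1
  have hd0 : 0 ≤ Zd G l L u b := mul_nonneg hp0 hz.1
  have hd1 : Zd G l L u b ≤ 1 := by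
    unfold Zd
    calc _ ≤ 1 * 1 := mul_le_mul hp1 hz.2 hz.1 zero_le_one
      _ = 1 := one_mul 1
  have hZ : 0 < ZR G l L b := (hpos G l L b hl hl1).2 hb
  have hperm : L.Perm (u :: L.erase u) := List.perm_cons_erase hu
  have e1 : ZR G l L b = ∫ x in (0 : ℝ)..(b u), psiR l x *
      ZR G l (L.erase u) (cut G u (1 - x) b) := (hprm G 0 l L _ b hperm hb01).2
  have hii := (hcnt G 0 l (L.erase u) u b hb01').2.2.2
  have hii' : IntervalIntegrable (fun x => psiR l x * ZR G l (L.erase u) (cut G u (1 - x) b))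
      volume 0 (b u) := hii.mono_set (by
    rw [Set.uIcc_of_le zero_le_one, Set.uIcc_of_le hbu.1.le]
    exact Set.Icc_subset_Icc_right hbu.2)
  have h1 : b u * Zd G l L u b ≤ ZR G l L b := by
    rw [e1]
    have h2 : (∫ _ in (0 : ℝ)..(b u), Zd G l L u b) = b u * Zd G l L u b := by
      rw [intervalIntegral.integral_const, sub_zero, smul_eq_mul]
    rw [← h2]
    apply intervalIntegral.integral_mono_on hbu.1.le intervalIntegrable_const hii'
    intro x hx
    unfold Zd
    refine mul_le_mul (Pool.Agent.Helper8.BO.psiR_anti hl1 hx.2) ?_ hz.1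
      (Pool.Agent.Helper8.BO.psiR_nonneg hl _)
    exact hmon G l _ _ _ hl hl1 (hc _ hbu.1.le hbu.2) (hc x hx.1 (hx.2.trans hbu.2))
      fun w _ => Pool.Agent.Helper8.BO.cut_anti G u b x (b u) hx.2 w
  have h1b : 0 ≤ 1 - b u := by linarith [hbu.2]
  refine ⟨?_, ?_, hd0, hd1⟩
  · unfold Ph
    exact div_nonneg (mul_nonneg (mul_nonneg hbu.1.le h1b) hd0) hZ.le
  · unfold Ph
    rw [div_le_iff₀ hZ]
    nlinarith

end Pool.Agent.Helper92.BO
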