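import Pool.Agent.Helper92.BO.GoalsC

/-!
# BO-PIN
-/

namespace Pool.Agent.Helper92.BO

open MeasureTheory Finset

theorem sub_cn (G : SimpleGraph ℕ) (n : ℕ) (I : Finset ℕ) (hI : I ⊆ range n) : I ⊆ cn G n I := by
  classical
  intro x hx
  unfold cn
  rw [mem_filter]
  exact ⟨hI hx, Or.inl hx⟩

theorem cn_erase_card (G : SimpleGraph ℕ) (n : ℕ) (I : Finset ℕ) (hI : I ⊆ range n)
    (hind : ∀ i ∈ I, ∀ j ∈ I, ¬ G.Adj i j) (i : ℕ) (hi : i ∈ I) :
    (cn G n (I.erase i)).card + 1 ≤ (cn G n I).card := by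
  classical
  have h1 : cn G n (I.erase i) ⊆ (cn G n I).erase i := by
    intro x hx
    unfold cn at hx ⊢
    rw [mem_filter] at hx
    obtain ⟨hx1, hx2⟩ := hx
    rw [mem_erase, mem_filter]
    rcases hx2 with hx2 | ⟨v, hv, hadj⟩
    · exact ⟨(mem_erase.mp hx2).1, hx1, Or.inl (mem_erase.mp hx2).2⟩
    · refine ⟨?_, hx1, Or.inr ⟨v, (mem_erase.mp hv).2, hadj⟩⟩
      rintro rfl
      exact hind v (mem_erase.mp hv).2 x hi hadj
  have h2 : i ∈ cn G n I := sub_cn G n I hI hi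
  have h3 := card_le_card h1
  rw [card_erase_of_mem h2] at h3
  have h4 : 0 < (cn G n I).card := card_pos.mpr ⟨i, h2⟩
  omega

theorem pin (hprc : PrcStmt) : PinStmt := by
  classical
  intro G n
  obtain ⟨p1, p2, p3, p4⟩ := hprc G n
  suffices H : ∀ (N : ℕ) (I : Finset ℕ), I.card = N → I ⊆ range n → ∀ k,
      (cn G n I).card ≤ k → ∃ c : ℕ, (k.factorial : ℝ) * pG G n I = c by
    intro I k hI hk
    exact H _ I rfl hI k hk
  intro N
  induction N using Nat.strong_induction_on with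
  | _ N ih =>
    intro I hN hI k hk
    by_cases h0 : I = ∅
    · subst h0
      exact ⟨k.factorial, by rw [p1, mul_one]⟩
    by_cases hind : ∃ i ∈ I, ∃ j ∈ I, G.Adj i j
    · exact ⟨0, by rw [p3 I hI hind]; simp⟩
    have hne : I.Nonempty := Finset.nonempty_iff_ne_empty.mpr h0
    have hind' : ∀ i ∈ I, ∀ j ∈ I, ¬ G.Adj i j := by
      intro i hi j hj h
      exact hind ⟨i, hi, j, hj, h⟩
    obtain ⟨i0, hi0⟩ := hne
    have hrec := p4 I hI ⟨i0, hi0⟩ hind'
    set m := (cn G n I).card with hm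
    have hm0 : 0 < m := card_pos.mpr ⟨i0, sub_cn G n I hI hi0⟩
    have hc : ∀ i ∈ I, ∃ c : ℕ, ((m - 1).factorial : ℝ) * pG G n (I.erase i) = c := by
      intro i hi
      refine ih (I.erase i).card ?_ (I.erase i) rfl ((erase_subset _ _).trans hI) (m - 1) ?_
      · rw [← hN]
        exact card_erase_lt_of_mem hi
      · have := cn_erase_card G n I hI hind' i hi
        omega
    choose! c hc using hc
    have h1 : (m.factorial : ℝ) * pG G n I = ((∑ i ∈ I, c i : ℕ) : ℝ) := by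
      have h2 : m.factorial = m * (m - 1).factorial := (Nat.mul_factorial_pred hm0.ne').symm
      rw [h2]
      push_cast
      calc (m : ℝ) * ((m - 1).factorial : ℝ) * pG G n I
          = ((m - 1).factorial : ℝ) * ((m : ℝ) * pG G n I) := by ring
        _ = ((m - 1).factorial : ℝ) * ∑ i ∈ I, pG G n (I.erase i) := by rw [hrec]
        _ = ∑ i ∈ I, ((m - 1).factorial : ℝ) * pG G n (I.erase i) := by rw [Finset.mul_sum]
        _ = ∑ i ∈ I, (c i : ℝ) := Finset.sum_congr rfl hc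
    obtain ⟨t, ht⟩ := Nat.factorial_dvd_factorial hk
    refine ⟨t * ∑ i ∈ I, c i, ?_⟩
    rw [ht]
    push_cast
    calc (m.factorial : ℝ) * (t : ℝ) * pG G n I = (t : ℝ) * ((m.factorial : ℝ) * pG G n I) := by
          ring
      _ = (t : ℝ) * ((∑ i ∈ I, c i : ℕ) : ℝ) := by rw [h1]
      _ = (t : ℝ) * ∑ i ∈ I, (c i : ℝ) := by push_cast; rfl

end Pool.Agent.Helper92.BO
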