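import Pool.Agent.Helper92.BO.GoalsC

/-!
# BO-POL
-/

namespace Pool.Agent.Helper92.BO

open MeasureTheory Finset

theorem pol (hspl : SplStmt) (haff : AffStmt) : PolStmt := by
  classical
  intro G n z
  rw [hspl G n z, Finset.mul_sum]
  symm
  have key : ∀ I : Finset (Fin n), pG G n (I.map Fin.valEmbedding) = PV G n I := by
    intro I
    unfold pG
    congr 1
    ext i
    simp only [mem_filter, mem_univ, true_and, mem_map, Fin.valEmbedding_apply]
    constructor
    · rintro ⟨j, hj, h⟩
      rwa [← Fin.ext h]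
    · intro h
      exact ⟨i, h, rfl⟩
  refine Finset.sum_bij' (fun J _ => univ.filter fun i : Fin n => (i : ℕ) ∈ J)
    (fun I _ => I.map Fin.valEmbedding) (fun J _ => mem_univ _) ?_ ?_ ?_ ?_
  · intro I _
    rw [mem_powerset]
    intro x hx
    rw [mem_map] at hx
    obtain ⟨j, _, rfl⟩ := hx
    exact mem_range.mpr j.2
  · intro J hJ
    rw [mem_powerset] at hJ
    ext x
    simp only [mem_map, mem_filter, mem_univ, true_and, Fin.valEmbedding_apply]
    constructor
    · rintro ⟨j, hj, rfl⟩
      exact hj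
    · intro hx
      exact ⟨⟨x, mem_range.mp (hJ hx)⟩, hx, rfl⟩
  · intro I _
    ext i
    simp only [mem_filter, mem_univ, true_and, mem_map, Fin.valEmbedding_apply]
    constructor
    · rintro ⟨j, hj, h⟩
      rwa [← Fin.ext h]
    · intro h
      exact ⟨i, h, rfl⟩
  · intro J hJ
    rw [mem_powerset] at hJ
    have hmap : (univ.filter fun i : Fin n => (i : ℕ) ∈ J).map Fin.valEmbedding = J := by
      ext x
      simp only [mem_map, mem_filter, mem_univ, true_and, Fin.valEmbedding_apply]
      constructor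
      · rintro ⟨j, hj, rfl⟩
        exact hj
      · intro hx
        exact ⟨⟨x, mem_range.mp (hJ hx)⟩, hx, rfl⟩
    have hcard : (univ.filter fun i : Fin n => (i : ℕ) ∈ J).card = J.card := by
      rw [← Finset.card_map Fin.valEmbedding, hmap]
    rw [haff, hcard]
    have h1 : pG G n J = PV G n (univ.filter fun i : Fin n => (i : ℕ) ∈ J) := by
      unfold pG
      congr 1
    rw [h1]
    push_cast
    have h2 : (2 : ℂ) ^ n * (z ^ J.card * ((1 / 2) ^ n *
        ((PV G n (univ.filter fun i : Fin n => (i : ℕ) ∈ J) : ℝ) : ℂ))) =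
        ((2 : ℂ) * (1 / 2)) ^ n * (z ^ J.card *
          ((PV G n (univ.filter fun i : Fin n => (i : ℕ) ∈ J) : ℝ) : ℂ)) := by
      rw [mul_pow]
      ring
    rw [h2]
    norm_num

end Pool.Agent.Helper92.BO
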