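import Pool.Agent.Helper92.BO.GoalsB

/-!
# Small weights: one variable
-/

namespace Pool.Agent.Helper92.BO

open MeasureTheory Filter Topology Function

theorem exp_sub_one_le {E : ℂ} (h : ‖E‖ ≤ 1 / 80) : ‖Complex.exp E - 1‖ ≤ 81 / 80 * ‖E‖ := by
  have h1 : ‖Complex.exp E - 1 - E‖ ≤ ‖E‖ ^ 2 :=
    Complex.norm_exp_sub_one_sub_id_le (h.trans (by norm_num))
  have h2 : ‖Complex.exp E - 1‖ ≤ ‖Complex.exp E - 1 - E‖ + ‖E‖ := by
    calc ‖Complex.exp E - 1‖ = ‖(Complex.exp E - 1 - E) + E‖ := by ring_nf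
      _ ≤ _ := norm_add_le _ _
  have h3 : ‖E‖ ^ 2 ≤ 1 / 80 * ‖E‖ := by
    rw [sq]; exact mul_le_mul_of_nonneg_right h (norm_nonneg _)
  linarith

theorem log_quot {A B : ℂ} {r : ℝ} (hB : B ≠ 0) (h : ‖A - B‖ ≤ r * ‖B‖) (hr : r ≤ 1 / 2) :
    ∃ D : ℂ, A = Complex.exp D * B ∧ ‖D‖ ≤ 3 / 2 * r := by
  have hBn : 0 < ‖B‖ := norm_pos_iff.2 hB
  have h1 : ‖(A - B) / B‖ ≤ r := by
    rw [norm_div, div_le_iff₀ hBn]; exact h
  refine ⟨Complex.log (1 + (A - B) / B), ?_, ?_⟩
  · have hne : 1 + (A - B) / B ≠ 0 := by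
      intro h0
      have h2 : (A - B) / B = -1 := by linear_combination h0
      rw [h2, norm_neg, norm_one] at h1
      linarith
    rw [Complex.exp_log hne]
    field_simp
    ring
  · refine (Complex.norm_log_one_add_half_le_self (h1.trans hr)).trans ?_
    exact mul_le_mul_of_nonneg_left h1 (by norm_num)

theorem smo : SmoStmt := by
  intro d z V hz hc hA hrel hbd
  have hd0 : (0 : ℝ) ≤ d := Nat.cast_nonneg d
  set ε : ℝ := ‖z‖ with hε
  have ε0 : 0 ≤ ε := norm_nonneg _
  have hz1 : ε * (d + 1) ^ 2 ≤ 1 / 400 := by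
    rw [le_div_iff₀ (by positivity)] at hz
    linarith
  have hz2 : ε ≤ 1 / 400 := by nlinarith [mul_nonneg ε0 hd0, mul_nonneg (mul_nonneg ε0 hd0) hd0]
  have hz3 : ε * d ≤ 1 / 400 := by nlinarith [mul_nonneg ε0 hd0, mul_nonneg (mul_nonneg ε0 hd0) hd0]
  have εd0 : 0 ≤ ε * d := mul_nonneg ε0 hd0
  set a : ℝ := ‖V (1 / 2)‖ with ha
  have a0 : 0 < a := norm_pos_iff.2 hA
  -- the size of V
  have hVA : ∀ x, 0 ≤ x → x ≤ 1 / 2 → ‖V x - V (1 / 2)‖ ≤ 13 / 1000 * a := by
    intro x hx0 hx1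
    obtain ⟨E, hE1, hE2⟩ := hrel x (1 / 2) hx0 hx1 le_rfl
    have hE3 : ‖E‖ ≤ 1 / 80 := by
      refine hE2.trans ?_
      nlinarith
    have h1 : V x = Complex.exp (-E) * V (1 / 2) := by
      rw [hE1, ← mul_assoc, ← Complex.exp_add, neg_add_cancel, Complex.exp_zero, one_mul]
    have h2 : V x - V (1 / 2) = (Complex.exp (-E) - 1) * V (1 / 2) := by rw [h1]; ring
    rw [h2, norm_mul]
    refine mul_le_mul_of_nonneg_right ?_ a0.le
    have := exp_sub_one_le (E := -E) (by rwa [norm_neg])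
    rw [norm_neg] at this
    linarith
  have hVn : ∀ x, 0 ≤ x → x ≤ 1 / 2 → ‖V x‖ ≤ 1013 / 1000 * a := by
    intro x hx0 hx1
    have h1 := hVA x hx0 hx1
    have h2 : ‖V x‖ ≤ ‖V x - V (1 / 2)‖ + ‖V (1 / 2)‖ := by
      calc ‖V x‖ = ‖(V x - V (1 / 2)) + V (1 / 2)‖ := by ring_nf
        _ ≤ _ := norm_add_le _ _
    linarith
  have hVd : ∀ x' x, 0 ≤ x' → x' ≤ x → x ≤ 1 / 2 →
      ‖V x - V x'‖ ≤ 1026 / 100 * (a * (ε * d)) * (x - x') := by
    intro x' x hx' hxx hx
    obtain ⟨E, hE1, hE2⟩ := hrel x' x hx' hxx hx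
    have hE3 : ‖E‖ ≤ 1 / 80 := by
      refine hE2.trans ?_
      have : ε * (10 * d * (x - x')) = 10 * (ε * d) * (x - x') := by ring
      rw [this]
      nlinarith
    have h2 : V x - V x' = (Complex.exp E - 1) * V x' := by rw [hE1]; ring
    rw [h2, norm_mul]
    have h3 := exp_sub_one_le hE3
    have h4 := hVn x' hx' (hxx.trans hx)
    have h5 : ‖Complex.exp E - 1‖ ≤ 81 / 80 * (ε * (10 * d * (x - x'))) :=
      h3.trans (mul_le_mul_of_nonneg_left hE2 (by norm_num))
    have h6 : 0 ≤ ε * (10 * d * (x - x')) := by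
      have : 0 ≤ x - x' := by linarith
      positivity
    calc ‖Complex.exp E - 1‖ * ‖V x'‖ ≤
        (81 / 80 * (ε * (10 * d * (x - x')))) * (1013 / 1000 * a) :=
          mul_le_mul h5 h4 (norm_nonneg _) (by positivity)
      _ = 81 / 80 * 1013 / 1000 * 10 * ((a * (ε * d)) * (x - x')) := by ring
      _ ≤ 1026 / 100 * ((a * (ε * d)) * (x - x')) := by
          have h7 : 0 ≤ (a * (ε * d)) * (x - x') := mul_nonneg (by positivity) (by linarith)
          nlinarith
      _ = _ := by ring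
  -- the integral for small y
  have hZs : ∀ y, 0 < y → y ≤ 1 / 2 → ZCf z V y = y * ∫ t in (0 : ℝ)..1, V (y * t) := by
    intro y hy0 hy1
    have h1 : ZCf z V y = ∫ x in (0 : ℝ)..y, V x := by
      unfold ZCf
      apply intervalIntegral.integral_congr
      intro x hx
      rw [Set.uIcc_of_le hy0.le] at hx
      show psi z x * V x = V x
      unfold psi
      rw [if_pos (hx.2.trans hy1), one_mul]
    rw [h1]
    have h3 : ((y : ℝ) : ℂ) * ∫ t in (0 : ℝ)..1, V (y * t) = y • ∫ t in (0 : ℝ)..1, V (y * t) := by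
      rw [Complex.real_smul]
    rw [h3, intervalIntegral.smul_integral_comp_mul_left, mul_zero, mul_one]
  have hci : ∀ y, 0 < y → y ≤ 1 / 2 →
      IntervalIntegrable (fun t : ℝ => V (y * t)) volume 0 1 := by
    intro y hy0 hy1
    apply ContinuousOn.intervalIntegrable
    rw [Set.uIcc_of_le zero_le_one]
    refine hc.comp (by fun_prop) ?_
    intro t ht
    exact ⟨mul_nonneg hy0.le ht.1, by nlinarith [ht.1, ht.2]⟩
  have hlow : ∀ y, 0 < y → y ≤ 1 / 2 → 987 / 1000 * a ≤ ‖∫ t in (0 : ℝ)..1, V (y * t)‖ := by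
    intro y hy0 hy1
    have h1 : ‖∫ t in (0 : ℝ)..1, (V (y * t) - V (1 / 2))‖ ≤ 13 / 1000 * a * |(1 : ℝ) - 0| := by
      apply intervalIntegral.norm_integral_le_of_norm_le_const
      intro t ht
      rw [Set.uIoc_of_le zero_le_one] at ht
      exact hVA _ (mul_nonneg hy0.le ht.1.le) (by nlinarith [ht.1, ht.2])
    rw [intervalIntegral.integral_sub (hci y hy0 hy1) intervalIntegrable_const,
      intervalIntegral.integral_const, sub_zero, one_smul, abs_one, mul_one] at h1
    have h2 : a ≤ ‖(∫ t in (0 : ℝ)..1, V (y * t)) - V (1 / 2)‖ +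
        ‖∫ t in (0 : ℝ)..1, V (y * t)‖ := by
      have : V (1 / 2) = -((∫ t in (0 : ℝ)..1, V (y * t)) - V (1 / 2)) +
          ∫ t in (0 : ℝ)..1, V (y * t) := by ring
      calc a = ‖-((∫ t in (0 : ℝ)..1, V (y * t)) - V (1 / 2)) + ∫ t in (0 : ℝ)..1, V (y * t)‖ := by
            rw [← this]
        _ ≤ _ := by
            refine (norm_add_le _ _).trans ?_
            rw [norm_neg]
    linarith
  -- case 1
  have case1 : ∀ y' y : ℝ, 0 < y' → y' ≤ y → y ≤ 1 / 2 → ∃ D : ℂ,
      ZCf z V y * ((y' : ℝ) : ℂ) = Complex.exp D * (ZCf z V y' * ((y : ℝ) : ℂ)) ∧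
      ‖D‖ ≤ ε * (10 * (d + 1) * (y - y')) := by
    intro y' y hy' hyy hy
    have hy0 : 0 < y := hy'.trans_le hyy
    have hdiff : ‖(∫ t in (0 : ℝ)..1, V (y * t)) - ∫ t in (0 : ℝ)..1, V (y' * t)‖ ≤
        1026 / 100 * (a * (ε * d)) * (y - y') / 2 := by
      rw [← intervalIntegral.integral_sub (hci y hy0 hy) (hci y' hy' (hyy.trans hy))]
      have h1 : ‖∫ t in (0 : ℝ)..1, (V (y * t) - V (y' * t))‖ ≤
          ∫ t in (0 : ℝ)..1, 1026 / 100 * (a * (ε * d)) * (y - y') * t := by
        apply intervalIntegral.norm_integral_le_of_norm_le zero_le_one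
        · refine Filter.Eventually.of_forall fun t ht => ?_
          have h2 := hVd (y' * t) (y * t) (mul_nonneg hy'.le ht.1.le)
            (mul_le_mul_of_nonneg_right hyy ht.1.le) (by nlinarith [ht.1, ht.2])
          refine h2.trans (le_of_eq (by ring))
        · exact (continuous_const.mul continuous_id).intervalIntegrable _ _
      refine h1.trans (le_of_eq ?_)
      rw [intervalIntegral.integral_const_mul, integral_id]
      ring
    obtain ⟨D, hD1, hD2⟩ := log_quot (A := ∫ t in (0 : ℝ)..1, V (y * t))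
      (B := ∫ t in (0 : ℝ)..1, V (y' * t)) (r := 52 / 10 * (ε * d) * (y - y')) (by
        intro h0
        have := hlow y' hy' (hyy.trans hy)
        rw [h0, norm_zero] at this
        nlinarith) (by
        refine hdiff.trans ?_
        have h1 := hlow y' hy' (hyy.trans hy)
        have h2 : 0 ≤ 52 / 10 * (ε * d) * (y - y') := mul_nonneg (by positivity) (by linarith)
        have h3 := mul_le_mul_of_nonneg_left h1 h2
        refine le_trans ?_ h3
        have h4 : 0 ≤ (a * (ε * d)) * (y - y') := mul_nonneg (by positivity) (by linarith)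
        nlinarith) (by
        have : (ε * d) * (y - y') ≤ 1 / 400 * 1 := mul_le_mul hz3 (by linarith) (by linarith)
          (by norm_num)
        nlinarith)
    refine ⟨D, ?_, ?_⟩
    · rw [hZs y hy0 hy, hZs y' hy' (hyy.trans hy), hD1]
      ring
    · refine hD2.trans ?_
      have h1 : 0 ≤ ε * (y - y') := mul_nonneg ε0 (by linarith)
      have h2 : 0 ≤ (ε * (y - y')) * d := mul_nonneg h1 hd0
      nlinarith
  -- the integral for large y
  have hii : IntervalIntegrable (fun x => psi z x * V x) volume 0 1 := by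
    have h1 : IntervalIntegrable V volume 0 1 := by
      apply ContinuousOn.intervalIntegrable
      rwa [Set.uIcc_of_le zero_le_one]
    rw [intervalIntegrable_iff] at h1 ⊢
    refine Integrable.bdd_mul (c := max 1 ‖z‖) h1 ?_ ?_
    · apply Measurable.aestronglyMeasurable
      unfold psi
      exact Measurable.ite measurableSet_Iic measurable_const measurable_const
    · refine Filter.Eventually.of_forall fun x => ?_
      unfold psi
      split_ifs
      · rw [norm_one]; exact le_max_left _ _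
      · exact le_max_right _ _
  have hsub : ∀ y' y : ℝ, 1 / 2 ≤ y' → y' ≤ y → y ≤ 1 →
      ‖ZCf z V y - ZCf z V y'‖ ≤ 2 * (ε * a) * (y - y') := by
    intro y' y hy' hyy hy
    have e1 : ZCf z V y - ZCf z V y' = ∫ x in y'..y, psi z x * V x := by
      unfold ZCf
      rw [intervalIntegral.integral_interval_sub_left]
      · exact hii.mono_set (by
          rw [Set.uIcc_of_le zero_le_one, Set.uIcc_of_le (by linarith)]
          exact Set.Icc_subset_Icc_right hy)
      · exact hii.mono_set (by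
          rw [Set.uIcc_of_le zero_le_one, Set.uIcc_of_le (by linarith)]
          exact Set.Icc_subset_Icc_right (hyy.trans hy))
    rw [e1]
    have h1 : ‖∫ x in y'..y, psi z x * V x‖ ≤ 2 * (ε * a) * |y - y'| := by
      apply intervalIntegral.norm_integral_le_of_norm_le_const_ae
      have hae : ∀ᵐ x : ℝ, x ≠ 1 := by
        rw [ae_iff]
        simp
      filter_upwards [hae] with x hx1 hx
      rw [Set.uIoc_of_le hyy] at hx
      have hx2 : x < 1 := lt_of_le_of_ne (hx.2.trans hy) hx1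
      have hx3 : 1 / 2 < x := hy'.trans_lt hx.1
      unfold psi
      rw [if_neg (not_le.2 hx3), norm_mul]
      have := hbd x hx3.le hx2
      calc ‖z‖ * ‖V x‖ ≤ ‖z‖ * (2 * ‖V (1 / 2)‖) := mul_le_mul_of_nonneg_left this (norm_nonneg _)
        _ = _ := by rw [← hε, ← ha]; ring
    rwa [abs_of_nonneg (by linarith)] at h1
  have hhalf : 493 / 1000 * a ≤ ‖ZCf z V (1 / 2)‖ := by
    have h1 := hZs (1 / 2) (by norm_num) le_rfl
    have h2 := hlow (1 / 2) (by norm_num) le_rfl
    rw [h1, norm_mul, Complex.norm_real, Real.norm_of_nonneg (by norm_num : (0 : ℝ) ≤ 1 / 2)]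
    linarith
  have hlarge : ∀ y, 1 / 2 ≤ y → y ≤ 1 → 49 / 100 * a ≤ ‖ZCf z V y‖ := by
    intro y hy0 hy1
    have h1 := hsub (1 / 2) y le_rfl hy0 hy1
    have h2 : ‖ZCf z V (1 / 2)‖ ≤ ‖ZCf z V y - ZCf z V (1 / 2)‖ + ‖ZCf z V y‖ := by
      calc ‖ZCf z V (1 / 2)‖ = ‖-(ZCf z V y - ZCf z V (1 / 2)) + ZCf z V y‖ := by ring_nf
        _ ≤ _ := by
          refine (norm_add_le _ _).trans ?_
          rw [norm_neg]
    have h3 : 2 * (ε * a) * (y - 1 / 2) ≤ 1 / 400 * a := by
      have h4 : ε * a ≤ 1 / 400 * a := mul_le_mul_of_nonneg_right hz2 a0.le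
      have h5 : 0 ≤ ε * a := by positivity
      nlinarith
    linarith
  have case2 : ∀ y' y : ℝ, 1 / 2 ≤ y' → y' ≤ y → y ≤ 1 → ∃ D : ℂ,
      ZCf z V y = Complex.exp D * ZCf z V y' ∧ ‖D‖ ≤ ε * (10 * (y - y')) := by
    intro y' y hy' hyy hy
    have h1 := hlarge y' hy' (hyy.trans hy)
    obtain ⟨D, hD1, hD2⟩ := log_quot (A := ZCf z V y) (B := ZCf z V y')
      (r := 41 / 10 * ε * (y - y')) (by
        intro h0
        rw [h0, norm_zero] at h1
        nlinarith) (by
        refine (hsub y' y hy' hyy hy).trans ?_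
        have h2 : 0 ≤ 41 / 10 * ε * (y - y') := mul_nonneg (by positivity) (by linarith)
        have h3 := mul_le_mul_of_nonneg_left h1 h2
        refine le_trans ?_ h3
        have h4 : 0 ≤ (ε * a) * (y - y') := mul_nonneg (by positivity) (by linarith)
        nlinarith) (by
        have : ε * (y - y') ≤ 1 / 400 * 1 := mul_le_mul hz2 (by linarith) (by linarith)
          (by norm_num)
        nlinarith)
    refine ⟨D, hD1, hD2.trans ?_⟩
    have h2 : 0 ≤ ε * (y - y') := mul_nonneg ε0 (by linarith)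
    nlinarith
  refine ⟨?_, ?_⟩
  · intro y hy0 hy1 h0
    rcases le_total y (1 / 2) with h | h
    · have h1 := hZs y hy0 h
      have h2 := hlow y hy0 h
      rw [h0] at h1
      have h3 : (∫ t in (0 : ℝ)..1, V (y * t)) = 0 := by
        have h4 : ((y : ℝ) : ℂ) ≠ 0 := by exact_mod_cast hy0.ne'
        rcases mul_eq_zero.1 h1.symm with h5 | h5
        · exact absurd h5 h4
        · exact h5
      rw [h3, norm_zero] at h2
      nlinarith
    · have h2 := hlarge y h hy1
      rw [h0, norm_zero] at h2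
      nlinarith
  · intro y' y hy' hyy hy
    unfold bta
    rcases le_total y (1 / 2) with h | h
    · have h' : y' ≤ 1 / 2 := hyy.trans h
      obtain ⟨D, hD1, hD2⟩ := case1 y' y hy' hyy h
      refine ⟨D, ?_, ?_⟩
      · rw [min_eq_left h, min_eq_left h']; exact hD1
      · rw [min_eq_left h, min_eq_left h', max_eq_right h, max_eq_right h']
        refine hD2.trans (le_of_eq (by ring))
    · rcases le_total y' (1 / 2) with h' | h'
      · obtain ⟨D, hD1, hD2⟩ := case1 y' (1 / 2) hy' h' le_rfl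
        obtain ⟨D', hD1', hD2'⟩ := case2 (1 / 2) y le_rfl h hy
        refine ⟨D + D', ?_, ?_⟩
        · rw [min_eq_right h, min_eq_left h', hD1', Complex.exp_add]
          linear_combination Complex.exp D' * hD1
        · rw [min_eq_right h, min_eq_left h', max_eq_left h, max_eq_right h']
          refine (norm_add_le _ _).trans ((add_le_add hD2 hD2').trans (le_of_eq (by ring)))
      · obtain ⟨D', hD1', hD2'⟩ := case2 y' y h' hyy hy
        refine ⟨D', ?_, ?_⟩
        · rw [min_eq_right h, min_eq_right h', hD1']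
          ring
        · rw [min_eq_right h, min_eq_right h', max_eq_left h, max_eq_left h']
          refine hD2'.trans (le_of_eq (by ring))

end Pool.Agent.Helper92.BO
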