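import Pool.Agent.Helper92.BO.GoalsB

/-!
# Small weights: the continuation of the density
-/

namespace Pool.Agent.Helper92.BO

open MeasureTheory Filter Topology Function

theorem pos1_cut (G : SimpleGraph ℕ) (L : List ℕ) (v : ℕ) (b : ℕ → ℝ) (hb : Pos1 L b) (x : ℝ)
    (hx : x < 1) : Pos1 L (cut G v (1 - x) b) := by
  intro u hu
  unfold cut
  split_ifs with h
  · exact ⟨lt_min (hb u hu).1 (by linarith), (min_le_left _ _).trans (hb u hu).2⟩
  · exact hb u hu

theorem prod_le_prodL (f g : ℕ → ℝ) : ∀ L : List ℕ, (∀ u ∈ L, 0 ≤ f u) → (∀ u ∈ L, f u ≤ g u) →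
    (L.map f).prod ≤ (L.map g).prod
  | [], _, _ => le_rfl
  | a :: L, h0, h1 => by
    rw [List.map_cons, List.map_cons, List.prod_cons, List.prod_cons]
    have ih := prod_le_prodL f g L (fun u hu => h0 u (List.mem_cons_of_mem _ hu))
      fun u hu => h1 u (List.mem_cons_of_mem _ hu)
    have h2 : 0 ≤ (L.map f).prod := by
      apply List.prod_nonneg
      intro y hy
      obtain ⟨u, hu, rfl⟩ := List.mem_map.1 hy
      exact h0 u (List.mem_cons_of_mem _ hu)
    exact mul_le_mul (h1 a List.mem_cons_self) ih h2
      ((h0 a List.mem_cons_self).trans (h1 a List.mem_cons_self))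

open Classical in
theorem sum_adj_le (G : SimpleGraph ℕ) (Δ v : ℕ) (hD : DegLe G Δ) (f : ℕ → ℝ) (a : ℝ) (ha : 0 ≤ a)
    (L : List ℕ) (hnd : L.Nodup) (h : ∀ u ∈ L, f u ≤ if G.Adj v u then a else 0) :
    (L.map f).sum ≤ Δ * a := by
  have h1 : (L.map f).sum ≤ (L.map fun u => if G.Adj v u then a else 0).sum :=
    List.sum_le_sum h
  have h2 : (L.map fun u => if G.Adj v u then a else 0).sum =
      ((L.filter fun u => decide (G.Adj v u)).length : ℝ) * a := by
    clear h h1 hnd
    induction L with
    | nil => simp
    | cons w L ih =>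
      rw [List.map_cons, List.sum_cons, ih]
      by_cases hw : G.Adj v w
      · rw [List.filter_cons_of_pos (by simpa using hw), List.length_cons, if_pos hw]
        push_cast
        ring
      · rw [List.filter_cons_of_neg (by simpa using hw), if_neg hw, zero_add]
  have h3 : (L.filter fun u => decide (G.Adj v u)).length ≤ Δ := by
    have hsub : ((L.filter fun u => decide (G.Adj v u)).toFinset : Set ℕ) ⊆ G.neighborSet v := by
      intro u hu
      rw [Finset.mem_coe, List.mem_toFinset, List.mem_filter] at hu
      simpa using hu.2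
    have hle := (Set.encard_le_encard hsub).trans (hD v)
    rw [Set.encard_coe_eq_coe_finsetCard, List.toFinset_card_of_nodup (hnd.filter _)] at hle
    exact_mod_cast hle
  rw [h2] at h1
  have h4 : ((L.filter fun u => decide (G.Adj v u)).length : ℝ) ≤ Δ := by exact_mod_cast h3
  exact h1.trans (mul_le_mul_of_nonneg_right h4 ha)

theorem smv (hcnt : CntStmt) : SmvStmt := by
  classical
  intro G Δ z hD hz L v b hnd hv hb hHS
  have hb01 : In01 L b := fun u hu => ⟨(hb u hu).1.le, (hb u hu).2⟩
  have hd0 : (0 : ℝ) ≤ Δ := Nat.cast_nonneg Δ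
  obtain ⟨hne, hrel⟩ := hHS
  refine ⟨(hcnt G z 0 L v b hb01).1, hne _ (pos1_cut G L v b hb _ (by norm_num)), ?_, ?_⟩
  · intro x' x hx' hxx hx
    have hp : Pos1 L (cut G v (1 - x) b) := pos1_cut G L v b hb x (by linarith)
    have hp' : Pos1 L (cut G v (1 - x') b) := pos1_cut G L v b hb x' (by linarith)
    have hle : ∀ u ∈ L, cut G v (1 - x) b u ≤ cut G v (1 - x') b u := by
      intro u _
      unfold cut
      split_ifs
      · exact min_le_min_left _ (by linarith)
      · exact le_rfl
    obtain ⟨D, hD1, hD2⟩ := hrel _ _ hp hp' hle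
    have hprod : (L.map fun u => min (cut G v (1 - x) b u) (1 / 2)).prod =
        (L.map fun u => min (cut G v (1 - x') b u) (1 / 2)).prod := by
      congr 1
      apply List.map_congr_left
      intro u _
      unfold cut
      split_ifs
      · rw [min_assoc, min_assoc, min_eq_right (by linarith : (1 : ℝ) / 2 ≤ 1 - x),
          min_eq_right (by linarith : (1 : ℝ) / 2 ≤ 1 - x')]
      · rfl
    have hpos : 0 < (L.map fun u => min (cut G v (1 - x) b u) (1 / 2)).prod := by
      apply List.prod_pos
      intro y hy
      obtain ⟨u, hu, rfl⟩ := List.mem_map.1 hy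
      exact lt_min (hp u hu).1 (by norm_num)
    rw [← hprod, ← mul_assoc] at hD1
    have hD3 := mul_right_cancel₀ (by exact_mod_cast hpos.ne') hD1
    refine ⟨-D, ?_, ?_⟩
    · rw [hD3, ← mul_assoc, ← Complex.exp_add, neg_add_cancel, Complex.exp_zero, one_mul]
    · rw [norm_neg]
      refine hD2.trans (mul_le_mul_of_nonneg_left ?_ (norm_nonneg _))
      have := sum_adj_le G Δ v hD (fun u => bta Δ (cut G v (1 - x') b u) -
        bta Δ (cut G v (1 - x) b u)) (10 * (x - x')) (by linarith) L hnd ?_
      · refine this.trans (le_of_eq (by ring))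
      · intro u _
        show bta Δ (cut G v (1 - x') b u) - bta Δ (cut G v (1 - x) b u) ≤ _
        unfold cut
        split_ifs
        · unfold bta
          have e1 : min (min (b u) (1 - x')) (1 / 2) = min (min (b u) (1 - x)) (1 / 2) := by
            rw [min_assoc, min_assoc, min_eq_right (by linarith : (1 : ℝ) / 2 ≤ 1 - x),
              min_eq_right (by linarith : (1 : ℝ) / 2 ≤ 1 - x')]
          rw [e1]
          have e2 : max (min (b u) (1 - x')) (1 / 2) ≤
              max (min (b u) (1 - x)) (1 / 2) + (x - x') := by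
            apply max_le
            · rcases le_total (b u) (1 - x) with h | h
              · have : min (b u) (1 - x') ≤ b u := min_le_left _ _
                have : b u ≤ max (min (b u) (1 - x)) (1 / 2) := by
                  rw [min_eq_left h]; exact le_max_left _ _
                linarith
              · have : min (b u) (1 - x') ≤ 1 - x' := min_le_right _ _
                have : 1 - x ≤ max (min (b u) (1 - x)) (1 / 2) := by
                  rw [min_eq_right h]; exact le_max_left _ _
                linarith
            · have : (1 : ℝ) / 2 ≤ max (min (b u) (1 - x)) (1 / 2) := le_max_right _ _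
              linarith
          linarith
        · linarith
  · intro x hx hx1
    have hp : Pos1 L (cut G v (1 - x) b) := pos1_cut G L v b hb x hx1
    have hp' : Pos1 L (cut G v (1 - 1 / 2) b) := pos1_cut G L v b hb _ (by norm_num)
    have hle : ∀ u ∈ L, cut G v (1 - x) b u ≤ cut G v (1 - 1 / 2) b u := by
      intro u _
      unfold cut
      split_ifs
      · exact min_le_min_left _ (by linarith)
      · exact le_rfl
    obtain ⟨D, hD1, hD2⟩ := hrel _ _ hp hp' hle
    set P := (L.map fun u => min (cut G v (1 - x) b u) (1 / 2)).prod with hP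
    set P' := (L.map fun u => min (cut G v (1 - 1 / 2) b u) (1 / 2)).prod with hP'
    have hPle : P ≤ P' := by
      exact prod_le_prodL _ _ L (fun u hu => (lt_min (hp u hu).1 (by norm_num)).le)
        fun u hu => min_le_min_right _ (hle u hu)
    have hpos : 0 < P := by
      apply List.prod_pos
      intro y hy
      obtain ⟨u, hu, rfl⟩ := List.mem_map.1 hy
      exact lt_min (hp u hu).1 (by norm_num)
    have hpos' : 0 < P' := hpos.trans_le hPle
    have hDn : ‖D‖ ≤ 1 / 80 := by
      have h1 := sum_adj_le G Δ v hD (fun u => bta Δ (cut G v (1 - 1 / 2) b u) -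
        bta Δ (cut G v (1 - x) b u)) (5 * (Δ + 1)) (by positivity) L hnd ?_
      · have h2 : ‖z‖ * (L.map fun u => bta Δ (cut G v (1 - 1 / 2) b u) -
            bta Δ (cut G v (1 - x) b u)).sum ≤ 1 / (400 * (Δ + 1) ^ 2) * (Δ * (5 * (Δ + 1))) := by
          refine (mul_le_mul_of_nonneg_left h1 (norm_nonneg _)).trans ?_
          exact mul_le_mul_of_nonneg_right hz (by positivity)
        refine hD2.trans (h2.trans ?_)
        rw [div_mul_eq_mul_div, one_mul, div_le_div_iff₀ (by positivity) (by norm_num)]
        nlinarith
      · intro u _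
        show bta Δ (cut G v (1 - 1 / 2) b u) - bta Δ (cut G v (1 - x) b u) ≤ _
        unfold cut
        split_ifs
        · unfold bta
          have e1 : max (min (b u) (1 - 1 / 2)) ((1 : ℝ) / 2) = 1 / 2 :=
            max_eq_right ((min_le_right _ _).trans (by norm_num))
          have e2 : (1 : ℝ) / 2 ≤ max (min (b u) (1 - x)) (1 / 2) := le_max_right _ _
          have e3 : min (min (b u) (1 - 1 / 2)) ((1 : ℝ) / 2) ≤
              min (min (b u) (1 - x)) (1 / 2) + 1 / 2 := by
            have a1 : min (min (b u) (1 - 1 / 2)) ((1 : ℝ) / 2) ≤ min (b u) (1 / 2) := by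
              rw [show (1 : ℝ) - 1 / 2 = 1 / 2 by norm_num]
              exact min_le_left _ _
            have a2 : min (b u) ((1 : ℝ) / 2) - 1 / 2 ≤ 0 := by
              have := min_le_right (b u) ((1 : ℝ) / 2)
              linarith
            have a3 : 0 ≤ min (min (b u) (1 - x)) ((1 : ℝ) / 2) := by
              refine le_min (le_min (hb u ‹_›).1.le (by linarith)) (by norm_num)
            linarith
          rw [e1]
          nlinarith
        · linarith
    have h1 : ‖ZC G z L (cut G v (1 - x) b)‖ * P' ≤
        2 * ‖ZC G z L (cut G v (1 - 1 / 2) b)‖ * P := by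
      have h2 : ZC G z L (cut G v (1 - x) b) * ((P' : ℝ) : ℂ) =
          Complex.exp (-D) * (ZC G z L (cut G v (1 - 1 / 2) b) * ((P : ℝ) : ℂ)) := by
        rw [hD1, ← mul_assoc, ← Complex.exp_add, neg_add_cancel, Complex.exp_zero, one_mul]
      have h3 := congrArg norm h2
      rw [norm_mul, norm_mul, norm_mul, Complex.norm_real, Complex.norm_real,
        Real.norm_of_nonneg hpos.le, Real.norm_of_nonneg hpos'.le] at h3
      have h4 : ‖Complex.exp (-D)‖ ≤ 2 := by
        rw [Complex.norm_exp]
        have h5 : (-D).re ≤ 1 / 80 := by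
          have := Complex.re_le_norm (-D)
          rw [norm_neg] at this
          linarith
        have h6 : Real.exp (-D).re ≤ Real.exp (1 / 80) := Real.exp_le_exp.2 h5
        have h7 : Real.exp (1 / 80) ≤ 2 := by
          have := Real.exp_bound' (x := 1 / 80) (by norm_num) (by norm_num) (n := 1) (by norm_num)
          norm_num at this
          linarith
        linarith
      rw [h3]
      have : 0 ≤ ‖ZC G z L (cut G v (1 - 1 / 2) b)‖ * P := by positivity
      nlinarith
    have h5 : ‖ZC G z L (cut G v (1 - x) b)‖ * P' ≤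
        2 * ‖ZC G z L (cut G v (1 - 1 / 2) b)‖ * P' :=
      h1.trans (mul_le_mul_of_nonneg_left hPle (by positivity))
    exact le_of_mul_le_mul_right h5 hpos'

end Pool.Agent.Helper92.BO
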