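import Pool.Agent.Helper92.BO.GoalsG
import Pool.Agent.Helper35.BO.CHG
import Pool.Agent.Helper75.BO.CIG

/-!
# The potential is nonnegative
-/

namespace Pool.Agent.Helper92.BO

open MeasureTheory Filter Topology Function

theorem tnn (hTMS : TmsStmt) (hTMA : TmaStmt) (hTMP : TmpStmt) (hADM : AdmStmt)
    (hSRD : SrdStmt) (hPOS : PosStmt) (hLOC : LocStmt) : TnnStmt := by
  classical
  intro G l Δ hdeg hl0 hl1
  suffices H : ∀ (n : ℕ) (L : List ℕ), L.length = n → ∀ (b b' : ℕ → ℝ), L.Nodup → Good L b →
      Good L b' → (∀ u ∈ L, b' u ≤ b u) → 0 ≤ Tm G l L b b' from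
    fun L b b' h1 h2 h3 h4 => H L.length L rfl b b' h1 h2 h3 h4
  intro n
  induction n with
  | zero =>
    intro L hL b b' _ _ _ _
    have hL0 : L = [] := List.length_eq_zero_iff.mp hL
    subst hL0
    simp [Tm]
  | succ n ih =>
    intro L hL b b' hnd hb hb' hle
    have hIn : ∀ {M : List ℕ} {b : ℕ → ℝ}, Good M b → In01 M b := fun {M b} hb u hu =>
      ⟨(hb u hu).1.le, (hb u hu).2.1⟩
    have hPo : ∀ {M : List ℕ} {b : ℕ → ℝ}, Good M b → Pos1 M b := fun {M b} hb u hu =>
      ⟨(hb u hu).1, (hb u hu).2.1⟩
    have hOne : ∀ (u : ℕ), u ∈ L → ∀ (b : ℕ → ℝ), Good L b → ∀ y' y : ℝ, 0 < y' → y' ≤ 1 →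
        y' ≠ 1 / 2 → 0 < y → y ≤ 1 → y ≠ 1 / 2 → y' ≤ y →
        0 ≤ Tm G l L (update b u y) (update b u y') := by
      intro u hu b hb y' y hy'0 hy'1 hy'h hy0 hy1 hyh hle
      set M := L.erase u with hM
      have hperm : L.Perm (u :: M) := List.perm_cons_erase hu
      have huM : u ∉ M := by
        rw [hM]; exact hnd.not_mem_erase
      have hMn : M.Nodup := hnd.erase u
      have hMl : M.length = n := by
        rw [hM, List.length_erase_of_mem hu, hL]; rfl
      have hbM : Good M b := fun w hw => hb w (List.mem_of_mem_erase hw)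
      have hGood : ∀ t : ℝ, 0 < t → t ≤ 1 → t ≠ 1 / 2 → Good L (update b u t) := by
        intro t h0 h1 h2 w hw
        by_cases hwu : w = u
        · subst hwu; rw [update_self]; exact ⟨h0, h1, h2⟩
        · rw [update_of_ne hwu]; exact hb w hw
      have hGoodM : ∀ t : ℝ, 0 < t → t ≤ 1 → t ≠ 1 / 2 → Good (u :: M) (update b u t) :=
        fun t h0 h1 h2 w hw => hGood t h0 h1 h2 w (hperm.mem_iff.2 hw)
      rcases hle.eq_or_lt with heq | hlt
      · rw [heq, Pool.Agent.Helper75.BO.tm_self]
      · have hTm : Tm G l L (update b u y) (update b u y') =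
            Tm G l (u :: M) (update b u y) (update b u y') :=
          hTMP G l L (u :: M) _ _ _ _ hperm (hIn (hGood y hy0 hy1 hyh))
            (hIn (hGood y' hy'0 hy'1 hy'h)) (fun _ _ => rfl) (fun _ _ => rfl)
        rw [hTm]
        obtain ⟨t1, -⟩ := hTMS G l M u b hl0 hl1 hMn huM (hPo hbM) y' y hy'0 hlt hy1 hy'h hyh
        have hadm := hADM G Δ l M u b hdeg hl0 hl1 hMn huM (hPo hbM)
        have hS := (hSRD Δ l _ hl0 hl1 hadm y' y hy'0 hlt hy1 hy'h hyh).2.1
        have hZ : ∀ t : ℝ, 0 < t → t ≤ 1 → t ≠ 1 / 2 →
            0 < Zf l (fun x => ZR G l M (cut G u (1 - x) b)) t := by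
          intro t h0 h1 h2
          rw [← Pool.Agent.Helper75.BO.zr_headG hLOC G l huM]
          exact (hPOS G l (u :: M) _ hl0 hl1).2 (hPo (hGoodM t h0 h1 h2))
        have hrho : ∀ x : ℝ, 0 ≤ x → x ≤ 1 →
            0 ≤ rho l (fun x => ZR G l M (cut G u (1 - x) b)) x := by
          intro x h0 h1
          unfold rho
          refine mul_nonneg ?_ ?_
          · unfold psiR
            split_ifs
            · exact zero_le_one
            · exact hl0.le
          · refine ((hPOS G l M _ hl0 hl1).1 ?_).1
            intro w hw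
            unfold cut
            split_ifs
            · exact ⟨le_min (hbM w hw).1.le (by linarith),
                (min_le_left _ _).trans (hbM w hw).2.1⟩
            · exact ⟨(hbM w hw).1.le, (hbM w hw).2.1⟩
        have hC : 0 ≤ C2 l (fun x => ZR G l M (cut G u (1 - x) b))
            (fun x' x => Tm G l M (cut G u (1 - x') b) (cut G u (1 - x) b)) y' y := by
          unfold C2
          have hae1 : ∀ᵐ x : ℝ, x ≠ 1 := by rw [ae_iff]; simp
          have hae2 : ∀ᵐ x : ℝ, x ≠ 1 / 2 := by rw [ae_iff]; simp
          have hae3 : ∀ᵐ x : ℝ, x ≠ 0 := by rw [ae_iff]; simp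
          have hae4 : ∀ᵐ x : ℝ, x ≠ y' := by rw [ae_iff]; simp
          apply intervalIntegral.integral_nonneg_of_ae_restrict hlt.le
          rw [Filter.EventuallyLE, ae_restrict_iff' measurableSet_Icc]
          filter_upwards [hae1, hae2, hae4] with x hx1 hx2 hx4 hx
          show (0 : ℝ) ≤ _
          apply intervalIntegral.integral_nonneg_of_ae_restrict hy'0.le
          rw [Filter.EventuallyLE, ae_restrict_iff' measurableSet_Icc]
          filter_upwards [hae2, hae3] with x' hx2' hx3' hx'
          show (0 : ℝ) ≤ _
          have hxlt : x < 1 := lt_of_le_of_ne (hx.2.trans hy1) hx1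
          have hx'0 : 0 < x' := lt_of_le_of_ne hx'.1 (Ne.symm hx3')
          have hxy : y' < x := lt_of_le_of_ne hx.1 (Ne.symm hx4)
          have hxx : x' < x := hx'.2.trans_lt hxy
          refine mul_nonneg (mul_nonneg (hrho x (by linarith) hxlt.le)
            (hrho x' hx'0.le (by linarith))) ?_
          refine ih M hMl _ _ hMn
            (Pool.Agent.Helper35.BO.good_cutG G u (by linarith) hx2' hbM)
            (Pool.Agent.Helper35.BO.good_cutG G u hxlt hx2 hbM) ?_
          intro w _
          exact Pool.Agent.Helper35.BO.cut_anti G u hxx b w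
        have h1 : 0 ≤ Tm G l (u :: M) (update b u y) (update b u y') *
            (Zf l (fun x => ZR G l M (cut G u (1 - x) b)) y' *
              Zf l (fun x => ZR G l M (cut G u (1 - x) b)) y) := le_trans (by linarith) t1
        have h2 := mul_pos (hZ y' hy'0 hy'1 hy'h) (hZ y hy0 hy1 hyh)
        exact nonneg_of_mul_nonneg_left h1 h2
    have hMany : ∀ M : List ℕ, M.Nodup → (∀ u ∈ M, u ∈ L) →
        0 ≤ Tm G l L b (fun u => if u ∈ M then b' u else b u) := by
      intro M
      induction M with
      | nil =>
        intro _ _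
        have : (fun u => if u ∈ ([] : List ℕ) then b' u else b u) = b := by
          funext u; simp
        rw [this, Pool.Agent.Helper75.BO.tm_self]
      | cons u M ihM =>
        intro hMn hML
        have huM : u ∉ M := (List.nodup_cons.mp hMn).1
        have huL : u ∈ L := hML u List.mem_cons_self
        have h1 := ihM (List.nodup_cons.mp hMn).2 fun w hw => hML w (List.mem_cons_of_mem _ hw)
        set h : ℕ → ℝ := fun w => if w ∈ M then b' w else b w with hh
        have hGh : Good L h := by
          intro w hw
          rw [hh]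
          by_cases hwM : w ∈ M
          · simp only [hwM, if_true]; exact hb' w hw
          · simp only [hwM, if_false]; exact hb w hw
        have hlh : ∀ w ∈ L, h w ≤ b w := by
          intro w hw
          rw [hh]
          by_cases hwM : w ∈ M
          · simp only [hwM, if_true]; exact hle w hw
          · simp only [hwM, if_false]; exact le_rfl
        have e1 : (fun w => if w ∈ (u :: M) then b' w else b w) = update h u (b' u) := by
          funext w
          by_cases hwu : w = u
          · subst hwu; simp
          · rw [update_of_ne hwu, hh]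
            simp [hwu]
        have e3 : h u = b u := by rw [hh]; simp [huM]
        have e2 : h = update h u (b u) := by
          rw [← e3, update_eq_self]
        have hlu : ∀ w ∈ L, update h u (b' u) w ≤ h w := by
          intro w hw
          by_cases hwu : w = u
          · subst hwu; rw [update_self, e3]; exact hle w hw
          · rw [update_of_ne hwu]
        rw [e1]
        have h2 := hOne u huL h hGh (b' u) (b u) (hb' u huL).1 (hb' u huL).2.1 (hb' u huL).2.2
          (hb u huL).1 (hb u huL).2.1 (hb u huL).2.2 (hle u huL)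
        rw [← e2] at h2
        have h3 := hTMA G l L b h (update h u (b' u)) hlh hlu
        linarith
    have hfin := hMany L hnd fun u hu => hu
    have hag : ∀ u ∈ L, (fun u => if u ∈ L then b' u else b u) u = b' u := by
      intro u hu; simp [hu]
    have hin' : In01 L (fun u => if u ∈ L then b' u else b u) := by
      intro u hu
      rw [hag u hu]
      exact hIn hb' u hu
    rw [hTMP G l L L b (fun u => if u ∈ L then b' u else b u) b b' (List.Perm.refl L) (hIn hb)
      hin' (fun _ _ => rfl) hag] at hfin
    exact hfin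

end Pool.Agent.Helper92.BO
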