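import Pool.Agent.Helper22.BO.LIP
import Pool.Agent.Helper94.BO.CAS
import Pool.Agent.Helper35.BO.CNT
import Pool.Agent.Helper56.BO.POS
import Pool.Agent.Helper30.BO.MON
import Pool.Agent.Helper8.BO.STR
import Pool.Agent.Helper42.BO.PRM
import Pool.Agent.Helper75.BO.LOC
import Pool.Agent.Helper17.BO.SRA
import Pool.Agent.Helper65.BO.SRB
import Pool.Agent.Helper32.BO.SRC
import Pool.Agent.Helper2.BO.SRD
import Pool.Agent.Helper94.BO.ZRM
import Pool.Agent.Helper30.BO.TMM
import Pool.Agent.Helper85.BO.TMA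
import Pool.Agent.Helper51.BO.TMP
import Pool.Agent.Helper65.BO.TMB
import Pool.Agent.Helper31.BO.CHN
import Pool.Agent.Helper89.BO.ZDU
import Pool.Agent.Helper39.BO.CGN
import Pool.Agent.Helper35.BO.CGD
import Pool.Agent.Helper49.BO.CGF
import Pool.Agent.Helper35.BO.CHG
import Pool.Agent.Helper75.BO.CIG
import Pool.Agent.Helper24.BO.SMI
import Pool.Agent.Helper7.BO.ZNG
import Pool.Agent.Helper94.BO.INT
import Pool.Agent.Helper75.BO.VLG
import Pool.Agent.Helper31.BO.SPL
import Pool.Agent.Helper24.BO.SCL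
import Pool.Agent.Helper30.BO.SMX
import Pool.Agent.Helper32.BO.PVR
import Pool.Agent.Helper85.BO.PVZ
import Pool.Agent.Helper79.BO.PRC
import Pool.Agent.Helper92.BO.Pin
import Pool.Agent.Helper49.BO.PML
import Pool.Agent.Helper67.BO.AFF
import Pool.Agent.Helper92.BO.Pol
import Pool.Agent.Helper59.BO.NSE
import Pool.Agent.Helper42.BO.MDG
import Pool.Agent.Helper81.BO.MSP
import Pool.Agent.Helper40.BO.MOB
import Pool.Agent.Helper75.BO.WAL
import Pool.Agent.Helper75.BO.WKV
import Pool.Agent.Helper77.BO.SBL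
import Pool.Agent.Helper59.BO.RLB
import Pool.Agent.Helper60.BO.CTB
import Pool.Agent.Helper89.BO.YVV
import Pool.Agent.Helper49.BO.NSV
import Pool.Agent.Helper58.BO.WTV
import Pool.Agent.Helper56.BO.QMD
import Pool.Agent.Helper32.BO.TOT
import Pool.Agent.Helper77.BO.RTL
import Pool.Agent.Helper59.BO.ITP
import Pool.Agent.Helper75.BO.FPH
import Pool.Agent.Helper94.BO.EXB
import Pool.Agent.Helper59.BO.FAP
import Pool.Agent.Helper32.BO.EXV
import Pool.Agent.Helper70.BO.PMT
import Pool.Agent.Helper69.BO.EDJ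
import Pool.Agent.Helper31.BO.PTG
import Pool.Agent.Helper8.BO.PTK
import Pool.Agent.Helper24.BO.PTD
import Pool.Agent.Helper81.BO.PTL
import Pool.Agent.Helper40.BO.PTC
import Pool.Agent.Helper77.BO.PTN
import Pool.Agent.Helper17.BO.PTT
import Pool.Agent.Helper39.BO.PTP
import Pool.Agent.Helper94.BO.PTU
import Pool.Agent.Helper7.BO.PTZ
import Pool.Agent.Helper34.FR.TRR
import Pool.Agent.Helper92.BO.FinP
import Pool.Agent.Helper92.BO.SMV
import Pool.Agent.Helper92.BO.SMO
import Pool.Agent.Helper92.BO.ADM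
import Pool.Agent.Helper92.BO.PHB
import Pool.Agent.Helper92.BO.TNN
import Pool.Agent.Helper15.BO.MID
import Pool.Agent.Helper77.BO.TMS

/-!
# Pair systems: the theorem
-/

namespace Pool.Agent.Helper92.BO

open Pool.Agent

/-- The zero-free region for all graphs of bounded degree. -/
theorem zngP : ZngStmt := by
  have lip : LipStmt := Helper22.BO.lip
  have cas : CasStmt := Helper94.BO.cas
  have cnt : CntStmt := Helper35.BO.cnt lip cas
  have pos : PosStmt := Helper56.BO.pos cnt
  have loc : LocStmt := Helper75.BO.loc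
  have prm : PrmStmt := Helper42.BO.prm lip cas
  have mon : MonStmt := Helper30.BO.mon cnt pos
  have str : StrStmt := Helper8.BO.str loc cnt pos mon
  have admS : AdmStmt := adm cnt pos mon str prm loc
  have tmm : TmmStmt := Helper30.BO.tmm Helper94.BO.zrm
  have phbS : PhbStmt := phb cnt pos mon prm
  have tmb : TmbStmt := Helper65.BO.tmb phbS
  have tma : TmaStmt := Helper85.BO.tma
  have tmp : TmpStmt := Helper51.BO.tmp prm loc
  have chn : ChnStmt := Helper31.BO.chn cnt lip cas prm loc pos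
  have mid : MidStmt := Helper15.BO.mid chn cnt pos phbS tmm
  have tms : TmsStmt := Helper77.BO.tms mid (Helper89.BO.zdu loc) phbS loc pos cnt tmm
  have tnnS : TnnStmt := tnn tms tma tmp admS Helper2.BO.srd pos loc
  have cgn : CgnStmt := Helper39.BO.cgn
  have cgd : CgdStmt := Helper35.BO.cgd cgn
  have cgf : CgfStmt := Helper49.BO.cgf cgn cgd Helper17.BO.sra Helper65.BO.srb Helper32.BO.src
    Helper2.BO.srd
  have chg : ChgStmt := Helper35.BO.chg admS cnt tmm tmb tnnS
  have cig : CigStmt := Helper75.BO.cig chg cgn cgf tms tnnS tma tmp prm loc pos Helper2.BO.srd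
    admS
  have smi : SmiStmt := Helper24.BO.smi (smv cnt) smo prm loc
  exact Helper7.BO.zng cig smi

/-- The volumes of pair systems of bounded degree can be approximated with relative error `1/q` in
deterministic polynomial time. -/
theorem pairApprox (Δ : ℕ) : PairApprox Δ := by
  have int : IntStmt := Helper94.BO.int
  have vlg : VlgStmt := Helper75.BO.vlg int
  have smx : SmxStmt := Helper30.BO.smx Helper24.BO.scl
  have prc : PrcStmt := Helper79.BO.prc (Helper32.BO.pvr smx) Helper85.BO.pvz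
  have pml : PmlStmt := Helper49.BO.pml prc
  have polS : PolStmt := pol (Helper31.BO.spl int) Helper67.BO.aff
  have nse : NseStmt := Helper59.BO.nse
  have mob : MobStmt := Helper40.BO.mob Helper42.BO.mdg Helper81.BO.msp
  have wkv : WkvStmt := Helper75.BO.wkv Helper75.BO.wal
  have sbl : SblStmt := Helper77.BO.sbl
  have rlb : RlbStmt := Helper59.BO.rlb
  have ctb : CtbStmt := Helper60.BO.ctb sbl prc (pin prc) rlb
  have tot : TotStmt := Helper32.BO.tot ctb (Helper89.BO.yvv sbl) Helper49.BO.nsv Helper58.BO.wtv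
    wkv Helper56.BO.qmd sbl rlb mob pml prc nse
  have itp : ItpStmt := Helper59.BO.itp Helper77.BO.rtl
  have ptg : PtgStmt := Helper31.BO.ptg
  have ptl : PtlStmt := Helper81.BO.ptl
  have ptd : PtdStmt := Helper24.BO.ptd (Helper8.BO.ptk ptg)
  have ptt : PttStmt := Helper17.BO.ptt (Helper40.BO.ptc ptg ptl) ptl Helper77.BO.ptn
  have ptz : PtzStmt := Helper7.BO.ptz Helper94.BO.ptu ptd Helper39.BO.ptp ptt
  exact pairApprox_of zngP vlg polS prc nse Helper75.BO.fph itp Helper94.BO.exb Helper59.BO.fap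
    Helper69.BO.edj tot Helper32.BO.exv Helper70.BO.pmt ptz Helper34.FR.trr Δ

end Pool.Agent.Helper92.BO
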