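import Pool.Agent.Helper92.BO.GoalsB
import Pool.Agent.Helper92.BO.GoalsE
import Pool.Agent.Helper92.BO.GoalsF
import Pool.Agent.Helper92.FR.GoalsB

/-!
# Stable set polytopes: assembly
-/

namespace Pool.Agent.Helper92.BO

open MeasureTheory Pool.Agent.Helper81.CC Pool.Agent.Bin Pool.Agent.Helper92.VP
open Pool.Agent.Helper92.FR

theorem val_invTwo : Qn.val (invNat 2) = 1 / 2 := by
  simp only [invNat, Qn.val, BN.val_sub, BN.val_ofNat]
  norm_num

theorem yc_zero (p : Finset ℕ → ℝ) (T : Finset ℕ) : yc p T 0 = p ∅ := by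
  simp [yc]

theorem yc_big (p : Finset ℕ → ℝ) (n i : ℕ) (h : n < i) : yc p (Finset.range n) i = 0 := by
  unfold yc
  rw [Finset.powersetCard_eq_empty.mpr (by simpa using h)]
  simp

theorem sum_yc (hpol : PolStmt) (G : SimpleGraph ℕ) (n : ℕ) (w : ℂ) :
    ∑ i ∈ Finset.range (n + 1), ((yc (pG G n) (Finset.range n) i : ℝ) : ℂ) * w ^ i =
      (2 : ℂ) ^ n * ZC G w (List.range n) (fun _ => 1) := by
  rw [hpol G n w, Finset.sum_powerset, Finset.card_range]
  refine Finset.sum_congr rfl fun i _ => ?_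
  unfold yc
  push_cast
  rw [Finset.sum_mul]
  refine Finset.sum_congr rfl fun I hI => ?_
  rw [(Finset.mem_powersetCard.mp hI).2, mul_comm]

theorem bipStabApprox_of (hznf : ZnfStmt) (hvlg : VlgStmt) (hpol : PolStmt) (hprc : PrcStmt)
    (hnse : NseStmt) (hfph : FphStmt) (hitp : ItpStmt) (hexb : ExbStmt) (hfap : FapStmt)
    (hedg : EdgStmt) (htot : TotStmt) (hexv : ExvStmt) (hpmt : PmtStmt) (hptm : PtmStmt)
    (htrr : TrrStmt) (Δ : ℕ) : BipStabApprox Δ := by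
  obtain ⟨δ, hδ, hz⟩ := hznf Δ
  obtain ⟨fl, D, β, hD, hβ, hf0, hfs, hmap⟩ := hfph δ hδ
  obtain ⟨C, c1, hpar⟩ := hpmt β fl.length (Δ ^ 2 + 1) hβ (Nat.le_add_left 1 _)
  refine ⟨mainB Δ fl D (Δ ^ 2 + 1) C c1,
    (hptm Δ fl D (Δ ^ 2 + 1) C c1 fun n q => (hpar n q).2.1).computable, ?_⟩
  intro S q hS hq
  obtain ⟨⟨s, hs⟩, hdeg, hsol⟩ := hedg Δ S hS
  obtain ⟨hp1, hp2, hp3⟩ := hpar S.1 q
  obtain ⟨c1', c2', -, -⟩ := hprc (gE (edgesS S)) S.1
  set n := S.1 with hn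
  set G := gE (edgesS S) with hG
  set y : ℕ → ℝ := yc (pG G n) (Finset.range n) with hy
  have y0 : y 0 = 1 := by rw [hy, yc_zero, c1']
  have ybig : ∀ i, n < i → y i = 0 := fun i hi => yc_big _ _ _ hi
  have ynn : ∀ i, 0 ≤ y i := fun i => Finset.sum_nonneg fun I _ => (c2' I).1
  obtain ⟨s0, hs0⟩ := hnse.1 y y0
  have hsum : ∀ w : ℂ, ∑ i ∈ Finset.range (n + 1), ((y i : ℝ) : ℂ) * w ^ i =
      (2 : ℂ) ^ n * ZC G w (List.range n) (fun _ => 1) := sum_yc hpol G n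
  have hne : ∀ (w : ℂ) (t : ℝ), 0 ≤ t → t ≤ 1 → ‖w - t‖ ≤ δ →
      ∑ i ∈ Finset.range (n + 1), ((y i : ℝ) : ℂ) * w ^ i ≠ 0 := by
    intro w t ht0 ht1 hw
    rw [hsum]
    exact mul_ne_zero (pow_ne_zero _ two_ne_zero) (hz G s hs hdeg _ List.nodup_range w t ht0 ht1 hw)
  set Y : ℝ := ∑ i ∈ Finset.range (n + 1), y i with hY
  have hY1 : 1 ≤ Y := by
    rw [hY, ← y0]
    exact Finset.single_le_sum (f := y) (fun i _ => ynn i) (Finset.mem_range.mpr (by omega))
  have hYvol : Y = 2 ^ n * vol (sol S) := by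
    have h1 := hsum 1
    rw [hvlg G n] at h1
    simp only [one_pow, mul_one] at h1
    have h2 : ((Y : ℝ) : ℂ) = ((2 ^ n * (volume (polyG G n)).toReal : ℝ) : ℂ) := by
      rw [hY]
      push_cast
      exact h1
    have h3 := Complex.ofReal_injective h2
    rw [h3, hsol]
    rfl
  have hYle : Y ≤ 2 ^ n := by
    have h1 : Y = ∑ I ∈ (Finset.range n).powerset, pG G n I := by
      rw [Finset.sum_powerset, Finset.card_range]
      rfl
    rw [h1]
    refine (Finset.sum_le_sum fun I _ => (c2' I).2).trans ?_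
    rw [Finset.sum_const, Finset.card_powerset, Finset.card_range]
    simp
  have hXn : Real.log Y ≤ n := by
    refine (Real.log_le_log (by linarith) hYle).trans ?_
    rw [Real.log_pow]
    have h1 : Real.log 2 ≤ 1 := by
      have := Real.log_two_lt_d9
      linarith
    nlinarith [(Nat.cast_nonneg n : (0 : ℝ) ≤ n)]
  have hX0 : 0 ≤ Real.log Y := Real.log_nonneg hY1
  have hT := htot Δ fl D (edgesS S) n (Δ ^ 2 + 1) (mP C n q) ((n + q + 2) ^ c1) s0 hD hdeg le_rfl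
    hp1 hs0
  set τ := tot Δ fl D (edgesS S) n (Δ ^ 2 + 1) (mP C n q) ((n + q + 2) ^ c1) with hτ
  have herr : |Real.log Y - τ.val| ≤ 1 / (8 * q) := by
    rw [hT]
    exact (hitp fl D β δ hD hβ hf0 hfs hmap n (mP C n q) y s0 y0 ybig hs0 hne
      (by linarith)).trans (hp3 hq)
  have hq1 : (1 : ℝ) ≤ q := by exact_mod_cast hq
  have hq8 : 1 / (8 * (q : ℝ)) ≤ 1 / 8 := by
    apply one_div_le_one_div_of_le <;> linarith
  have habs := abs_le.mp herr
  have hK := hexb τ.val (n + 1) q (8 * (n + 1 + q)) (by omega) hq (by linarith)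
    (by push_cast; linarith) le_rfl
  have hV := hfap τ.val (Real.log Y) _ q hq herr hK
  rw [Real.exp_log (by linarith)] at hV
  have hmain : (mainB Δ fl D (Δ ^ 2 + 1) C c1 (S, q)).val =
      (1 / 2) ^ n * ∑ k ∈ Finset.range (8 * (n + 1 + q) + 1), τ.val ^ k / (k.factorial : ℝ) := by
    simp only [mainB]
    rw [htrr, Qn.val_mul, hexv, Qn.val_prod, List.map_replicate, List.prod_replicate, val_invTwo]
  rw [hmain]
  have hvol : vol (sol S) = (1 / 2) ^ n * Y := by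
    rw [hYvol, ← mul_assoc, ← mul_pow]
    norm_num
  rw [hvol, ← mul_sub, abs_mul, abs_of_nonneg (by positivity : (0 : ℝ) ≤ (1 / 2) ^ n),
    mul_div_assoc]
  exact mul_le_mul_of_nonneg_left hV (by positivity)

end Pool.Agent.Helper92.BO
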