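import Pool.Agent.Helper92.BO.StmtG
import Pool.Agent.Helper92.BO.GoalsE

/-!
# Stable set polytopes: goals, part H
-/

namespace Pool.Agent.Helper92.BO

open Pool.Agent.Helper81.CC Pool.Agent.Bin Pool.Agent.Helper92.VP Pool.Agent.Helper92.FR

/-- EDH. The proof is that of EDG (`Pool/Agent/Helper85/BO/EDG.lean`) without the signs. -/
def EdhStmt : Prop := ∀ (Δ : ℕ) (S : Sys), StabSys Δ S → DegLe (gE (edgesS S)) Δ ∧
  sol S = polyG (gE (edgesS S)) S.1

end Pool.Agent.Helper92.BO
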