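import Pool.Agent.Helper92.BO.Real

/-!
# Stable set polytopes: goals, part A (real analysis)

Notation in the docstrings: `c_x = cut G v (1 - x) b`, `W x = ZR G l L c_x`. `update b v y` is
`Function.update b v y`. For `v ∉ L` the functions `cut G v c (update b v y)` and `cut G v c b` agree
on `L`, so (LOC) `ZR G l (v :: L) (update b v y) = Zf l W y`. All goals of this file may be used as
hypotheses of each other as long as this is not circular; each docstring says what it needs.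
-/

namespace Pool.Agent.Helper92.BO

open MeasureTheory Filter Topology Function

/-- CAS. Proof: induction on `L`; `intervalIntegral.integral_ofReal`; `psi l x = psiR l x`. -/
def CasStmt : Prop := ∀ (G : SimpleGraph ℕ) (l : ℝ) (L : List ℕ) (b : ℕ → ℝ),
  ZC G (l : ℂ) L b = ((ZR G l L b : ℝ) : ℂ)

/-- LOC. Everything depends only on the bounds on `L`. Proof: induction on `L`; if `b = b'` on
`v :: L` then `cut G v c b = cut G v c b'` on `L`. -/
def LocStmt : Prop := ∀ (G : SimpleGraph ℕ) (s : ℕ → ℝ) (z : ℂ) (l : ℝ) (L : List ℕ)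
  (b b' : ℕ → ℝ), (∀ u ∈ L, b u = b' u) → ZC G z L b = ZC G z L b' ∧ ZR G l L b = ZR G l L b' ∧
    KR G s l L b = KR G s l L b'

/-- LIP. Proof: both statements together by induction on `L`. For `v :: L`: for `x ∈ [0, 1]` the
bounds `c_x` are in `[0, 1]` on `L`, and `|c_x u - c_x' u| ≤ |x - x'|`, so by induction
`x ↦ ZC G z L c_x` is Lipschitz on `[0, 1]` and `psi z x * ZC G z L c_x` is interval integrable with
norm `≤ M ^ (L.length + 1)`. The difference: change of the upper limit: at most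
`|b v - b' v| * M ^ (L.length + 1)`; change of the integrand: `|min (b u) c - min (b' u) c| ≤
|b u - b' u|`, integrated over an interval of length `≤ 1`. -/
def LipStmt : Prop := ∀ (G : SimpleGraph ℕ) (z : ℂ) (M : ℝ), 1 ≤ M → ‖z‖ ≤ M →
  ∀ (L : List ℕ) (b b' : ℕ → ℝ), In01 L b → In01 L b' → ‖ZC G z L b‖ ≤ M ^ L.length ∧
    ‖ZC G z L b - ZC G z L b'‖ ≤ M ^ L.length * (L.map fun u => |b u - b' u|).sum

/-- CNT. Proof: from LIP (with `M = max 1 ‖z‖`) and CAS. -/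
def CntStmt : Prop := ∀ (G : SimpleGraph ℕ) (z : ℂ) (l : ℝ) (L : List ℕ) (v : ℕ) (b : ℕ → ℝ),
  In01 L b → ContinuousOn (fun x => ZC G z L (cut G v (1 - x) b)) (Set.Icc 0 1) ∧
    ContinuousOn (fun x => ZR G l L (cut G v (1 - x) b)) (Set.Icc 0 1) ∧
    IntervalIntegrable (fun x => psi z x * ZC G z L (cut G v (1 - x) b)) volume 0 1 ∧
    IntervalIntegrable (fun x => psiR l x * ZR G l L (cut G v (1 - x) b)) volume 0 1

/-- PRM. Invariance under permutations. Proof (may assume LIP, CNT, CAS, LOC): induction on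
`List.Perm`. The case `v :: L`, `v :: L'` (In01 holds for `c_x`, `x ∈ [0, 1]`) and transitivity are
immediate. The swap of `v`, `w`: if `v = w` nothing to do. If `v ≁ w` then
`cut G v c b w = b w`, the cuts commute (`min (min b c) c'` is symmetric), and both sides are the
integral of `psi z x * psi z y * ZC G z L (cut G w (1 - y) (cut G v (1 - x) b))` over the rectangle
`(0, b v] × (0, b w]` (Fubini, the function is bounded and, by LIP, `ZC …` is continuous in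
`(x, y) ∈ [0,1]²`). If `v ~ w`: the domain is `{0 < x ≤ b v, 0 < y ≤ min (b w) (1 - x)}`, i.e.
`{0 < x ≤ b v, 0 < y ≤ b w, x + y ≤ 1}`, symmetric. The version for `ZR` by CAS. -/
def PrmStmt : Prop := ∀ (G : SimpleGraph ℕ) (z : ℂ) (l : ℝ) (L L' : List ℕ) (b : ℕ → ℝ),
  L.Perm L' → In01 L b → ZC G z L b = ZC G z L' b ∧ ZR G l L b = ZR G l L' b

/-- POS. Proof (may assume CNT): induction on `L`. For `0 ≤ x < 1` the bounds `c_x` are positive if
`b` is; the integrand is positive on `(0, b v)`. -/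
def PosStmt : Prop := ∀ (G : SimpleGraph ℕ) (l : ℝ) (L : List ℕ) (b : ℕ → ℝ), 0 < l → l ≤ 1 →
  (In01 L b → 0 ≤ ZR G l L b ∧ ZR G l L b ≤ 1) ∧ (Pos1 L b → 0 < ZR G l L b)

/-- MON. Proof (may assume CNT, POS): induction on `L`. -/
def MonStmt : Prop := ∀ (G : SimpleGraph ℕ) (l : ℝ) (L : List ℕ) (b b' : ℕ → ℝ), 0 < l → l ≤ 1 →
  In01 L b → In01 L b' → (∀ u ∈ L, b u ≤ b' u) → ZR G l L b ≤ ZR G l L b'

/-- STR. Proof (may assume CNT, POS, MON, LOC): `ZR G l (v :: L) (update b v y) = Zf l W y` and the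
density `rho l W` is nonnegative and antitone on `[0, 1]` (`W` is antitone by MON, `psiR l` is
antitone since `l ≤ 1`), so `y * ∫ x in 0..y', rho ≥ y' * ∫ x in 0..y, rho`. -/
def StrStmt : Prop := ∀ (G : SimpleGraph ℕ) (l : ℝ) (L : List ℕ) (v : ℕ) (b : ℕ → ℝ) (y' y : ℝ),
  0 < l → l ≤ 1 → v ∉ L → In01 L b → 0 < y' → y' ≤ y → y ≤ 1 →
    ZR G l (v :: L) (update b v y) * y' ≤ ZR G l (v :: L) (update b v y') * y

/-- ADM. Proof (may assume CNT, POS, MON, STR, PRM, LOC): continuity CNT, positivity POS, antitone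
MON. `rat`: let `u_1, …, u_k` (`k ≤ Δ`) be the neighbours of `v` in `L`. If `k = 0` then `W` is
constant and `(1 - x) ^ Δ ≤ (1 - x') ^ Δ`. If `k ≥ 1` and `x = 1` the left side is `0`. Let `x < 1`.
Change the bounds `c_x'` to `c_x` on `u_1`, …, `u_k` one after another; when the bound of `u_i` is
changed from `B' = min (b u_i) (1 - x')` to `B = min (b u_i) (1 - x)`, STR (after moving `u_i` to the
head with PRM; `L` has no duplicates) gives `ZR (old) * B ≤ ZR (new) * B'`, and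
`B' * (1 - x) ≤ B * (1 - x')`; so `ZR (old) * (1 - x) ≤ ZR (new) * (1 - x')`. Altogether
`W x' * (1 - x) ^ k ≤ W x * (1 - x') ^ k`; multiply by `(1 - x) ^ (Δ - k) ≤ (1 - x') ^ (Δ - k)`. -/
def AdmStmt : Prop := ∀ (G : SimpleGraph ℕ) (Δ : ℕ) (l : ℝ) (L : List ℕ) (v : ℕ) (b : ℕ → ℝ),
  DegLe G Δ → 0 < l → l ≤ 1 → L.Nodup → v ∉ L → Pos1 L b →
    Adm Δ (fun x => ZR G l L (cut G v (1 - x) b))

/-- FOU. The four functions theorem on the line. Proof: for all `x`, `x'`: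
`f1 x * f2 x' + f1 x' * f2 x ≤ f3 x * f4 x' + f3 x' * f4 x`. Indeed let `x ≤ x'`, `A = f1 x * f2 x'`,
`B = f1 x' * f2 x`, `C = f3 x' * f4 x`, `D = f3 x * f4 x'`; then `A ≤ C`, `B ≤ C`, and
`A * B = (f1 x * f2 x) * (f1 x' * f2 x') ≤ (f3 x * f4 x) * (f3 x' * f4 x') = C * D`; if `C = 0` then
`A = B = 0`; otherwise `(C - A) * (C - B) ≥ 0` gives `C * (A + B) ≤ C * C + A * B ≤ C * (C + D)`.
Integrate over the plane. -/
def FouStmt : Prop := ∀ f1 f2 f3 f4 : ℝ → ℝ, (∀ x, 0 ≤ f1 x) → (∀ x, 0 ≤ f2 x) →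
  (∀ x, 0 ≤ f3 x) → (∀ x, 0 ≤ f4 x) → Integrable f1 → Integrable f2 → Integrable f3 →
  Integrable f4 → (∀ x x', f1 x * f2 x' ≤ f3 (max x x') * f4 (min x x')) →
    (∫ x, f1 x) * (∫ x, f2 x) ≤ (∫ x, f3 x) * ∫ x, f4 x

/-- LSM. Log-supermodularity. Proof (may assume FOU, MON, POS, CNT): induction on `L`. For `v :: L`
let `F b x = psiR l x * ZR G l L (cut G v (1 - x) b)` if `0 < x ≤ b v` and `0` otherwise;
`ZR G l (v :: L) b = ∫ x, F b x`. Let `s v = 1`. FOU with `f1 = F b`, `f2 = F b'`,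
`f3 = F (jn s b b')`, `f4 = F (mt s b b')`: let `0 < x ≤ b v`, `0 < x' ≤ b' v`, `X = max x x'`,
`m = min x x'`; then `X ≤ jn s b b' v`, `m ≤ mt s b b' v`, `psiR l x * psiR l x' =
psiR l X * psiR l m`, and by induction for `p = cut G v (1 - x) b`, `p' = cut G v (1 - x') b'`:
`ZR p * ZR p' ≤ ZR (jn s p p') * ZR (mt s p p')`. On `L`: `jn s p p' = cut G v (1 - X) (jn s b b')`
(a neighbour `u` of `v` has `s u = -1`, both are `min (b u) (b' u) (1 - X)`) and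
`mt s p p' ≤ cut G v (1 - m) (mt s b b')` (for a neighbour: `max (min (b u) (1 - x))
(min (b' u) (1 - x')) ≤ min (max (b u) (b' u)) (1 - m)`); use MON. If `s v = -1` use FOU with
`f3 = F (mt s b b')`, `f4 = F (jn s b b')`: now `X ≤ mt s b b' v`, `m ≤ jn s b b' v`, a neighbour `u`
has `s u = 1`, `mt s p p' = cut G v (1 - X) (mt s b b')`, `jn s p p' ≤ cut G v (1 - m) (jn s b b')`
on `L`. -/
def LsmStmt : Prop := ∀ (G : SimpleGraph ℕ) (s : ℕ → ℝ) (l : ℝ), Sgn G s → 0 < l → l ≤ 1 →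
  ∀ (L : List ℕ) (b b' : ℕ → ℝ), In01 L b → In01 L b' →
    ZR G l L b * ZR G l L b' ≤ ZR G l L (jn s b b') * ZR G l L (mt s b b')

/-- TRC. The recursion along the flow. Proof (may assume CNT, LOC, POS): substitution
`z = g x = x - s v * t * (x * (1 - x))`, a smooth increasing bijection of `[0, 1]`
(`g' x = 1 - s v * t * (1 - 2 x) ≥ 1 / 2`), in `∫ z in 0..(gt s t b v)`; on `L`
`cut G v (1 - g x) (gt s t b) = gt s t (cut G v (1 - x) b)`, because for `u ~ v` (`s u = - s v`)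
`1 - g x = (1 - x) - s u * t * ((1 - x) * x)` is the image of `1 - x` under the increasing map
`y ↦ y - s u * t * (y * (1 - y))` of `[0, 1]`. -/
def TrcStmt : Prop := ∀ (G : SimpleGraph ℕ) (s : ℕ → ℝ) (l t : ℝ), Sgn G s → 0 ≤ t → t ≤ 1 / 2 →
  0 < l → l ≤ 1 → ∀ (v : ℕ) (L : List ℕ) (b : ℕ → ℝ), In01 (v :: L) b →
    ZR G l (v :: L) (gt s t b) = ∫ x in (0 : ℝ)..(b v), psiR l (x - s v * t * (x * (1 - x))) *
      (1 - s v * t * (1 - 2 * x)) * ZR G l L (gt s t (cut G v (1 - x) b))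

/-- LIM. Proof (may assume TRC, LIP, CAS, CNT, LOC, POS): induction on `L` for all `b`. By LIP
`|ZR G l L (gt s t b) - ZR G l L b| ≤ L.length * t` for `b ∈ [0, 1]`. For `v :: L` write `g x =
x - s v * t * (x * (1 - x))`, `Z_t x = ZR G l L (gt s t c_x)`; the quotient is
`∫ x in 0..(b v), psiR l (g x) * (- s v * (1 - 2 x)) * Z_t x +
 ∫ x in 0..(b v), psiR l (g x) * ((Z_t x - Z_0 x) / t) +
 ∫ x in 0..(b v), ((psiR l (g x) - psiR l x) / t) * Z_0 x`.
The first two converge by dominated convergence: for `0 < x < 1`, `x ≠ 1/2`,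
`psiR l (g x) = psiR l x` for small `t`, `Z_t x → Z_0 x`, and `c_x` is `Good` on `L`
(`min (b u) (1 - x)` is positive and not `1/2`), so `(Z_t x - Z_0 x) / t → KR G s l L c_x`, bounded
by `L.length`. The third: if `s v = 1` then `psiR l (g x) - psiR l x = 1 - l` for
`1/2 < x ≤ θ` and `0` otherwise, where `g θ = 1/2`, `θ > 1/2`, `θ - 1/2 = t θ (1 - θ)`, so
`(θ - 1/2) / t → 1/4`; as `Z_0` is continuous at `1/2`, the limit is `(1 - l) / 4 * Z_0 (1/2)` if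
`b v > 1/2` and `0` if `b v < 1/2`. If `s v = -1`: `psiR l (g x) - psiR l x = l - 1` for
`θ' < x ≤ 1/2` with `g θ' = 1/2`, `1/2 - θ' = t θ' (1 - θ')`, the limit is `- (1 - l) / 4 * Z_0 (1/2)`
if `b v > 1/2`, and `0` if `b v < 1/2`. -/
def LimStmt : Prop := ∀ (G : SimpleGraph ℕ) (s : ℕ → ℝ) (l : ℝ), Sgn G s → 0 < l → l ≤ 1 →
  ∀ (L : List ℕ) (b : ℕ → ℝ), Good L b →
    Tendsto (fun t : ℝ => (ZR G l L (gt s t b) - ZR G l L b) / t) (𝓝[>] 0) (𝓝 (KR G s l L b))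

/-- KBD. Proof (may assume POS, CNT): the bound: induction on `L` (`|psiR l x| ≤ 1`,
`|2 x - 1| ≤ 1`, `0 ≤ ZR ≤ 1`). Measurability (product σ-algebra on `ℕ → ℝ`), together with the
measurability of `b ↦ ZR G l L b`: induction on `L`; `(b, x) ↦ cut G v (1 - x) b` is measurable and
`b ↦ ∫ x in 0..(b v), f b x` is measurable for measurable `f` (write the interval integral as
`∫ x, (indicator of (0, b v]) * f b x - ∫ x, (indicator of (b v, 0]) * f b x`,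
`StronglyMeasurable.integral_prod_right`). -/
def KbdStmt : Prop := ∀ (G : SimpleGraph ℕ) (s : ℕ → ℝ) (l : ℝ), Sgn G s → 0 < l → l ≤ 1 →
  ∀ (L : List ℕ), (∀ b, In01 L b → |KR G s l L b| ≤ 2 * L.length) ∧
    (Measurable fun b : ℕ → ℝ => KR G s l L b) ∧
    ∀ (v : ℕ) (b : ℕ → ℝ), In01 L b →
      IntervalIntegrable (fun x => KR G s l L (cut G v (1 - x) b)) volume 0 1

/-- KPM. Proof (may assume LIM, PRM): uniqueness of the limit. -/
def KpmStmt : Prop := ∀ (G : SimpleGraph ℕ) (s : ℕ → ℝ) (l : ℝ), Sgn G s → 0 < l → l ≤ 1 →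
  ∀ (L L' : List ℕ) (b : ℕ → ℝ), L.Perm L' → Good L b → KR G s l L b = KR G s l L' b

/-- KID. The recursion for the potential. Proof (may assume KBD, CNT, POS, LOC): with
`f x = 2 x - 1 + J x` (and `s v * s v = 1`): `s v * KR G s l (v :: L) (update b v y) =
∫ x in 0..y, rho l W x * f x + (if 1/2 < y then (1 - l) / 4 * W (1/2) else 0)` because
`KR G s l L c_x = W x * JR G s l L c_x` for `0 ≤ x < 1` (`W x > 0`). So the left side is
`s v * KR (y) * Zf y' - s v * KR (y') * Zf y`, and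
`(∫ x in 0..y, rho f) * (∫ x in 0..y', rho) - (∫ x in 0..y', rho f) * (∫ x in 0..y, rho) =
(∫ x in y'..y, rho f) * (∫ x in 0..y', rho) - (∫ x in 0..y', rho f) * (∫ x in y'..y, rho)`. -/
def KidStmt : Prop := ∀ (G : SimpleGraph ℕ) (s : ℕ → ℝ) (l : ℝ), Sgn G s → 0 < l → l ≤ 1 →
  ∀ (L : List ℕ) (v : ℕ) (b : ℕ → ℝ), v ∉ L → Good L b → ∀ y' y : ℝ, 0 < y' → y' < y → y ≤ 1 →
    s v * (JR G s l (v :: L) (update b v y) - JR G s l (v :: L) (update b v y')) *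
      (Zf l (fun x => ZR G l L (cut G v (1 - x) b)) y' *
        Zf l (fun x => ZR G l L (cut G v (1 - x) b)) y) =
    Sf l (fun x => ZR G l L (cut G v (1 - x) b)) y' y +
      Cf l (fun x => ZR G l L (cut G v (1 - x) b))
        (fun x => s v * JR G s l L (cut G v (1 - x) b)) y' y

/-- FLP. Proof: induction on `L`. -/
def FlpStmt : Prop := ∀ (G : SimpleGraph ℕ) (s : ℕ → ℝ) (l : ℝ) (L : List ℕ) (b : ℕ → ℝ),
  KR G (fun v => - s v) l L b = - KR G s l L b ∧ (Sgn G s → Sgn G fun v => - s v)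

/-- PTW. The potential moves at most like that of a single coordinate. Proof (may assume LIM, LSM,
CNT, LOC, POS): let `N b = ZR G l (v :: L) b`, `g y = y - t * (y * (1 - y))`, small `t > 0`. LSM with
`p = update b v (g y')` and `p' = gt s t (update b v y)`: on `v :: L` the join is
`update b v (g y)` and the meet is `gt s t (update b v y')` (bounds of positive vertices go down
along the flow, those of negative vertices go up). So
`log N (gt s t (update b v y)) - log N (gt s t (update b v y')) ≤ log N (update b v (g y)) -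
log N (update b v (g y'))`. Subtract `log N (update b v y) - log N (update b v y')`, divide by `t`,
let `t → 0`: the left side tends to `JR (y) - JR (y')` (LIM, and the derivative of `log`; `N > 0`),
the right side to `- y (1 - y) rho y / Zf y + y' (1 - y') rho y' / Zf y'`
(`N (update b v y) = Zf l W y` has the derivative `rho l W y` at `y ≠ 1/2`, `0 < y < 1`; for
`y = 1` both sides of the term are `0` because `g 1 = 1`). -/
def PtwStmt : Prop := ∀ (G : SimpleGraph ℕ) (s : ℕ → ℝ) (l : ℝ), Sgn G s → 0 < l → l ≤ 1 →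
  ∀ (L : List ℕ) (v : ℕ) (b : ℕ → ℝ), v ∉ L → s v = 1 → Good L b → ∀ y' y : ℝ, 0 < y' → y' < y →
    y ≤ 1 → y' ≠ 1 / 2 → y ≠ 1 / 2 →
    JR G s l (v :: L) (update b v y) - JR G s l (v :: L) (update b v y') ≤
      Mf l (fun x => ZR G l L (cut G v (1 - x) b)) y' y

/-! ### One variable -/

/-- SRA. Proof: write `ρ = rho l W` (antitone, nonnegative on `[0, 1]`), `Z = Zf l W y`,
`Z' = Zf l W y'`, `θ = (1 - y) / (1 - y')`, `m y = y ρ y / Z`. Since `ρ` is antitone `m ≤ 1`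
and `Z / Z' ≤ y / y'`, and `ρ y ≥ ρ y' θ^d` (`rat`), so `m y ≥ m y' θ^d`, hence
`Mf = m y' (1 - y') - m y (1 - y) ≤ m y' (1 - y') (1 - θ^(d+1)) ≤ (1 - y') (d + 1) (1 - θ) =
(d + 1) (y - y')`. By Chebyshev (both functions of `x'` are antitone)
`∫ x' in 0..y', ρ x' * 2 (x - x') ≥ (2 x - y') Z'`, so `Sf ≥ Z' ∫ x in y'..y, ρ x (2 x - y') ≥
Z' ρ y (y - y') y`; `Z ≤ y W 0 ≤ y 2^d W (1/2) ≤ y 2^d ρ y`. So `Sf ≥ 2^(-d) (y - y') Z Z'`. -/
def SraStmt : Prop := ∀ (d : ℕ) (l : ℝ) (W : ℝ → ℝ), 0 < l → l ≤ 1 → Adm d W →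
  ∀ y' y : ℝ, 0 < y' → y' < y → y < 1 / 2 →
    l * (1 / 4) ^ d / (8 * (d + 1)) * Mf l W y' y * (Zf l W y' * Zf l W y) ≤ Sf l W y' y

/-- SRB. Proof: notation of SRA. Now `ρ y = l W y ≥ l ρ y' θ^d`, so
`Mf ≤ (1 - y') (1 - l θ^(d+1)) = (1 - y') ((1 - l) + l (1 - θ^(d+1))) ≤ (1 - l) +
l (d + 1) (y - y')`. As in SRA `Sf ≥ Z' ∫ x in y'..y, ρ x (2 x - y') + (1 - l) / 4 W (1/2) Z'`. With
`y'' = min y (3/4)`: the first term is at least `Z' ρ y'' (y'' - y') y'' ≥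
Z' l 4^(-d) W 0 (y - y') / 8` (`y'' ≥ 1/2`, `y'' - y' ≥ (y - y') / 4`, `W y'' ≥ 4^(-d) W 0`),
`Z ≤ W 0`, `W (1/2) ≥ 2^(-d) W 0 ≥ 2^(-d) Z`. -/
def SrbStmt : Prop := ∀ (d : ℕ) (l : ℝ) (W : ℝ → ℝ), 0 < l → l ≤ 1 → Adm d W →
  ∀ y' y : ℝ, 0 < y' → y' < 1 / 2 → 1 / 2 < y → y ≤ 1 →
    l * (1 / 4) ^ d / (8 * (d + 1)) * Mf l W y' y * (Zf l W y' * Zf l W y) ≤ Sf l W y' y

/-- SRC. Proof: notation of SRA, `R = ∫ x in y'..y, ρ`, `I = ∫ x in 0..1/2, W`. As in SRA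
`Mf ≤ m y' (1 - y') (1 - θ^(d+1))`, and `R ≥ ρ y' ∫ x in y'..y, ((1 - x) / (1 - y'))^d =
ρ y' (1 - y') (1 - θ^(d+1)) / (d + 1)`, so `Mf Z' ≤ (d + 1) R`. `Z ≤ I + l W (1/2) / 2 ≤ 2 I`.
`Sf = ∫ x in y'..y, ρ x * (∫ x' in 0..y', ρ x' 2 (x - x') - (1 - l) / 4 W (1/2))` and
`∫ x' in 0..y', ρ x' 2 (x - x') ≥ ∫ x' in 0..1/2, W x' 2 (1/2 - x') ≥ I / 2` (Chebyshev),
`(1 - l) / 4 W (1/2) ≤ (1 - l) I / 2`. So `Sf ≥ l / 2 * I * R`. -/
def SrcStmt : Prop := ∀ (d : ℕ) (l : ℝ) (W : ℝ → ℝ), 0 < l → l ≤ 1 → Adm d W →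
  ∀ y' y : ℝ, 1 / 2 < y' → y' < y → y ≤ 1 →
    l * (1 / 4) ^ d / (8 * (d + 1)) * Mf l W y' y * (Zf l W y' * Zf l W y) ≤ Sf l W y' y

/-- SRD. Proof: notation of SRC. `Mf ≤ 1` as `y' ρ y' ≤ Z'`. If `y < 1/2`, `Sf` is an integral of
nonnegative terms. If `y' < 1/2 < y`: `Sf ≥ Z' ∫ x in 1/2..y, ρ x (2 x - y') ≥ Z' / 2 *
∫ x in 1/2..y, ρ x` (see SRA). If `1/2 < y'`: `Sf ≥ l / 2 * I * R` (see SRC) and `Z' ≤ 2 I`. -/
def SrdStmt : Prop := ∀ (d : ℕ) (l : ℝ) (W : ℝ → ℝ), 0 < l → l ≤ 1 → Adm d W →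
  ∀ y' y : ℝ, 0 < y' → y' < y → y ≤ 1 → y' ≠ 1 / 2 → y ≠ 1 / 2 →
    Mf l W y' y ≤ 1 ∧ 0 ≤ Sf l W y' y ∧
    (1 / 2 < y → l / 4 * (Zf l W y' * ∫ x in (max y' (1 / 2))..y, rho l W x) ≤ Sf l W y' y)

/-! ### Monotonicity of the potential -/

/-- MNJ. Proof (may assume KID, KPM, PRM, LOC, ADM, SRD, POS, KBD): induction on the length of `L`.
First let `v ∉ L`, `b` Good on `L`, `0 < y' < y ≤ 1`, both not `1/2`; by KID
`s v * (JR (update b v y) - JR (update b v y')) ≥ 0`, since `Sf ≥ 0` (SRD, ADM) and `Cf ≥ 0`: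
for `0 < x' < x < 1`, both not `1/2`, `c_x` and `c_x'` are Good on `L` and, if `s v = 1`,
`Leq s L c_x' c_x`, if `s v = -1`, `Leq s L c_x c_x'` (the neighbours have the opposite sign), so
`s v * JR c_x' ≤ s v * JR c_x` by induction. General `b`, `b'` on a list `L'`: change the
coordinates one after another; for the coordinate `u` write `L'` as a permutation of
`u :: L'.erase u` (KPM, PRM, LOC). -/
def MnjStmt : Prop := ∀ (G : SimpleGraph ℕ) (s : ℕ → ℝ) (l : ℝ) (Δ : ℕ), Sgn G s → DegLe G Δ →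
  0 < l → l ≤ 1 → ∀ (L : List ℕ) (b b' : ℕ → ℝ), L.Nodup → Good L b → Good L b' → Leq s L b b' →
    JR G s l L b ≤ JR G s l L b'

/-- PBD. Proof (may assume MNJ, PTW, FLP, SRD, ADM): `0 ≤ P` by MNJ; `P ≤ Mf` by PTW if `s v = 1`,
and if `s v = -1` by PTW for the signs `- s` (FLP); `Mf ≤ 1` by SRD. -/
def PbdStmt : Prop := ∀ (G : SimpleGraph ℕ) (s : ℕ → ℝ) (l : ℝ) (Δ : ℕ), Sgn G s → DegLe G Δ →
  0 < l → l ≤ 1 → ∀ (L : List ℕ) (v : ℕ) (b : ℕ → ℝ), L.Nodup → v ∉ L → Good L b →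
  ∀ y' y : ℝ, 0 < y' → y' < y → y ≤ 1 → y' ≠ 1 / 2 → y ≠ 1 / 2 →
    0 ≤ s v * (JR G s l (v :: L) (update b v y) - JR G s l (v :: L) (update b v y')) ∧
    s v * (JR G s l (v :: L) (update b v y) - JR G s l (v :: L) (update b v y')) ≤ 1 ∧
    s v * (JR G s l (v :: L) (update b v y) - JR G s l (v :: L) (update b v y')) ≤
      Mf l (fun x => ZR G l L (cut G v (1 - x) b)) y' y

/-- JBD. Proof (may assume PBD, MNJ, KPM, PRM, LOC): `≥ 0` by MNJ (see there). `≤ Δ`: change the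
bounds from `c_x'` to `c_x` on the neighbours `u` of `v` in `L` one after another (at most `Δ`
steps); each step changes `s v * JR = - s u * JR` by at most `1` (PBD for `u` at the head, with
KPM, PRM, LOC). -/
def JbdStmt : Prop := ∀ (G : SimpleGraph ℕ) (s : ℕ → ℝ) (l : ℝ) (Δ : ℕ), Sgn G s → DegLe G Δ →
  0 < l → l ≤ 1 → ∀ (L : List ℕ) (v : ℕ) (b : ℕ → ℝ), L.Nodup → v ∉ L → Good L b →
  ∀ x' x : ℝ, 0 < x' → x' < x → x < 1 → x' ≠ 1 / 2 → x ≠ 1 / 2 →
    0 ≤ s v * JR G s l L (cut G v (1 - x) b) - s v * JR G s l L (cut G v (1 - x') b) ∧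
    s v * JR G s l L (cut G v (1 - x) b) - s v * JR G s l L (cut G v (1 - x') b) ≤ Δ

end Pool.Agent.Helper92.BO
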