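import Pool.Agent.Helper92.BO.GoalsA

/-!
# Stable set polytopes: goals, part B (the zero-free region)

Notation in the docstrings: `c_x = cut G v (1 - x) b`. The goals of `GoalsA` and of this file may be
used as hypotheses (each docstring says which ones are needed).
-/

namespace Pool.Agent.Helper92.BO

open MeasureTheory Filter Topology Function

/-- The hypotheses of one step of the induction (one complex parameter `z` near the real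
parameter `l`). -/
structure StepH (d : ℕ) (l κ : ℝ) (z : ℂ) (W : ℝ → ℝ) (V : ℝ → ℂ) (J : ℝ → ℝ) : Prop where
  l0 : 0 < l
  l1 : l ≤ 1
  κ0 : 0 < κ
  κ1 : κ ≤ l * (1 / 4) ^ d / (800 * (d + 1) ^ 2)
  hz : ‖z - l‖ ≤ κ * l ^ 2 / 8
  adm : Adm d W
  cont : ContinuousOn V (Set.Icc 0 1)
  ne : ∀ x, 0 < x → x < 1 → x ≠ 1 / 2 → V x ≠ 0
  int : IntervalIntegrable (fun x => W x * J x) volume 0 1
  mono : ∀ x' x, 0 < x' → x' < x → x < 1 → x' ≠ 1 / 2 → x ≠ 1 / 2 →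
    0 ≤ J x - J x' ∧ J x - J x' ≤ d
  rel : ∀ x' x, 0 < x' → x' < x → x < 1 → x' ≠ 1 / 2 → x ≠ 1 / 2 →
    ∃ E : ℂ, V x * W x' = Complex.exp E * (V x' * W x) ∧ ‖E‖ ≤ κ * (J x - J x')

/-- CSN. Proof: put `r0 = V (1/4) / W (1/4)`, `μ = (z - l) / l`, so `‖μ‖ ≤ κ l / 8 ≤ κ / 8`. For
`x ≠ 1/2` in `(0, 1)`: `V x = r0 * W x * exp (± E)` with `‖E‖ ≤ κ d ≤ 1/800` (`rel` for the pair
`1/4`, `x`), and `psi z x = psiR l x * (1 + μ) ^ s`, `s ∈ {0, 1}`. So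
`‖psi z x * V x - r0 * rho l W x‖ = ‖r0‖ * rho l W x * ‖exp (± E) (1 + μ)^s - 1‖` and
`‖…‖ ≤ exp (κ d) (1 + κ / 8) - 1 ≤ 2 κ (d + 1)`. Integrate; `Zf l W y > 0` for `y > 0`,
`2 κ (d + 1) < 1`, `r0 ≠ 0`. -/
def CsnStmt : Prop := ∀ (d : ℕ) (l κ : ℝ) (z : ℂ) (W : ℝ → ℝ) (V : ℝ → ℂ) (J : ℝ → ℝ),
  StepH d l κ z W V J →
  (∀ x, 0 < x → x < 1 → x ≠ 1 / 2 → ‖psi z x * V x - V (1 / 4) / W (1 / 4) * rho l W x‖ ≤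
    2 * κ * (d + 1) * ‖V (1 / 4) / W (1 / 4)‖ * rho l W x) ∧
  ∀ y, 0 < y → y ≤ 1 → 0 < Zf l W y ∧ ZCf z V y ≠ 0 ∧
    ‖ZCf z V y - V (1 / 4) / W (1 / 4) * Zf l W y‖ ≤
      2 * κ * (d + 1) * ‖V (1 / 4) / W (1 / 4)‖ * Zf l W y

/-- CSD. Proof (may assume CSN): with `R x = psi z x * V x`, `ρ = rho l W`:
`ZCf y * Zf y' - ZCf y' * Zf y = ∫ x in y'..y, ∫ x' in 0..y', (R x * ρ x' - R x' * ρ x)`. For
`0 < x' < y' < x < y`, both not `1/2`, and `E` from `rel`, `μ = (z - l) / l`, `s = 1` if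
`x' < 1/2 < x` and `s = 0` otherwise: `R x * ρ x' - R x' * ρ x = R x' * ρ x * (exp E * (1 + μ) ^ s -
1)`, `‖R x'‖ ≤ (1 + 2 κ (d + 1)) ‖r0‖ ρ x'` (CSN), `‖exp E (1 + μ)^s - 1‖ ≤ ‖exp E - 1‖ +
‖exp E‖ ‖μ‖ s ≤ (1 + 2 κ d) (‖E‖ + ‖μ‖ s)`, `‖E‖ ≤ κ (J x - J x')`, `‖μ‖ ≤ κ l / 8`. The product of
the two factors is at most `1 + 8 κ (d + 1)`. -/
def CsdStmt : Prop := ∀ (d : ℕ) (l κ : ℝ) (z : ℂ) (W : ℝ → ℝ) (V : ℝ → ℂ) (J : ℝ → ℝ),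
  StepH d l κ z W V J → ∀ y' y : ℝ, 0 < y' → y' < y → y ≤ 1 → y' ≠ 1 / 2 → y ≠ 1 / 2 →
  ‖ZCf z V y * Zf l W y' - ZCf z V y' * Zf l W y‖ ≤
    (1 + 8 * κ * (d + 1)) * ‖V (1 / 4) / W (1 / 4)‖ * κ * (Cf l W J y' y +
      l / 8 * (if 1 / 2 < y then Zf l W y' * ∫ x in (max y' (1 / 2))..y, rho l W x else 0))

/-- CSF. Proof (may assume CSN, CSD, SRA, SRB, SRC, SRD): let `Z = Zf l W y`, `Z' = Zf l W y'`,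
`c = l (1/4)^d / (8 (d + 1))`, so `κ ≤ c / (100 (d + 1))`. By SRD the last term of CSD is at most
`Sf / 2`, so the bracket is at most `Cf + Sf / 2 = P Z Z' - Sf / 2 ≤ (1 - c / 2) P Z Z'`, because
`Sf ≥ c Mf Z Z' ≥ c P Z Z'` (SRA, SRB, SRC). By CSN `‖ZCf y'‖ ≥ (1 - 2 κ (d + 1)) ‖r0‖ Z'`. So
`q = ZCf y * Z' / (ZCf y' * Z)` satisfies `‖q - 1‖ ≤ (1 + 8 κ (d + 1)) / (1 - 2 κ (d + 1)) * κ *
(1 - c / 2) * P ≤ (1 - 3 c / 10) κ P`, and `D = log q` has `‖D‖ ≤ ‖q - 1‖ (1 + 2 ‖q - 1‖) ≤ κ P`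
(`‖q - 1‖ ≤ κ ≤ c / 100`). -/
def CsfStmt : Prop := ∀ (d : ℕ) (l κ : ℝ) (z : ℂ) (W : ℝ → ℝ) (V : ℝ → ℂ) (J : ℝ → ℝ),
  StepH d l κ z W V J → ∀ y' y P : ℝ, 0 < y' → y' < y → y ≤ 1 → y' ≠ 1 / 2 → y ≠ 1 / 2 →
  0 ≤ P → P ≤ 1 → P ≤ Mf l W y' y → P * (Zf l W y' * Zf l W y) = Sf l W y' y + Cf l W J y' y →
  ∃ D : ℂ, ZCf z V y * Zf l W y' = Complex.exp D * (ZCf z V y' * Zf l W y) ∧ ‖D‖ ≤ κ * P

/-- The induction hypothesis for the list `L`. -/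
def HC (G : SimpleGraph ℕ) (s : ℕ → ℝ) (l κ : ℝ) (z : ℂ) (L : List ℕ) : Prop :=
  (∀ b, Good L b → ZC G z L b ≠ 0) ∧
  ∀ b b', Good L b → Good L b' → Leq s L b b' → ∃ D : ℂ,
    ZC G z L b' * ZR G l L b = Complex.exp D * (ZC G z L b * ZR G l L b') ∧
    ‖D‖ ≤ κ * (JR G s l L b' - JR G s l L b)

/-- CHS. Proof (may assume ADM, CNT, POS, KBD, JBD): for `x ≠ 1/2` in `(0, 1)` the bounds `c_x` are
Good on `L`. `int`: `W x * (s v * JR c_x) = s v * KR c_x` for `x < 1`, KBD. `mono`: JBD. `rel`: for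
`x' < x`, if `s v = 1` then `Leq s L c_x' c_x` and one takes the `D` of `HC` for `(c_x', c_x)`; if
`s v = -1` then `Leq s L c_x c_x'` and one takes `- D` of the pair `(c_x, c_x')`. -/
def ChsStmt : Prop := ∀ (G : SimpleGraph ℕ) (s : ℕ → ℝ) (l κ : ℝ) (Δ : ℕ) (z : ℂ), Sgn G s →
  DegLe G Δ → 0 < l → l ≤ 1 → 0 < κ → κ ≤ l * (1 / 4) ^ Δ / (800 * (Δ + 1) ^ 2) →
  ‖z - l‖ ≤ κ * l ^ 2 / 8 → ∀ (L : List ℕ) (v : ℕ) (b : ℕ → ℝ), L.Nodup → v ∉ L → Good L b →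
  HC G s l κ z L → StepH Δ l κ z (fun x => ZR G l L (cut G v (1 - x) b))
    (fun x => ZC G z L (cut G v (1 - x) b)) (fun x => s v * JR G s l L (cut G v (1 - x) b))

/-- CHI. Proof (may assume CHS, CSN, CSF, KID, PBD, KPM, PRM, LOC, POS): induction on the length of
`L`. For a list with the head `v`, `v ∉ L`: by LOC `ZC G z (v :: L) (update b v y) = ZCf z V y`
with `V x = ZC G z L c_x`, the same for `ZR`; `ZCf ≠ 0` by CSN; and for `0 < y' < y ≤ 1`, both not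
`1/2`, CSF with `P = s v * (JR (update b v y) - JR (update b v y'))` (KID, PBD) gives `D` with
`ZC (y) * ZR (y') = exp D * (ZC (y') * ZR (y))`, `‖D‖ ≤ κ P`. For general `b`, `b'` on a list `L'`
with `Leq s L' b b'` change the coordinates one after another (for the coordinate `u` write `L'` as
a permutation of `u :: L'.erase u`); if `s u = 1` the bound goes up and `D` is as above, if
`s u = -1` it goes down and one takes `- D`; the `D`s add up (all factors are nonzero), and the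
bounds add up to `κ (JR b' - JR b)`. -/
def ChiStmt : Prop := ∀ (G : SimpleGraph ℕ) (s : ℕ → ℝ) (l κ : ℝ) (Δ : ℕ) (z : ℂ), Sgn G s →
  DegLe G Δ → 0 < l → l ≤ 1 → 0 < κ → κ ≤ l * (1 / 4) ^ Δ / (800 * (Δ + 1) ^ 2) →
  ‖z - l‖ ≤ κ * l ^ 2 / 8 → ∀ (L : List ℕ), L.Nodup → HC G s l κ z L

/-- ZNA. Proof (may assume CHI): `κ = l1 (1/4)^Δ / (800 (Δ + 1)^2)`, `δ = κ l1^2 / 8`; the bounds `1`
are Good. -/
def ZnaStmt : Prop := ∀ (Δ : ℕ) (l1 : ℝ), 0 < l1 → l1 ≤ 1 → ∃ δ > (0 : ℝ),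
  ∀ (G : SimpleGraph ℕ) (s : ℕ → ℝ), Sgn G s → DegLe G Δ → ∀ (L : List ℕ), L.Nodup →
  ∀ (z : ℂ) (l : ℝ), l1 ≤ l → l ≤ 1 → ‖z - l‖ ≤ δ → ZC G z L (fun _ => 1) ≠ 0

/-! ### Small `z` -/

/-- The comparison function. -/
noncomputable def bta (d : ℕ) (y : ℝ) : ℝ := 10 * (d + 1) * min y (1 / 2) + 10 * max y (1 / 2)

/-- SMO. Proof: for `x, x' ≤ 1/2`: `V x = exp (± E) V x'`, `‖E‖ ≤ 5 d ‖z‖ ≤ 1/80`. (1) Let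
`y' ≤ y ≤ 1/2`. Then `ZCf y * y' - ZCf y' * y = ∫ x in y'..y, ∫ x' in 0..y', (V x - V x')`,
`‖V x - V x'‖ ≤ 1.013^2 ‖V 0‖ ‖z‖ 10 d (x - x')`, `∫∫ (x - x') = y' y (y - y') / 2` and
`‖ZCf y'‖ ≥ 0.987 y' ‖V 0‖`, so `q = ZCf y * y' / (ZCf y' * y)` has `‖q - 1‖ ≤ 5.5 d ‖z‖ (y - y')
≤ 1/50`, `D = log q`, `‖D‖ ≤ 2 ‖q - 1‖`-type bound `≤ 10 (d + 1) ‖z‖ (y - y')`
(`‖log q‖ ≤ ‖q - 1‖ / (1 - ‖q - 1‖)`). (2) Let `1/2 ≤ y' ≤ y`. Then `ZCf y - ZCf y' =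
z ∫ x in y'..y, V x` has norm `≤ 2 ‖z‖ (y - y') ‖V (1/2)‖`, and `‖ZCf y'‖ ≥ ‖∫ x in 0..1/2, V x‖ -
‖z‖ ‖V (1/2)‖ ≥ 0.49 ‖V (1/2)‖`; so `‖q - 1‖ ≤ 4.2 ‖z‖ (y - y')`, `‖D‖ ≤ 10 ‖z‖ (y - y')`. (3) If
`y' < 1/2 < y` add the two `D`s. -/
def SmoStmt : Prop := ∀ (d : ℕ) (z : ℂ) (V : ℝ → ℂ), ‖z‖ ≤ 1 / (400 * (d + 1) ^ 2) →
  ContinuousOn V (Set.Icc 0 1) → V (1 / 2) ≠ 0 →
  (∀ x' x, 0 ≤ x' → x' ≤ x → x ≤ 1 / 2 → ∃ E : ℂ, V x = Complex.exp E * V x' ∧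
    ‖E‖ ≤ ‖z‖ * (10 * d * (x - x'))) →
  (∀ x, 1 / 2 ≤ x → x < 1 → ‖V x‖ ≤ 2 * ‖V (1 / 2)‖) →
  (∀ y, 0 < y → y ≤ 1 → ZCf z V y ≠ 0) ∧
  ∀ y' y : ℝ, 0 < y' → y' ≤ y → y ≤ 1 → ∃ D : ℂ,
    ZCf z V y * ((min y' (1 / 2) : ℝ) : ℂ) =
      Complex.exp D * (ZCf z V y' * ((min y (1 / 2) : ℝ) : ℂ)) ∧
    ‖D‖ ≤ ‖z‖ * (bta d y - bta d y')

/-- The induction hypothesis for small `z`. -/
def HS (G : SimpleGraph ℕ) (Δ : ℕ) (z : ℂ) (L : List ℕ) : Prop :=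
  (∀ b, Pos1 L b → ZC G z L b ≠ 0) ∧
  ∀ b b', Pos1 L b → Pos1 L b' → (∀ u ∈ L, b u ≤ b' u) → ∃ D : ℂ,
    ZC G z L b' * (((L.map fun u => min (b u) (1 / 2)).prod : ℝ) : ℂ) =
      Complex.exp D * (ZC G z L b * (((L.map fun u => min (b' u) (1 / 2)).prod : ℝ) : ℂ)) ∧
    ‖D‖ ≤ ‖z‖ * (L.map fun u => bta Δ (b' u) - bta Δ (b u)).sum

/-- SMV. Proof (may assume CNT): `V x = ZC G z L c_x` satisfies the hypotheses of SMO with `d = Δ`.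
`V (1/2) ≠ 0`. For `x' ≤ x ≤ 1/2`: `c_x ≤ c_x'` on `L`, `min (c_x u) (1/2) = min (b u) (1/2) =
min (c_x' u) (1/2)`, so the two products are equal (and positive) and `V x = exp (- D) V x'` where
`‖D‖ ≤ ‖z‖ ∑ (bta (c_x' u) - bta (c_x u))`; only the at most `Δ` neighbours of `v` contribute, each
at most `10 (x - x')`. For `1/2 ≤ x < 1`: the pair `c_x ≤ c_(1/2)`: the ratio of the products is at
most `1`, and `‖D‖ ≤ ‖z‖ Δ 10 (Δ + 1) / 2 ≤ 1/80`, so `‖V x‖ ≤ 2 ‖V (1/2)‖`. -/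
def SmvStmt : Prop := ∀ (G : SimpleGraph ℕ) (Δ : ℕ) (z : ℂ), DegLe G Δ →
  ‖z‖ ≤ 1 / (400 * (Δ + 1) ^ 2) → ∀ (L : List ℕ) (v : ℕ) (b : ℕ → ℝ), L.Nodup → v ∉ L →
  Pos1 L b → HS G Δ z L →
  ContinuousOn (fun x => ZC G z L (cut G v (1 - x) b)) (Set.Icc 0 1) ∧
  ZC G z L (cut G v (1 - 1 / 2) b) ≠ 0 ∧
  (∀ x' x, 0 ≤ x' → x' ≤ x → x ≤ 1 / 2 → ∃ E : ℂ, ZC G z L (cut G v (1 - x) b) =
    Complex.exp E * ZC G z L (cut G v (1 - x') b) ∧ ‖E‖ ≤ ‖z‖ * (10 * Δ * (x - x'))) ∧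
  (∀ x, 1 / 2 ≤ x → x < 1 →
    ‖ZC G z L (cut G v (1 - x) b)‖ ≤ 2 * ‖ZC G z L (cut G v (1 - 1 / 2) b)‖)

/-- SMI. Proof (may assume SMV, SMO, PRM, LOC): induction on the length of `L`; the head by SMV and
SMO (`ZC G z (v :: L) (update b v y) = ZCf z V y`); general `b ≤ b'` by changing the coordinates one
after another, as in CHI. -/
def SmiStmt : Prop := ∀ (G : SimpleGraph ℕ) (Δ : ℕ) (z : ℂ), DegLe G Δ →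
  ‖z‖ ≤ 1 / (400 * (Δ + 1) ^ 2) → ∀ (L : List ℕ), L.Nodup → HS G Δ z L

/-- ZNF. The zero-free region. Proof (may assume ZNA, SMI): `l0 = 1 / (400 (Δ + 1)^2)`, the `δ` of
ZNA for `l1 = l0 / 2`, and `min δ (l0 / 2)`. If `‖z‖ ≤ l0` use SMI with the bounds `1`. Otherwise
`‖z - t‖ ≤ l0 / 2` gives `t ≥ l0 / 2 = l1`, use ZNA. -/
def ZnfStmt : Prop := ∀ (Δ : ℕ), ∃ δ > (0 : ℝ), ∀ (G : SimpleGraph ℕ) (s : ℕ → ℝ), Sgn G s →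
  DegLe G Δ → ∀ (L : List ℕ), L.Nodup → ∀ (z : ℂ) (t : ℝ), 0 ≤ t → t ≤ 1 → ‖z - t‖ ≤ δ →
  ZC G z L (fun _ => 1) ≠ 0

end Pool.Agent.Helper92.BO
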