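import Pool.Agent.Helper92.BO.GoalsB

/-!
# Stable set polytopes: goals, part G (the zero-free region for ALL graphs)

These goals replace the bipartite induction of parts A and B: no signs, arbitrary graphs of bounded
degree. Notation in the docstrings: `c_x = cut G v (1 - x) b`, `W x = ZR G l L c_x`,
`C(x) = {u ∈ L : v ~ u, 1 - x < b u}` (the bounds which are really cut).
-/

namespace Pool.Agent.Helper92.BO

open MeasureTheory Filter Topology Function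

/-- The partial derivative of `ZR G l L` with respect to the bound of `u ∈ L`. -/
noncomputable def Zd (G : SimpleGraph ℕ) (l : ℝ) (L : List ℕ) (u : ℕ) (b : ℕ → ℝ) : ℝ :=
  psiR l (b u) * ZR G l (L.erase u) (cut G u (1 - b u) b)

/-- The weighted logarithmic derivative. -/
noncomputable def Ph (G : SimpleGraph ℕ) (l : ℝ) (L : List ℕ) (u : ℕ) (b : ℕ → ℝ) : ℝ :=
  b u * (1 - b u) * Zd G l L u b / ZR G l L b

/-- The potential of the move from the bounds `b` down to the bounds `b'`. -/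
noncomputable def Tm (G : SimpleGraph ℕ) (l : ℝ) (L : List ℕ) (b b' : ℕ → ℝ) : ℝ :=
  (L.map fun u => if b' u < b u then Ph G l L u b' - Ph G l L u b
    else -|Ph G l L u b' - Ph G l L u b|).sum

/-- The integral of a two-variable function `T x' x` (`x' < x`). -/
noncomputable def C2 (l : ℝ) (W : ℝ → ℝ) (T : ℝ → ℝ → ℝ) (y' y : ℝ) : ℝ :=
  ∫ x in y'..y, ∫ x' in (0 : ℝ)..y', rho l W x * rho l W x' * T x' x

open Classical in
/-- The sum of the partial derivatives in the direction of the cut. -/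
noncomputable def Gc (G : SimpleGraph ℕ) (l : ℝ) (L : List ℕ) (v : ℕ) (b : ℕ → ℝ) (s : ℝ) : ℝ :=
  (L.map fun u => if G.Adj v u ∧ 1 - s < b u then Zd G l L u (cut G v (1 - s) b) else 0).sum

open Classical in
/-- The sum of the `Ph` of the bounds which are cut. -/
noncomputable def Fc (G : SimpleGraph ℕ) (l : ℝ) (L : List ℕ) (v : ℕ) (b : ℕ → ℝ) (s : ℝ) : ℝ :=
  (L.map fun u => if G.Adj v u ∧ 1 - s < b u then Ph G l L u (cut G v (1 - s) b) else 0).sum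

/-- ZRM. Proof: induction on `L`; `(b, x) ↦ cut G v (1 - x) b` is measurable and
`b ↦ ∫ x in 0..(b v), f b x` is measurable for measurable `f` (write the interval integral as
`∫ x, (indicator of (0, b v]) * f b x - ∫ x, (indicator of (b v, 0]) * f b x`,
`StronglyMeasurable.integral_prod_right`). -/
def ZrmStmt : Prop := ∀ (G : SimpleGraph ℕ) (l : ℝ) (L : List ℕ),
  Measurable fun b : ℕ → ℝ => ZR G l L b

/-- TMM. Proof (may assume ZRM): compositions. -/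
def TmmStmt : Prop := ∀ (G : SimpleGraph ℕ) (l : ℝ) (L : List ℕ) (v : ℕ) (b : ℕ → ℝ),
  (Measurable fun p : ℝ × ℝ => Tm G l L (cut G v (1 - p.1) b) (cut G v (1 - p.2) b)) ∧
  (Measurable fun s : ℝ => Gc G l L v b s) ∧ (Measurable fun s : ℝ => Fc G l L v b s) ∧
  ∀ u : ℕ, Measurable fun s : ℝ => Zd G l L u (cut G v (1 - s) b)

/-- PHB. Proof (may assume STR, PRM, LOC, POS, CNT, MON): `ZR ≥ 0`; `L` is a permutation of
`u :: L.erase u`, and `ZR G l (u :: L.erase u) b = ∫ x in 0..(b u), rho`, `rho` antitone,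
`rho (b u) = Zd`, so `b u * Zd ≤ ZR`; `ZR > 0` by POS, and `0 ≤ Zd ≤ 1`. -/
def PhbStmt : Prop := ∀ (G : SimpleGraph ℕ) (l : ℝ) (L : List ℕ) (u : ℕ) (b : ℕ → ℝ), 0 < l →
  l ≤ 1 → L.Nodup → u ∈ L → Pos1 L b → 0 ≤ Ph G l L u b ∧ Ph G l L u b ≤ 1 - b u ∧
    0 ≤ Zd G l L u b ∧ Zd G l L u b ≤ 1

/-- TMA. Superadditivity along decreasing paths. Proof: term by term; if `u` is moved in one of the
two steps then it is moved in the whole move, and `A + B ≥ A - |B|`; if it is not moved,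
`-|A + B| ≥ -|A| - |B|`. -/
def TmaStmt : Prop := ∀ (G : SimpleGraph ℕ) (l : ℝ) (L : List ℕ) (b b' b'' : ℕ → ℝ),
  (∀ u ∈ L, b' u ≤ b u) → (∀ u ∈ L, b'' u ≤ b' u) →
    Tm G l L b b' + Tm G l L b' b'' ≤ Tm G l L b b''

/-- TMP. Proof (may assume PRM, LOC): `Zd` and `Ph` for `L` and `L'` agree (`List.Perm.erase`); and
everything depends only on the bounds on `L`. -/
def TmpStmt : Prop := ∀ (G : SimpleGraph ℕ) (l : ℝ) (L L' : List ℕ) (b b' c c' : ℕ → ℝ),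
  L.Perm L' → In01 L b → In01 L b' → (∀ u ∈ L, b u = c u) → (∀ u ∈ L, b' u = c' u) →
    Tm G l L b b' = Tm G l L' c c'

/-- TMB. Proof (may assume PHB): terms of moved `u` are at most `Ph … b' ≤ 1`, the others at most
`0`; for the second statement at most `Δ` neighbours of `v` are moved. -/
def TmbStmt : Prop := ∀ (G : SimpleGraph ℕ) (l : ℝ) (L : List ℕ) (b b' : ℕ → ℝ), 0 < l → l ≤ 1 →
  L.Nodup → Pos1 L b → Pos1 L b' →
    (Tm G l L b b' ≤ (L.filter fun u => decide (b' u < b u)).length) ∧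
    ∀ (Δ v : ℕ) (x' x : ℝ), DegLe G Δ → 0 ≤ x' → x' ≤ x → x < 1 →
      Tm G l L (cut G v (1 - x') b) (cut G v (1 - x) b) ≤ Δ

/-- CHN. The chain rule along the cut. Proof (may assume CNT, LIP, CAS, PRM, LOC, POS): let
`s` be such that `s ≠ 1/2` and `1 - s ≠ b u` for all `u ∈ L` (all but finitely many `s ∈ (0, 1)`).
Then `W` has the derivative `- Gc G l L v b s` at `s`: let `u_1, …, u_k` be the `u ∈ L` with
`v ~ u`, `1 - s < b u`; for `s'` near `s` the bounds `c_s'` arise from `c_s` by changing the bounds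
of `u_1, …, u_k` from `1 - s` to `1 - s'` one after another; by PRM (`u_i` at the head)
each step changes `ZR` by `∫ t in (1 - s)..(1 - s'), psiR l t * ZR G l (L.erase u_i)
(cut G u_i (1 - t) (…))`, and the integrand differs from `Zd G l L u_i c_s` by at most
`const * |s' - s|` (LIP). `W` is continuous on `[0, 1]` and `Gc` is bounded and measurable (it is
continuous off finitely many points), so
`MeasureTheory.integral_eq_of_hasDerivWithinAt_off_countable_of_le` (or its `HasDerivAt` version)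
applies. -/
def ChnStmt : Prop := ∀ (G : SimpleGraph ℕ) (l : ℝ) (L : List ℕ) (v : ℕ) (b : ℕ → ℝ), 0 < l →
  l ≤ 1 → L.Nodup → Pos1 L b → ∀ x' x : ℝ, 0 ≤ x' → x' ≤ x → x ≤ 1 →
    ZR G l L (cut G v (1 - x') b) - ZR G l L (cut G v (1 - x) b) =
      ∫ s in x'..x, Gc G l L v b s

open Classical in
/-- ZDU. Proof (may assume LOC, CNT): `(v :: L).erase u = v :: L.erase u`. In
`Zd … = psiR l (b u) * ∫ x in 0..(bound of v), psiR l x * ZR G l (L.erase u) (cut G v (1 - x) (cut G u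
(1 - b u) b))` the bound of `v` is `y`, or `min y (1 - b u)` if `u ~ v`; the cuts commute on
`L.erase u`; where `u` is not cut, `c_x u = b u`. -/
def ZduStmt : Prop := ∀ (G : SimpleGraph ℕ) (l : ℝ) (L : List ℕ) (v u : ℕ) (b : ℕ → ℝ), 0 < l →
  l ≤ 1 → L.Nodup → v ∉ L → u ∈ L → Pos1 L b → ∀ y : ℝ, 0 < y → y ≤ 1 →
    Zd G l (v :: L) u (update b v y) = ∫ x in (0 : ℝ)..y, psiR l x *
      (if G.Adj v u ∧ 1 - x < b u then 0 else Zd G l L u (cut G v (1 - x) b))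

/-- MID. Proof (may assume CHN, CNT, POS, PHB, TMM): `W x * Fc x = x (1 - x) Gc x` for `x < 1`
(a cut `u` has the bound `1 - x`). Integration by parts with CHN (`γ x = x (1 - x)`, `W` is absolutely
continuous, `W' = - Gc`): `γ y * W y = ∫ x in 0..y, W x * ((1 - 2 x) - Fc x)`, also between `1/2` and
`y`. So `γ y * rho l W y = ∫ x in 0..y, rho l W x * ((1 - 2 x) - Fc x) - (if 1/2 < y then
(1 - l) / 4 * W (1/2) else 0)`. Insert this into `Mf * Zf y' * Zf y = γ y' rho y' Zf y -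
γ y rho y Zf y'` and use `(∫ in 0..y', g) (∫ in 0..y, ρ) - (∫ in 0..y, g) (∫ in 0..y', ρ) =
(∫ in 0..y', g) (∫ in y'..y, ρ) - (∫ in y'..y, g) (∫ in 0..y', ρ)`. -/
def MidStmt : Prop := ∀ (G : SimpleGraph ℕ) (l : ℝ) (L : List ℕ) (v : ℕ) (b : ℕ → ℝ), 0 < l →
  l ≤ 1 → L.Nodup → Pos1 L b → ∀ y' y : ℝ, 0 < y' → y' < y → y ≤ 1 → y' ≠ 1 / 2 → y ≠ 1 / 2 →
    Mf l (fun x => ZR G l L (cut G v (1 - x) b)) y' y *
      (Zf l (fun x => ZR G l L (cut G v (1 - x) b)) y' *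
        Zf l (fun x => ZR G l L (cut G v (1 - x) b)) y) =
    Sf l (fun x => ZR G l L (cut G v (1 - x) b)) y' y +
      Cf l (fun x => ZR G l L (cut G v (1 - x) b)) (Fc G l L v b) y' y

/-- TMS. The recursion inequality. Proof (may assume MID, ZDU, PHB, LOC, POS, CNT, TMM): on the left
`Tm = Mf - ∑ u ∈ L, b u (1 - b u) |Q_u|`, `Q_u = Zd (v :: L) u (update b v y') / Zf y' -
Zd (v :: L) u (update b v y) / Zf y` (the term of `v` is `Mf` because `Zd (v :: L) v (update b v y) =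
rho l W y`). With `R_u x = 0` if `u ∈ C(x)` and `R_u x = Zd G l L u c_x / W x` otherwise, ZDU says
`Zd (v :: L) u (update b v y) = ∫ x in 0..y, rho l W x * R_u x`, so `|Q_u| * Zf y' * Zf y ≤
∫ x in y'..y, ∫ x' in 0..y', rho x * rho x' * |R_u x - R_u x'|`. With MID it remains to see that for
`0 < x' < x < 1`: `Fc x - Fc x' - ∑ u ∈ L, b u (1 - b u) |R_u x - R_u x'| = Tm G l L c_x' c_x`.
Indeed `C(x') ⊆ C(x)`, `C(x)` is the set of `u ∈ L` with `c_x u < c_x' u`. For `u ∈ C(x')` the left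
side has `Ph c_x - Ph c_x' - 0`; for `u ∈ C(x) \ C(x')` it has `Ph c_x - 0 - b u (1 - b u) R_u x' =
Ph c_x - Ph c_x'` (`c_x' u = b u`); for `u ∉ C(x)` it has `- |Ph c_x - Ph c_x'|`. -/
def TmsStmt : Prop := ∀ (G : SimpleGraph ℕ) (l : ℝ) (L : List ℕ) (v : ℕ) (b : ℕ → ℝ), 0 < l →
  l ≤ 1 → L.Nodup → v ∉ L → Pos1 L b → ∀ y' y : ℝ, 0 < y' → y' < y → y ≤ 1 → y' ≠ 1 / 2 →
  y ≠ 1 / 2 →
    Sf l (fun x => ZR G l L (cut G v (1 - x) b)) y' y +
      C2 l (fun x => ZR G l L (cut G v (1 - x) b))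
        (fun x' x => Tm G l L (cut G v (1 - x') b) (cut G v (1 - x) b)) y' y ≤
    Tm G l (v :: L) (update b v y) (update b v y') *
      (Zf l (fun x => ZR G l L (cut G v (1 - x) b)) y' *
        Zf l (fun x => ZR G l L (cut G v (1 - x) b)) y) ∧
    Tm G l (v :: L) (update b v y) (update b v y') ≤
      Mf l (fun x => ZR G l L (cut G v (1 - x) b)) y' y

/-- TNN. Proof (may assume TMS, TMA, TMP, ADM, SRD, POS): induction on the length of `L`. Single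
moves of the head `v` (`v ∉ L`): in TMS the integrand of `C2` is nonnegative for almost all
`x' < x` (induction: `c_x ≤ c_x'` are Good), and `Sf ≥ 0` (SRD, ADM). General moves: change the
coordinates one after another; for the coordinate `u` write the list as a permutation of
`u :: L'.erase u` (TMP), and add up (TMA). -/
def TnnStmt : Prop := ∀ (G : SimpleGraph ℕ) (l : ℝ) (Δ : ℕ), DegLe G Δ → 0 < l → l ≤ 1 →
  ∀ (L : List ℕ) (b b' : ℕ → ℝ), L.Nodup → Good L b → Good L b' → (∀ u ∈ L, b' u ≤ b u) →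
    0 ≤ Tm G l L b b'

/-! ### The complex step -/

/-- The hypotheses of one step of the induction. -/
structure StepG (d : ℕ) (l κ : ℝ) (z : ℂ) (W : ℝ → ℝ) (V : ℝ → ℂ) (T : ℝ → ℝ → ℝ) : Prop where
  l0 : 0 < l
  l1 : l ≤ 1
  κ0 : 0 < κ
  κ1 : κ ≤ l * (1 / 4) ^ d / (800 * (d + 1) ^ 2)
  hz : ‖z - l‖ ≤ κ * l ^ 2 / 8
  adm : Adm d W
  cont : ContinuousOn V (Set.Icc 0 1)
  ne : ∀ x, 0 < x → x < 1 → x ≠ 1 / 2 → V x ≠ 0
  meas : Measurable fun p : ℝ × ℝ => T p.1 p.2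
  mono : ∀ x' x, 0 < x' → x' < x → x < 1 → x' ≠ 1 / 2 → x ≠ 1 / 2 → 0 ≤ T x' x ∧ T x' x ≤ d
  rel : ∀ x' x, 0 < x' → x' < x → x < 1 → x' ≠ 1 / 2 → x ≠ 1 / 2 →
    ∃ E : ℂ, V x * W x' = Complex.exp E * (V x' * W x) ∧ ‖E‖ ≤ κ * T x' x

/-- CGN. The proof is that of CSN (`Pool/Agent/Helper31/BO/CSN.lean`), with `T x' x` in place of
`J x - J x'`. -/
def CgnStmt : Prop := ∀ (d : ℕ) (l κ : ℝ) (z : ℂ) (W : ℝ → ℝ) (V : ℝ → ℂ) (T : ℝ → ℝ → ℝ),
  StepG d l κ z W V T →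
  (∀ x, 0 < x → x < 1 → x ≠ 1 / 2 → ‖psi z x * V x - V (1 / 4) / W (1 / 4) * rho l W x‖ ≤
    2 * κ * (d + 1) * ‖V (1 / 4) / W (1 / 4)‖ * rho l W x) ∧
  ∀ y, 0 < y → y ≤ 1 → 0 < Zf l W y ∧ ZCf z V y ≠ 0 ∧
    ‖ZCf z V y - V (1 / 4) / W (1 / 4) * Zf l W y‖ ≤
      2 * κ * (d + 1) * ‖V (1 / 4) / W (1 / 4)‖ * Zf l W y

/-- CGD (may assume CGN). The proof is that of CSD (see the docstring of `CsdStmt`), with `T x' x` in
place of `J x - J x'` and `C2 l W T` in place of `Cf l W J` (the inner integrand is bounded and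
measurable). -/
def CgdStmt : Prop := ∀ (d : ℕ) (l κ : ℝ) (z : ℂ) (W : ℝ → ℝ) (V : ℝ → ℂ) (T : ℝ → ℝ → ℝ),
  StepG d l κ z W V T → ∀ y' y : ℝ, 0 < y' → y' < y → y ≤ 1 → y' ≠ 1 / 2 → y ≠ 1 / 2 →
  ‖ZCf z V y * Zf l W y' - ZCf z V y' * Zf l W y‖ ≤
    (1 + 8 * κ * (d + 1)) * ‖V (1 / 4) / W (1 / 4)‖ * κ * (C2 l W T y' y +
      l / 8 * (if 1 / 2 < y then Zf l W y' * ∫ x in (max y' (1 / 2))..y, rho l W x else 0))

/-- CGF (may assume CGN, CGD, SRA, SRB, SRC, SRD). The proof is that of CSF (see the docstring of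
`CsfStmt`), with `C2 l W T` in place of `Cf l W J`; `C2 + Sf / 2 ≤ P Z Z' - Sf / 2`. -/
def CgfStmt : Prop := ∀ (d : ℕ) (l κ : ℝ) (z : ℂ) (W : ℝ → ℝ) (V : ℝ → ℂ) (T : ℝ → ℝ → ℝ),
  StepG d l κ z W V T → ∀ y' y P : ℝ, 0 < y' → y' < y → y ≤ 1 → y' ≠ 1 / 2 → y ≠ 1 / 2 →
  0 ≤ P → P ≤ 1 → P ≤ Mf l W y' y → Sf l W y' y + C2 l W T y' y ≤ P * (Zf l W y' * Zf l W y) →
  ∃ D : ℂ, ZCf z V y * Zf l W y' = Complex.exp D * (ZCf z V y' * Zf l W y) ∧ ‖D‖ ≤ κ * P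

/-- The induction hypothesis for the list `L`. -/
def HG (G : SimpleGraph ℕ) (l κ : ℝ) (z : ℂ) (L : List ℕ) : Prop :=
  (∀ b, Good L b → ZC G z L b ≠ 0) ∧
  ∀ b b', Good L b → Good L b' → (∀ u ∈ L, b' u ≤ b u) → ∃ D : ℂ,
    ZC G z L b * ZR G l L b' = Complex.exp D * (ZC G z L b' * ZR G l L b) ∧
    ‖D‖ ≤ κ * Tm G l L b b'

/-- CHG. Proof (may assume ADM, CNT, POS, TMM, TMB, TNN): for `x ≠ 1/2` in `(0, 1)` the bounds `c_x`
are Good on `L`, and `c_x ≤ c_x'` for `x' < x`. `rel`: take `- D` for the `D` of `HG` for the pair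
`(c_x', c_x)`. -/
def ChgStmt : Prop := ∀ (G : SimpleGraph ℕ) (l κ : ℝ) (Δ : ℕ) (z : ℂ), DegLe G Δ → 0 < l →
  l ≤ 1 → 0 < κ → κ ≤ l * (1 / 4) ^ Δ / (800 * (Δ + 1) ^ 2) → ‖z - l‖ ≤ κ * l ^ 2 / 8 →
  ∀ (L : List ℕ) (v : ℕ) (b : ℕ → ℝ), L.Nodup → v ∉ L → Good L b → HG G l κ z L →
  StepG Δ l κ z (fun x => ZR G l L (cut G v (1 - x) b)) (fun x => ZC G z L (cut G v (1 - x) b))
    (fun x' x => Tm G l L (cut G v (1 - x') b) (cut G v (1 - x) b))

/-- CIG. Proof (may assume CHG, CGN, CGF, TMS, TNN, TMA, TMP, PRM, LOC, POS, SRD, ADM): induction on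
the length of `L`. For a list with the head `v`, `v ∉ L`: by LOC
`ZC G z (v :: L) (update b v y) = ZCf z V y` with `V x = ZC G z L c_x`, the same for `ZR`;
`ZCf ≠ 0` by CGN; for `0 < y' < y ≤ 1`, both not `1/2`, CGF with
`P = Tm G l (v :: L) (update b v y) (update b v y')` (TMS, TNN; `P ≤ Mf ≤ 1` by TMS and SRD) gives
`D` with `ZC (y) * ZR (y') = exp D * (ZC (y') * ZR (y))`, `‖D‖ ≤ κ P`. For general `b' ≤ b` on a
list `L'` change the coordinates one after another (for the coordinate `u` write `L'` as a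
permutation of `u :: L'.erase u`); the `D`s add up, and the bounds by TMA. -/
def CigStmt : Prop := ∀ (G : SimpleGraph ℕ) (l κ : ℝ) (Δ : ℕ) (z : ℂ), DegLe G Δ → 0 < l →
  l ≤ 1 → 0 < κ → κ ≤ l * (1 / 4) ^ Δ / (800 * (Δ + 1) ^ 2) → ‖z - l‖ ≤ κ * l ^ 2 / 8 →
  ∀ (L : List ℕ), L.Nodup → HG G l κ z L

/-- ZNG. The zero-free region for all graphs of bounded degree. Proof (may assume CIG, SMI):
`l0 = 1 / (400 (Δ + 1)^2)`, `l1 = l0 / 2`, `κ = l1 (1/4)^Δ / (800 (Δ + 1)^2)`,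
`δ = min (κ l1^2 / 8) (l0 / 2)`. If `‖z‖ ≤ l0` use SMI with the bounds `1`. Otherwise `‖z - t‖ ≤
l0 / 2` gives `t ≥ l1`; use CIG for `l = t` with this `κ` (the bounds `1` are Good). -/
def ZngStmt : Prop := ∀ (Δ : ℕ), ∃ δ > (0 : ℝ), ∀ (G : SimpleGraph ℕ), DegLe G Δ →
  ∀ (L : List ℕ), L.Nodup → ∀ (z : ℂ) (t : ℝ), 0 ≤ t → t ≤ 1 → ‖z - t‖ ≤ δ →
  ZC G z L (fun _ => 1) ≠ 0

end Pool.Agent.Helper92.BO
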