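import Mathlib

/-!
# Stable set polytopes: the iterated integrals

`G` is a graph on `ℕ`; lists `L` of vertices; `b` gives an upper bound for the coordinate of each
vertex. `psi z x` is the weight of the coordinate `x`: `1` for `x ≤ 1/2`, `z` for `x > 1/2`.
-/

namespace Pool.Agent.Helper92.BO

open MeasureTheory

/-- The weight of a coordinate. -/
noncomputable def psi (z : ℂ) (x : ℝ) : ℂ := if x ≤ 1 / 2 then 1 else z

/-- The weight of a coordinate, real version. -/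
noncomputable def psiR (l : ℝ) (x : ℝ) : ℝ := if x ≤ 1 / 2 then 1 else l

open Classical in
/-- The bounds of the neighbours of `v` are lowered to at most `c`. -/
noncomputable def cut (G : SimpleGraph ℕ) (v : ℕ) (c : ℝ) (b : ℕ → ℝ) : ℕ → ℝ :=
  fun u => if G.Adj v u then min (b u) c else b u

/-- The integral of `∏ psi z (x v)` over all `0 ≤ x v ≤ b v` (`v ∈ L`) with `x u + x v ≤ 1` for the
edges `u v`. -/
noncomputable def ZC (G : SimpleGraph ℕ) (z : ℂ) : List ℕ → (ℕ → ℝ) → ℂ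
  | [], _ => 1
  | v :: L, b => ∫ x in (0 : ℝ)..(b v), psi z x * ZC G z L (cut G v (1 - x) b)

/-- The same, real version. -/
noncomputable def ZR (G : SimpleGraph ℕ) (l : ℝ) : List ℕ → (ℕ → ℝ) → ℝ
  | [], _ => 1
  | v :: L, b => ∫ x in (0 : ℝ)..(b v), psiR l x * ZR G l L (cut G v (1 - x) b)

/-- The derivative of `ZR` along the flow `b u ↦ b u - s u * t * (b u * (1 - b u))` at `t = 0`. -/
noncomputable def KR (G : SimpleGraph ℕ) (s : ℕ → ℝ) (l : ℝ) : List ℕ → (ℕ → ℝ) → ℝ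
  | [], _ => 0
  | v :: L, b => (∫ x in (0 : ℝ)..(b v), psiR l x *
        (s v * (2 * x - 1) * ZR G l L (cut G v (1 - x) b) + KR G s l L (cut G v (1 - x) b))) +
      (if 1 / 2 < b v then s v * (1 - l) / 4 * ZR G l L (cut G v (1 / 2) b) else 0)

/-- The logarithmic derivative. -/
noncomputable def JR (G : SimpleGraph ℕ) (s : ℕ → ℝ) (l : ℝ) (L : List ℕ) (b : ℕ → ℝ) : ℝ :=
  KR G s l L b / ZR G l L b

/-- A signed (bipartite) graph: the sign `s v` is `1` on one side and `-1` on the other. -/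
structure Sgn (G : SimpleGraph ℕ) (s : ℕ → ℝ) : Prop where
  pm : ∀ v, s v = 1 ∨ s v = -1
  alt : ∀ u v, G.Adj u v → s u = - s v

/-- All degrees are at most `Δ`. -/
def DegLe (G : SimpleGraph ℕ) (Δ : ℕ) : Prop := ∀ v, (G.neighborSet v).encard ≤ Δ

/-- The bounds are in `[0, 1]` on `L`. -/
def In01 (L : List ℕ) (b : ℕ → ℝ) : Prop := ∀ u ∈ L, 0 ≤ b u ∧ b u ≤ 1

/-- The bounds are in `(0, 1]` on `L`. -/
def Pos1 (L : List ℕ) (b : ℕ → ℝ) : Prop := ∀ u ∈ L, 0 < b u ∧ b u ≤ 1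

/-- The bounds are in `(0, 1]` and not equal to `1/2` on `L`. -/
def Good (L : List ℕ) (b : ℕ → ℝ) : Prop := ∀ u ∈ L, 0 < b u ∧ b u ≤ 1 ∧ b u ≠ 1 / 2

/-- The flow. -/
noncomputable def gt (s : ℕ → ℝ) (t : ℝ) (b : ℕ → ℝ) : ℕ → ℝ :=
  fun u => b u - s u * t * (b u * (1 - b u))

/-- The order on the bounds: `b` below `b'` means that the bounds of positive vertices go up and
those of negative vertices go down. -/
def Leq (s : ℕ → ℝ) (L : List ℕ) (b b' : ℕ → ℝ) : Prop := ∀ u ∈ L, s u * b u ≤ s u * b' u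

/-- The join for this order. -/
noncomputable def jn (s : ℕ → ℝ) (b b' : ℕ → ℝ) : ℕ → ℝ :=
  fun u => if 0 < s u then max (b u) (b' u) else min (b u) (b' u)

/-- The meet for this order. -/
noncomputable def mt (s : ℕ → ℝ) (b b' : ℕ → ℝ) : ℕ → ℝ :=
  fun u => if 0 < s u then min (b u) (b' u) else max (b u) (b' u)

/-! ### One variable -/

/-- The density. -/
noncomputable def rho (l : ℝ) (W : ℝ → ℝ) (x : ℝ) : ℝ := psiR l x * W x

/-- Its integral. -/
noncomputable def Zf (l : ℝ) (W : ℝ → ℝ) (y : ℝ) : ℝ := ∫ x in (0 : ℝ)..y, rho l W x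

/-- The bound for the increment of the potential. -/
noncomputable def Mf (l : ℝ) (W : ℝ → ℝ) (y' y : ℝ) : ℝ :=
  y' * (1 - y') * rho l W y' / Zf l W y' - y * (1 - y) * rho l W y / Zf l W y

/-- The source term. -/
noncomputable def Sf (l : ℝ) (W : ℝ → ℝ) (y' y : ℝ) : ℝ :=
  (∫ x in y'..y, ∫ x' in (0 : ℝ)..y', rho l W x * rho l W x' * (2 * (x - x'))) +
    (1 - l) / 4 * W (1 / 2) *
      ((if 1 / 2 < y then Zf l W y' else 0) - (if 1 / 2 < y' then Zf l W y else 0))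

/-- The term of the children. -/
noncomputable def Cf (l : ℝ) (W J : ℝ → ℝ) (y' y : ℝ) : ℝ :=
  ∫ x in y'..y, ∫ x' in (0 : ℝ)..y', rho l W x * rho l W x' * (J x - J x')

/-- Admissible functions: continuous, positive, antitone, and not decreasing faster than
`(1 - x) ^ d`. -/
structure Adm (d : ℕ) (W : ℝ → ℝ) : Prop where
  cont : ContinuousOn W (Set.Icc 0 1)
  pos : ∀ x, 0 ≤ x → x < 1 → 0 < W x
  anti : ∀ x' x, 0 ≤ x' → x' ≤ x → x ≤ 1 → W x ≤ W x'
  rat : ∀ x' x, 0 ≤ x' → x' ≤ x → x ≤ 1 → W x' * (1 - x) ^ d ≤ W x * (1 - x') ^ d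

/-- Its integral, complex version. -/
noncomputable def ZCf (z : ℂ) (W : ℝ → ℂ) (y : ℝ) : ℂ := ∫ x in (0 : ℝ)..y, psi z x * W x

end Pool.Agent.Helper92.BO
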