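import Pool.Agent.Helper92.BO.Stmt

/-!
# Stable set polytopes of graphs of bounded degree: the statement

`RQ` (rational numbers in binary), `coef` and `vol` are in `Pool.Agent.Helper92.VP.Defs`; `Sys`,
`sol` (the polyhedron) in `Pool.Agent.Helper92.FR.Stmt`; `IsLow`, `IsUp`, `IsEdge`, `Nbr` in
`Pool.Agent.Helper92.BO.Stmt`. In `encOf` natural numbers of the type `ℕ` are coded in unary.
-/

namespace Pool.Agent.Helper92.BO

open Pool.Agent.Helper81.CC Pool.Agent.Bin Pool.Agent.Helper92.VP Pool.Agent.Helper92.FR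

/-- The system `S` consists of rows `x i ≥ 0` (for all `i`), `x i ≤ 1` (at least for all `i` which
are not adjacent to any `j`) and `x i + x j ≤ 1` for the edges `i j` of a graph all of whose degrees
are at most `Δ`. -/
def StabSys (Δ : ℕ) (S : Sys) : Prop :=
  (∀ r ∈ S.2, (∃ i < S.1, IsLow S.1 r i) ∨ (∃ i < S.1, IsUp S.1 r i) ∨
    ∃ i < S.1, ∃ j < S.1, IsEdge S.1 r i j) ∧
  (∀ i < S.1, (∃ r ∈ S.2, IsLow S.1 r i) ∧
    ((∃ r ∈ S.2, IsUp S.1 r i) ∨ ∃ j < S.1, Nbr S i j)) ∧
  ∀ i < S.1, {j | j < S.1 ∧ Nbr S i j}.ncard ≤ Δ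

/-- A deterministic polynomial-time machine computes, for each system `S` and each `q ≥ 1` (in
unary), a rational number, which is the volume of the polytope up to a relative error of at most
`1 / q` if `S` describes the polytope `{x : 0 ≤ x ≤ 1, x i + x j ≤ 1 for the edges i j}` of a graph
of maximum degree at most `Δ`. -/
def StabApprox (Δ : ℕ) : Prop :=
  ∃ f : Sys × ℕ → RQ, PolyTimeComputable (encOf (Sys × ℕ)) (encOf RQ) f ∧
    ∀ (S : Sys) (q : ℕ), StabSys Δ S → 1 ≤ q → |(f (S, q)).val - vol (sol S)| ≤ vol (sol S) / q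

end Pool.Agent.Helper92.BO
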